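import Pool.Agent.OffDiag.Folner

/-!
# The core inequality
-/

set_option linter.unusedSectionVars false

namespace OffDiag

open Filter Topology Finset ComplexConjugate
open scoped Classical

noncomputable section

/-- The correlations of `H` with bounded sequences are almost periodic. -/
def HBAP (H : ℕ → ℕ → ℝ) : Prop :=
  ∀ ψ : ℕ → ℂ, Bdd ψ → BAP (fun b => M (fun b' => ψ b' * (H b b' : ℂ)))

theorem HBAP.add {H L : ℕ → ℕ → ℝ} (bH : Bdd2 H) (bL : Bdd2 L) (hH : HBAP H) (hL : HBAP L) :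
    HBAP (fun b b' => H b b' + L b b') := by
  intro ψ hψ
  have := (hH ψ hψ).add (hL ψ hψ)
  refine cast (congrArg BAP ?_) this
  funext b
  have b1 : Bdd (fun b' => ψ b' * (H b b' : ℂ)) := hψ.mul (bH.ofReal.inner b)
  have b2 : Bdd (fun b' => ψ b' * (L b b' : ℂ)) := hψ.mul (bL.ofReal.inner b)
  rw [← M_add b1 b2]
  congr 1
  funext b'
  push_cast
  ring

theorem HBAP.const (c : ℝ) : HBAP (fun _ _ => c) := by
  intro ψ _
  exact BAP.of_TP (const_mem_TP _)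

theorem HBAP.ker {H : ℕ → ℕ → ℝ} (bH : Bdd2 H) (hH : HBAP H) (G : Finset Circle) {ψ : ℕ → ℂ}
    (hψ : Bdd ψ) :
    BAP (fun b => M (fun b' => ψ b' * ((OffDiag.ker G b b' : ℂ) * (H b b' : ℂ)))) := by
  have h1 : ∀ z : Circle, BAP (fun b => M (fun b' => (ψ b' * chr z⁻¹ b') * (H b b' : ℂ))) :=
    fun z => hH _ (hψ.mul (bdd_chr _))
  have h2 := av_BAP (G := G) h1
  refine cast (congrArg BAP ?_) h2
  funext b
  have bz : ∀ z : Circle, Bdd (fun b' => (ψ b' * chr z⁻¹ b') * (H b b' : ℂ)) :=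
    fun z => (hψ.mul (bdd_chr _)).mul (bH.ofReal.inner b)
  have h3 : (fun b' => ψ b' * ((OffDiag.ker G b b' : ℂ) * (H b b' : ℂ)))
      = fun b' => av G (fun z => chr z b * ((ψ b' * chr z⁻¹ b') * (H b b' : ℂ))) := by
    funext b'
    rw [ker_eq, av_mul, mul_av]
    refine av_congr G fun z => ?_
    ring
  rw [h3, M_av fun z => (Bdd.const _).mul (bz z)]
  refine av_congr G fun z => ?_
  rw [M_const_mul (bz z)]

/-- Real smoothing. -/
def cvR (G : Finset Circle) (f : ℕ → ℝ) (b : ℕ) : ℝ := M (fun b' => ker G b b' * f b')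

theorem cvR_ofReal (G : Finset Circle) {f : ℕ → ℝ} (hf : Bdd f) (b : ℕ) :
    (cvR G f b : ℂ) = cv G (fun n => (f n : ℂ)) b := by
  unfold cvR cv
  rw [← M_ofReal (((bdd2_ker G).inner b).mul hf)]
  congr 1
  funext b'
  push_cast
  rfl

theorem bdd_of_unit {f : ℕ → ℝ} (hf0 : ∀ n, 0 ≤ f n) (hf1 : ∀ n, f n ≤ 1) : Bdd f :=
  ⟨1, fun n => by rw [Real.norm_eq_abs, abs_of_nonneg (hf0 n)]; exact hf1 n⟩

theorem cvR_nonneg (G : Finset Circle) {f : ℕ → ℝ} (hf0 : ∀ n, 0 ≤ f n) (hf1 : ∀ n, f n ≤ 1)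
    (b : ℕ) : 0 ≤ cvR G f b :=
  M_nonneg (((bdd2_ker G).inner b).mul (bdd_of_unit hf0 hf1)) fun n =>
    mul_nonneg (ker_nonneg G b n) (hf0 n)

theorem cvR_le_one {G : Finset Circle} (hG : G.Nonempty) {f : ℕ → ℝ} (hf0 : ∀ n, 0 ≤ f n)
    (hf1 : ∀ n, f n ≤ 1) (b : ℕ) : cvR G f b ≤ 1 := by
  rw [← M_ker_snd hG b]
  refine M_mono (((bdd2_ker G).inner b).mul (bdd_of_unit hf0 hf1)) ((bdd2_ker G).inner b) fun n => ?_
  exact mul_le_of_le_one_right (ker_nonneg G b n) (hf1 n)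

theorem corr_cvR {f T : ℕ → ℝ} (hf0 : ∀ n, 0 ≤ f n) (hf1 : ∀ n, f n ≤ 1) {G : Finset Circle}
    (hG : G.Nonempty) {S : Finset Circle} {τ ε N : ℝ} (hτ : 0 ≤ τ) (hε : 0 ≤ ε)
    (hωS : ∀ z ∈ S, 1 - τ ≤ om G z)
    (hS : ∀ Z : Finset Circle, Disjoint Z S → ∑ z ∈ Z, ‖fc (fun n => (f n : ℂ)) z‖ ^ 2 ≤ ε ^ 2)
    (hT : BAP (fun n => (T n : ℂ))) (hTN : ∀ n, |T n| ≤ N) :
    |M (fun n => (f n - cvR G f n) * T n)| ≤ (τ + ε) * N := by
  have bf : Bdd f := bdd_of_unit hf0 hf1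
  have bq : Bdd (cvR G f) := bdd_of_unit (cvR_nonneg G hf0 hf1) (cvR_le_one hG hf0 hf1)
  have bT : Bdd T := ⟨N, hTN⟩
  have hq : (fun n => (cvR G f n : ℂ)) = cv G (fun n => (f n : ℂ)) :=
    funext (cvR_ofReal G bf)
  have h := corr (f := fun n => (f n : ℂ)) (q := fun n => (cvR G f n : ℂ)) bf.ofReal bq.ofReal
    (om_nonneg G) (om_le_one G) (fun z => by rw [hq]; exact fc_cv G bf.ofReal z) hτ hε hωS hS
    (fun n => by
      rw [Complex.norm_real, Real.norm_eq_abs, abs_of_nonneg (hf0 n)]; exact hf1 n) hT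
    (fun n => by rw [Complex.norm_real]; exact hTN n)
  have h2 : (fun n => ((f n : ℂ) - (cvR G f n : ℂ)) * (T n : ℂ))
      = fun n => (((f n - cvR G f n) * T n : ℝ) : ℂ) := by
    funext n
    push_cast
    rfl
  rw [h2, M_ofReal ((bf.sub bq).mul bT), Complex.norm_real] at h
  exact h

theorem norm_fc_le {f : ℕ → ℂ} (hf1 : ∀ n, ‖f n‖ ≤ 1) (z : Circle) : ‖fc f z‖ ≤ 1 :=
  norm_M_le fun n => by rw [norm_mul, norm_chr, mul_one]; exact hf1 n

theorem MM_ker_norm_le {G : Finset Circle} (hG : G.Nonempty) {w : Circle} {θ : ℝ} (hθ : 0 < θ)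
    (h : 1 - θ ^ 2 / 2 ≤ om G w) :
    MM (fun b b' => ker G b b' * ‖chr w b - chr w b'‖) ≤ θ := by
  have b1 : Bdd2 (fun b b' => ‖chr w b - chr w b'‖) :=
    ((bdd_chr w).fst.sub (bdd_chr w).snd).norm
  have b2 : Bdd2 (fun b b' => ker G b b' * ‖chr w b - chr w b'‖ ^ 2) := by
    refine (bdd2_ker G).mul ?_
    simpa [sq] using b1.mul b1
  have b3 : Bdd2 (fun b b' => θ / 2 * ker G b b') := (Bdd2.const _).mul (bdd2_ker G)
  have b4 : Bdd2 (fun b b' => (2 * θ)⁻¹ * (ker G b b' * ‖chr w b - chr w b'‖ ^ 2)) :=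
    (Bdd2.const _).mul b2
  calc MM (fun b b' => ker G b b' * ‖chr w b - chr w b'‖)
      ≤ MM (fun b b' => θ / 2 * ker G b b' +
          (2 * θ)⁻¹ * (ker G b b' * ‖chr w b - chr w b'‖ ^ 2)) := by
        refine MM_mono ((bdd2_ker G).mul b1) (b3.add b4) fun b b' => ?_
        have hk := ker_nonneg G b b'
        set x := ‖chr w b - chr w b'‖
        have hx : x ≤ θ / 2 + (2 * θ)⁻¹ * x ^ 2 := by
          have : θ / 2 + (2 * θ)⁻¹ * x ^ 2 - x = (x - θ) ^ 2 / (2 * θ) := by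
            field_simp
            ring
          have h2 : 0 ≤ (x - θ) ^ 2 / (2 * θ) := by positivity
          linarith
        calc ker G b b' * x ≤ ker G b b' * (θ / 2 + (2 * θ)⁻¹ * x ^ 2) :=
              mul_le_mul_of_nonneg_left hx hk
          _ = _ := by ring
    _ = θ / 2 * MM (ker G) + (2 * θ)⁻¹ * MM (fun b b' => ker G b b' * ‖chr w b - chr w b'‖ ^ 2) := by
        rw [MM_add b3 b4, MM_const_mul_real (bdd2_ker G), MM_const_mul_real b2]
    _ = θ / 2 + (2 * θ)⁻¹ * (2 - 2 * om G w) := by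
        rw [MM_ker_dist hG w]
        have : MM (ker G) = 1 := by
          have h1 := MM_ker_snd hG (Bdd.const (1 : ℝ))
          simpa [M_const] using h1
        rw [this, mul_one]
    _ ≤ θ / 2 + (2 * θ)⁻¹ * θ ^ 2 := by
        have : 2 - 2 * om G w ≤ θ ^ 2 := by linarith
        have h3 : (2 * θ)⁻¹ * (2 - 2 * om G w) ≤ (2 * θ)⁻¹ * θ ^ 2 :=
          mul_le_mul_of_nonneg_left this (by positivity)
        linarith
    _ = θ := by field_simp; ring

theorem MM_ker_cvR_dist {G₀ G : Finset Circle} (hG : G.Nonempty) {f : ℕ → ℝ}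
    (hf0 : ∀ n, 0 ≤ f n) (hf1 : ∀ n, f n ≤ 1) {θ : ℝ} (hθ : 0 < θ)
    (h : ∀ g ∈ G₀, ∀ k ∈ G₀, 1 - θ ^ 2 / 2 ≤ om G (g * k⁻¹)) :
    MM (fun b b' => ker G b b' * |cvR G₀ f b - cvR G₀ f b'|) ≤ G₀.card * θ := by
  have bf : Bdd f := bdd_of_unit hf0 hf1
  have bq : Bdd (cvR G₀ f) := by
    have : Bdd (fun n => (cvR G₀ f n : ℂ)) := by
      have hq : (fun n => (cvR G₀ f n : ℂ)) = cv G₀ (fun n => (f n : ℂ)) :=
        funext (cvR_ofReal G₀ bf)
      rw [hq]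
      exact bdd_TP (cv_mem_TP G₀ bf.ofReal)
    obtain ⟨C, hC⟩ := this
    exact ⟨C, fun n => by simpa using hC n⟩
  have b1 : ∀ w : Circle, Bdd2 (fun b b' => ker G b b' * ‖chr w b - chr w b'‖) := fun w =>
    (bdd2_ker G).mul ((bdd_chr w).fst.sub (bdd_chr w).snd).norm
  have b2 : Bdd2 (fun b b' => ∑ g ∈ G₀, ∑ k ∈ G₀,
      ker G b b' * ‖chr (g * k⁻¹) b - chr (g * k⁻¹) b'‖) :=
    Bdd2.sum fun g _ => Bdd2.sum fun k _ => b1 _
  have b3 : Bdd2 (fun b b' => |cvR G₀ f b - cvR G₀ f b'|) := (bq.fst.sub bq.snd).norm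
  calc MM (fun b b' => ker G b b' * |cvR G₀ f b - cvR G₀ f b'|)
      ≤ MM (fun b b' => (G₀.card : ℝ)⁻¹ * ∑ g ∈ G₀, ∑ k ∈ G₀,
          ker G b b' * ‖chr (g * k⁻¹) b - chr (g * k⁻¹) b'‖) := by
        refine MM_mono ((bdd2_ker G).mul b3) ((Bdd2.const _).mul b2) fun b b' => ?_
        have h1 : |cvR G₀ f b - cvR G₀ f b'|
            ≤ (G₀.card : ℝ)⁻¹ * ∑ g ∈ G₀, ∑ k ∈ G₀, ‖chr (g * k⁻¹) b - chr (g * k⁻¹) b'‖ := by
          have h2 : ((cvR G₀ f b - cvR G₀ f b' : ℝ) : ℂ)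
              = av G₀ (fun z => (chr z b - chr z b') * fc (fun n => (f n : ℂ)) z) := by
            push_cast
            rw [cvR_ofReal G₀ bf, cvR_ofReal G₀ bf, cv_eq G₀ bf.ofReal, cv_eq G₀ bf.ofReal,
              ← av_sub]
            refine av_congr G₀ fun z => ?_
            ring
          have h3 : |cvR G₀ f b - cvR G₀ f b'| = ‖((cvR G₀ f b - cvR G₀ f b' : ℝ) : ℂ)‖ := by
            rw [Complex.norm_real]; rfl
          rw [h3, h2]
          refine (norm_av_le _ _).trans (mul_le_mul_of_nonneg_left ?_ (by positivity))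
          refine Finset.sum_le_sum fun g _ => Finset.sum_le_sum fun k _ => ?_
          rw [norm_mul]
          refine mul_le_of_le_one_right (norm_nonneg _) (norm_fc_le (fun n => ?_) _)
          rw [Complex.norm_real, Real.norm_eq_abs, abs_of_nonneg (hf0 n)]
          exact hf1 n
        calc ker G b b' * |cvR G₀ f b - cvR G₀ f b'|
            ≤ ker G b b' * ((G₀.card : ℝ)⁻¹ *
              ∑ g ∈ G₀, ∑ k ∈ G₀, ‖chr (g * k⁻¹) b - chr (g * k⁻¹) b'‖) :=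
              mul_le_mul_of_nonneg_left h1 (ker_nonneg G b b')
          _ = _ := by
              rw [mul_left_comm]
              simp only [Finset.mul_sum]
    _ = (G₀.card : ℝ)⁻¹ * ∑ g ∈ G₀, ∑ k ∈ G₀,
          MM (fun b b' => ker G b b' * ‖chr (g * k⁻¹) b - chr (g * k⁻¹) b'‖) := by
        rw [MM_const_mul_real b2, MM_sum fun g _ => Bdd2.sum fun k _ => b1 _]
        congr 1
        refine Finset.sum_congr rfl fun g _ => ?_
        rw [MM_sum fun k _ => b1 _]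
    _ ≤ (G₀.card : ℝ)⁻¹ * ∑ g ∈ G₀, ∑ k ∈ G₀, θ := by
        refine mul_le_mul_of_nonneg_left ?_ (by positivity)
        exact Finset.sum_le_sum fun g hg => Finset.sum_le_sum fun k hk =>
          MM_ker_norm_le hG hθ (h g hg k hk)
    _ ≤ G₀.card * θ := by
        rw [Finset.sum_const, Finset.sum_const, nsmul_eq_mul, nsmul_eq_mul]
        rcases G₀.eq_empty_or_nonempty with rfl | hne
        · simp
        have hc : (G₀.card : ℝ) ≠ 0 := by exact_mod_cast hne.card_pos.ne'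
        rw [inv_mul_cancel_left₀ hc]

end

end OffDiag
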