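import Pool.Agent.OffDiag.Core

/-!
# The core inequality, main theorem
-/

set_option linter.unusedSectionVars false

namespace OffDiag

open Filter Topology Finset ComplexConjugate
open scoped Classical

noncomputable section

theorem abs_three {a k h : ℝ} (ha : 0 ≤ a) (hk : 0 ≤ k) : |a * (k * h)| = a * (k * |h|) := by
  rw [abs_mul, abs_mul, abs_of_nonneg ha, abs_of_nonneg hk]

/-- Elementary bound. -/
theorem mul_one_sub_pow_le {x : ℝ} (h0 : 0 ≤ x) (h1 : x ≤ 1) (N : ℕ) :
    x * (1 - x) ^ N ≤ 1 / (N + 1) := by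
  have hN : (0 : ℝ) < N + 1 := by positivity
  rw [le_div_iff₀ hN]
  have hs : ∑ j ∈ range (N + 1), (1 - x) ^ j ≥ ∑ _j ∈ range (N + 1), (1 - x) ^ N := by
    refine Finset.sum_le_sum fun j hj => ?_
    rw [mem_range] at hj
    exact pow_le_pow_of_le_one (by linarith) (by linarith) (by omega)
  rw [Finset.sum_const, card_range, nsmul_eq_mul] at hs
  have hg : x * ∑ j ∈ range (N + 1), (1 - x) ^ j = 1 - (1 - x) ^ (N + 1) := by
    have := mul_neg_geom_sum (1 - x) (N + 1)
    rw [sub_sub_cancel] at this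
    exact this
  have h2 : x * (((N + 1 : ℕ) : ℝ) * (1 - x) ^ N) ≤ 1 := by
    calc x * (((N + 1 : ℕ) : ℝ) * (1 - x) ^ N) ≤ x * ∑ j ∈ range (N + 1), (1 - x) ^ j :=
          mul_le_mul_of_nonneg_left hs h0
      _ = 1 - (1 - x) ^ (N + 1) := hg
      _ ≤ 1 := by
          have : 0 ≤ (1 - x) ^ (N + 1) := pow_nonneg (by linarith) _
          linarith
  push_cast at h2
  linarith

/-- The indicator of the set on which `H` is at least one against the window `[k, K]`. -/
def yK {ι : Type*} (H : ℕ → ℕ → ℝ) (cell : ℕ → ι) (k K b' : ℕ) : ℝ :=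
  if (∀ b, k ≤ b → b ≤ K → cell b = cell b' → 1 ≤ H b b') then (1 : ℝ) else 0

section yK

variable {ι : Type*} (H : ℕ → ℕ → ℝ) (cell : ℕ → ι) (k : ℕ)

theorem yK_nonneg (K b' : ℕ) : 0 ≤ yK H cell k K b' := by
  unfold yK; split_ifs <;> norm_num

theorem yK_le_one (K b' : ℕ) : yK H cell k K b' ≤ 1 := by
  unfold yK; split_ifs <;> norm_num

theorem bdd_yK (K : ℕ) : Bdd (yK H cell k K) :=
  bdd_of_unit (yK_nonneg H cell k K) (yK_le_one H cell k K)

theorem yK_anti {K L : ℕ} (h : K ≤ L) (b' : ℕ) : yK H cell k L b' ≤ yK H cell k K b' := by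
  unfold yK
  split_ifs with h1 h2 h2
  · exact le_rfl
  · exfalso
    exact h2 fun b hb hbK => h1 b hb (hbK.trans h)
  · norm_num
  · exact le_rfl

theorem exists_K0 {ε : ℝ} (hε : 0 < ε) :
    ∃ K₀, ∀ K, K₀ ≤ K → M (yK H cell k K₀) - M (yK H cell k K) ≤ ε := by
  set u : ℕ → ℝ := fun K => M (yK H cell k K) with hu
  have hbelow : BddBelow (Set.range u) :=
    ⟨0, by rintro _ ⟨K, rfl⟩; exact M_nonneg (bdd_yK H cell k K) (yK_nonneg H cell k K)⟩
  have h1 : (⨅ K, u K) < (⨅ K, u K) + ε := by linarith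
  obtain ⟨K₀, hK₀⟩ := exists_lt_of_ciInf_lt h1
  refine ⟨K₀, fun K _ => ?_⟩
  have := ciInf_le hbelow K
  change u K₀ - u K ≤ ε
  linarith

end yK

theorem core {H : ℕ → ℕ → ℝ} (hH0 : ∀ b b', 0 ≤ H b b') (hH2 : ∀ b b', H b b' ≤ 2)
    (hHB : HBAP H) {ι : Type*} [Fintype ι] (cell : ℕ → ι) (k : ℕ) {y : ℝ}
    (hy : ∀ K, y ≤ M (yK H cell k K)) {ε : ℝ} (hε : 0 < ε) :
    ∃ G : Finset Circle, G.Nonempty ∧ y ≤ MM (fun b b' => ker G b b' * H b b') + ε := by
  set r : ℝ := (Fintype.card ι : ℝ) with hr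
  have hr0 : 0 ≤ r := by positivity
  -- choice of `N`
  obtain ⟨N, hN1, hN⟩ : ∃ N : ℕ, 1 ≤ N ∧ r / (N + 1) ≤ ε / 4 := by
    obtain ⟨n, hn⟩ := exists_nat_ge (4 * r / ε)
    refine ⟨n + 1, by omega, ?_⟩
    rw [div_le_iff₀ hε] at hn
    rw [div_le_iff₀ (by positivity)]
    push_cast
    nlinarith
  have hN1' : (1 : ℝ) ≤ N := by exact_mod_cast hN1
  -- choice of `ρ`
  set ρ : ℝ := ε / (8 * (r + 1) * (N + 1)) with hρ
  have hρ0 : 0 < ρ := by positivity
  have hρb : r * (ρ + ρ) * (N + 1) ≤ ε / 4 := by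
    have : r * (ρ + ρ) * (N + 1) = ε / 4 * (r / (r + 1)) := by
      rw [hρ]; field_simp; ring
    rw [this]
    have h2 : r / (r + 1) ≤ 1 := by rw [div_le_one (by positivity)]; linarith
    nlinarith
  -- the cells
  set f : ι → ℕ → ℝ := fun i n => if cell n = i then 1 else 0 with hf
  have hf0 : ∀ i n, 0 ≤ f i n := fun i n => by simp only [hf]; split_ifs <;> norm_num
  have hf1 : ∀ i n, f i n ≤ 1 := fun i n => by simp only [hf]; split_ifs <;> norm_num
  have bf : ∀ i, Bdd (f i) := fun i => bdd_of_unit (hf0 i) (hf1 i)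
  choose S₀ hS₀ using fun i => exists_support (bf i).ofReal (show (0 : ℝ) < ρ ^ 2 by positivity)
  set S : Finset Circle := univ.biUnion S₀ with hS
  have hSi : ∀ i, ∀ Z : Finset Circle, Disjoint Z S →
      ∑ z ∈ Z, ‖fc (fun n => (f i n : ℂ)) z‖ ^ 2 ≤ ρ ^ 2 := by
    intro i Z hZ
    refine hS₀ i Z (Finset.disjoint_of_subset_right ?_ hZ)
    exact Finset.subset_biUnion_of_mem S₀ (mem_univ i)
  obtain ⟨G₀, hG₀, hωS⟩ := exists_folner S hρ0
  set q : ι → ℕ → ℝ := fun i => cvR G₀ (f i) with hq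
  have hq0 : ∀ i n, 0 ≤ q i n := fun i n => cvR_nonneg G₀ (hf0 i) (hf1 i) n
  have hq1 : ∀ i n, q i n ≤ 1 := fun i n => cvR_le_one hG₀ (hf0 i) (hf1 i) n
  have bq : ∀ i, Bdd (q i) := fun i => bdd_of_unit (hq0 i) (hq1 i)
  have hcorr : ∀ i, ∀ (T : ℕ → ℝ) (C : ℝ), BAP (fun n => (T n : ℂ)) → (∀ n, |T n| ≤ C) →
      |M (fun n => (f i n - q i n) * T n)| ≤ (ρ + ρ) * C := fun i T C hT hTC =>
    corr_cvR (hf0 i) (hf1 i) hG₀ hρ0.le hρ0.le hωS (hSi i) hT hTC
  -- choice of `θ`
  set θ : ℝ := ε / (4 * (r + 1) * N * (G₀.card + 1)) with hθ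
  have hθ0 : 0 < θ := by positivity
  have hθb : r * (N * (G₀.card * θ)) ≤ ε / 4 := by
    have : r * (N * (G₀.card * θ)) = ε / 4 * (r / (r + 1)) * (G₀.card / (G₀.card + 1)) := by
      rw [hθ]; field_simp
    rw [this]
    have h2 : r / (r + 1) ≤ 1 := by rw [div_le_one (by positivity)]; linarith
    have h3 : (G₀.card : ℝ) / (G₀.card + 1) ≤ 1 := by
      rw [div_le_one (by positivity)]; linarith
    have h4 : 0 ≤ r / (r + 1) := by positivity
    have h5 : 0 ≤ (G₀.card : ℝ) / (G₀.card + 1) := by positivity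
    calc ε / 4 * (r / (r + 1)) * (G₀.card / (G₀.card + 1)) ≤ ε / 4 * 1 * 1 :=
          mul_le_mul (mul_le_mul_of_nonneg_left h2 (by positivity)) h3 h5 (by positivity)
      _ = ε / 4 := by ring
  obtain ⟨G, hG, hωG⟩ := exists_folner ((G₀ ×ˢ G₀).image fun p => p.1 * p.2⁻¹)
    (show (0 : ℝ) < θ ^ 2 / 2 by positivity)
  have hloc : ∀ i, MM (fun b b' => ker G b b' * |q i b - q i b'|) ≤ G₀.card * θ := by
    intro i
    refine MM_ker_cvR_dist hG (hf0 i) (hf1 i) hθ0 fun g hg h hh => hωG _ ?_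
    rw [mem_image]
    exact ⟨(g, h), mem_product.mpr ⟨hg, hh⟩, rfl⟩
  refine ⟨G, hG, ?_⟩
  set W : ℝ := (G.card : ℝ) with hW
  have hW0 : 0 < W := by rw [hW]; exact_mod_cast hG.card_pos
  set ε₁ : ℝ := ε / (4 * N * W) with hε₁
  have hε₁0 : 0 < ε₁ := by positivity
  have hε₁b : N * W * ε₁ = ε / 4 := by rw [hε₁]; field_simp
  obtain ⟨K₀, hK₀⟩ := exists_K0 H cell k hε₁0
  set Y : ℕ → ℝ := yK H cell k K₀ with hY
  have hY0 : ∀ n, 0 ≤ Y n := yK_nonneg H cell k K₀
  have hY1 : ∀ n, Y n ≤ 1 := yK_le_one H cell k K₀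
  have bY : Bdd Y := bdd_yK H cell k K₀
  have bH : Bdd2 H := ⟨2, fun b b' => by
    rw [Real.norm_eq_abs, abs_of_nonneg (hH0 b b')]; exact hH2 b b'⟩
  set H' : ℕ → ℕ → ℝ := fun b b' => H b b' + (-1) with hH'
  have bH' : Bdd2 H' := bH.add (Bdd2.const (-1 : ℝ))
  have hH'B : HBAP H' := hHB.add bH (Bdd2.const (-1 : ℝ)) (HBAP.const (-1))
  have hH'l : ∀ b b', -1 ≤ H' b b' := fun b b' => by simp only [hH']; linarith [hH0 b b']
  have hH'u : ∀ b b', H' b b' ≤ 1 := fun b b' => by simp only [hH']; linarith [hH2 b b']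
  have hH'a : ∀ b b', |H' b b'| ≤ 1 := fun b b' => abs_le.mpr ⟨hH'l b b', hH'u b b'⟩
  -- the weights
  set s : ι → ℕ → ℝ := fun i n => ∑ j ∈ range N, (1 - q i n) ^ j with hs
  have hs0 : ∀ i n, 0 ≤ s i n := fun i n =>
    Finset.sum_nonneg fun j _ => pow_nonneg (by linarith [hq1 i n]) _
  have hsN : ∀ i n, s i n ≤ N := fun i n => by
    calc s i n ≤ ∑ _j ∈ range N, (1 : ℝ) := Finset.sum_le_sum fun j _ =>
          pow_le_one₀ (by linarith [hq1 i n]) (by linarith [hq0 i n])
      _ = N := by simp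
  set ψ : ι → ℕ → ℝ := fun i n => Y n * (f i n * s i n) with hψ
  have hψ0 : ∀ i n, 0 ≤ ψ i n := fun i n =>
    mul_nonneg (hY0 n) (mul_nonneg (hf0 i n) (hs0 i n))
  have hψN : ∀ i n, ψ i n ≤ N := fun i n => by
    calc ψ i n ≤ 1 * (1 * N) := mul_le_mul (hY1 n)
          (mul_le_mul (hf1 i n) (hsN i n) (hs0 i n) zero_le_one)
          (mul_nonneg (hf0 i n) (hs0 i n)) zero_le_one
      _ = N := by ring
  have bψ : ∀ i, Bdd (ψ i) := fun i => ⟨N, fun n => by
    rw [Real.norm_eq_abs, abs_of_nonneg (hψ0 i n)]; exact hψN i n⟩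
  set T : ι → ℕ → ℝ := fun i b => M (fun b' => ψ i b' * (ker G b b' * H' b b')) with hT
  have bψk : ∀ i, Bdd2 (fun b b' => ψ i b' * (ker G b b' * H' b b')) := fun i =>
    (bψ i).snd.mul ((bdd2_ker G).mul bH')
  have hTN : ∀ i b, |T i b| ≤ N := by
    intro i b
    have h1 : ‖M (fun b' => ψ i b' * (ker G b b' * H' b b'))‖
        ≤ M (fun b' => ‖ψ i b' * (ker G b b' * H' b b')‖) := norm_M_le_M_norm ((bψk i).inner b)
    refine h1.trans ?_
    have h2 : M (fun b' => ‖ψ i b' * (ker G b b' * H' b b')‖)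
        ≤ M (fun b' => (N : ℝ) * ker G b b') := by
      refine M_mono ((bψk i).inner b).norm ((Bdd.const _).mul ((bdd2_ker G).inner b)) fun b' => ?_
      rw [Real.norm_eq_abs, abs_three (hψ0 i b') (ker_nonneg G b b')]
      refine mul_le_mul (hψN i b') (mul_le_of_le_one_right (ker_nonneg G b b') (hH'a b b'))
        (mul_nonneg (ker_nonneg G b b') (abs_nonneg _)) (by positivity)
    refine h2.trans (le_of_eq ?_)
    rw [M_const_mul_real ((bdd2_ker G).inner b), M_ker_snd hG, mul_one]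
  have bT : ∀ i, Bdd (T i) := fun i => ⟨N, hTN i⟩
  have hTB : ∀ i, BAP (fun b => (T i b : ℂ)) := by
    intro i
    have h1 := hH'B.ker bH' G (bψ i).ofReal
    refine cast (congrArg BAP ?_) h1
    funext b
    simp only [hT]
    rw [← M_ofReal ((bψk i).inner b)]
    congr 1
    funext b'
    push_cast
    rfl
  -- lower bound
  have hlow : ∀ b, k ≤ b → -(N * W * ε₁) ≤ ∑ i, f i b * T i b := by
    intro b hb
    have h1 : ∑ i, f i b * T i b = T (cell b) b := by
      rw [Finset.sum_eq_single (cell b)]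
      · simp [hf]
      · intro i _ hi
        simp [hf, Ne.symm hi]
      · intro h; exact absurd (mem_univ _) h
    rw [h1]
    set K := max b K₀ with hK
    have hKK : K₀ ≤ K := le_max_right _ _
    have bYK : Bdd (yK H cell k K) := bdd_yK H cell k K
    have h2 : M (fun b' => -(N * W) * (Y b' - yK H cell k K b')) ≤ T (cell b) b := by
      refine M_mono ((Bdd.const _).mul (bY.sub bYK)) ((bψk (cell b)).inner b) fun b' => ?_
      have hk0 := ker_nonneg G b b'
      have hkW : ker G b b' ≤ W := ker_le G b b'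
      have hanti : yK H cell k K b' ≤ Y b' := yK_anti H cell k hKK b'
      by_cases hc : cell b' = cell b
      · by_cases hyK : (∀ a, k ≤ a → a ≤ K → cell a = cell b' → 1 ≤ H a b')
        · have h3 : yK H cell k K b' = 1 := by unfold yK; rw [if_pos hyK]
          have h4 : Y b' = 1 := le_antisymm (hY1 b') (by rw [← h3]; exact hanti)
          have h5 : 1 ≤ H b b' := hyK b hb (le_max_left _ _) hc.symm
          rw [h3, h4, sub_self, mul_zero]
          exact mul_nonneg (hψ0 _ _) (mul_nonneg hk0 (by simp only [hH']; linarith))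
        · have h3 : yK H cell k K b' = 0 := by unfold yK; rw [if_neg hyK]
          rw [h3, sub_zero]
          by_cases hY' : Y b' = 0
          · have : ψ (cell b) b' = 0 := by simp only [hψ]; rw [hY', zero_mul]
            rw [this, hY']; simp
          · have h4 : Y b' = 1 := by
              have : Y b' = 0 ∨ Y b' = 1 := by
                simp only [hY, yK]
                split_ifs
                · right; rfl
                · left; rfl
              rcases this with h | h
              · exact absurd h hY'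
              · exact h
            rw [h4, mul_one]
            have h5 : ψ (cell b) b' * (ker G b b' * H' b b') ≥ -(N * W) := by
              have h6 : |ψ (cell b) b' * (ker G b b' * H' b b')| ≤ N * W := by
                rw [abs_three (hψ0 _ _) hk0]
                refine mul_le_mul (hψN _ _) ?_ (mul_nonneg hk0 (abs_nonneg _)) (by positivity)
                exact (mul_le_of_le_one_right hk0 (hH'a b b')).trans hkW
              exact (abs_le.mp h6).1
            exact h5
      · have : ψ (cell b) b' = 0 := by simp [hψ, hf, hc]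
        rw [this, zero_mul]
        have : 0 ≤ Y b' - yK H cell k K b' := by linarith
        have hNW : 0 ≤ N * W := by positivity
        nlinarith
    have h3 : M (fun b' => -(N * W) * (Y b' - yK H cell k K b'))
        = -(N * W) * (M Y - M (yK H cell k K)) := by
      rw [M_const_mul_real (bY.sub bYK), M_sub bY bYK]
    rw [h3] at h2
    have h4 := hK₀ K hKK
    have hNW : 0 ≤ N * W := by positivity
    have h5 : (N * W) * (M Y - M (yK H cell k K)) ≤ N * W * ε₁ :=
      mul_le_mul_of_nonneg_left h4 hNW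
    linarith
  have bfT : ∀ i, Bdd (fun b => f i b * T i b) := fun i => (bf i).mul (bT i)
  have bqT : ∀ i, Bdd (fun b => q i b * T i b) := fun i => (bq i).mul (bT i)
  have h10 : -(N * W * ε₁) ≤ ∑ i, M (fun b => f i b * T i b) := by
    rw [← M_sum fun i _ => bfT i]
    have := M_mono_of_ge (Bdd.const (-(N * W * ε₁))) (Bdd.sum fun i (_ : i ∈ univ) => bfT i) k hlow
    rwa [M_const] at this
  have h11 : ∀ i, M (fun b => f i b * T i b) ≤ M (fun b => q i b * T i b) + (ρ + ρ) * N := by
    intro i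
    have h1 := hcorr i (T i) N (hTB i) (hTN i)
    have h2 : M (fun n => (f i n - q i n) * T i n)
        = M (fun b => f i b * T i b) - M (fun b => q i b * T i b) := by
      rw [← M_sub (bfT i) (bqT i)]
      congr 1
      funext n
      ring
    rw [h2] at h1
    linarith [(abs_le.mp h1).2]
  -- localization
  have h12 : ∀ i, M (fun b => q i b * T i b)
      ≤ MM (fun b b' => (q i b' * ψ i b') * (ker G b b' * H' b b')) + N * (G₀.card * θ) := by
    intro i
    have b1 : Bdd2 (fun b b' => (q i b * ψ i b') * (ker G b b' * H' b b')) :=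
      ((bq i).fst.mul (bψ i).snd).mul ((bdd2_ker G).mul bH')
    have b2 : Bdd2 (fun b b' => (q i b' * ψ i b') * (ker G b b' * H' b b')) :=
      ((bq i).snd.mul (bψ i).snd).mul ((bdd2_ker G).mul bH')
    have b3 : Bdd2 (fun b b' => ker G b b' * |q i b - q i b'|) :=
      (bdd2_ker G).mul ((bq i).fst.sub (bq i).snd).norm
    have h1 : M (fun b => q i b * T i b)
        = MM (fun b b' => (q i b * ψ i b') * (ker G b b' * H' b b')) := by
      unfold MM
      congr 1
      funext b
      simp only [hT]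
      rw [← M_const_mul_real ((bψk i).inner b)]
      congr 1
      funext b'
      ring
    rw [h1]
    have h2 : MM (fun b b' => (q i b * ψ i b') * (ker G b b' * H' b b'))
        ≤ MM (fun b b' => (q i b' * ψ i b') * (ker G b b' * H' b b')
          + N * (ker G b b' * |q i b - q i b'|)) := by
      refine MM_mono b1 (b2.add ((Bdd2.const _).mul b3)) fun b b' => ?_
      have hk0 := ker_nonneg G b b'
      have h3 : (q i b - q i b') * (ψ i b' * (ker G b b' * H' b b'))
          ≤ N * (ker G b b' * |q i b - q i b'|) := by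
        refine (le_abs_self _).trans ?_
        rw [abs_mul, abs_three (hψ0 i b') hk0]
        calc |q i b - q i b'| * (ψ i b' * (ker G b b' * |H' b b'|))
            ≤ |q i b - q i b'| * (N * (ker G b b' * 1)) := by
              refine mul_le_mul_of_nonneg_left ?_ (abs_nonneg _)
              exact mul_le_mul (hψN i b') (mul_le_mul_of_nonneg_left (hH'a b b') hk0)
                (mul_nonneg hk0 (abs_nonneg _)) (by positivity)
          _ = _ := by ring
      nlinarith [h3]
    refine h2.trans ?_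
    rw [MM_add b2 ((Bdd2.const _).mul b3), MM_const_mul_real b3]
    have := mul_le_mul_of_nonneg_left (hloc i) (show (0 : ℝ) ≤ N by positivity)
    linarith
  -- the total weight
  set Φ : ℕ → ℝ := fun n => ∑ i, q i n * ψ i n with hΦ
  have hqψ : ∀ i n, q i n * ψ i n = Y n * (f i n * (1 - (1 - q i n) ^ N)) := by
    intro i n
    have h1 : q i n * s i n = 1 - (1 - q i n) ^ N := by
      have := mul_neg_geom_sum (1 - q i n) N
      rw [sub_sub_cancel] at this
      exact this
    calc q i n * ψ i n = Y n * (f i n * (q i n * s i n)) := by simp only [hψ]; ring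
      _ = _ := by rw [h1]
  have hp0 : ∀ i n, 0 ≤ (1 - q i n) ^ N := fun i n => pow_nonneg (by linarith [hq1 i n]) _
  have hp1 : ∀ i n, (1 - q i n) ^ N ≤ 1 := fun i n =>
    pow_le_one₀ (by linarith [hq1 i n]) (by linarith [hq0 i n])
  have hfsum : ∀ n, ∑ i, f i n = 1 := by
    intro n
    simp [hf]
  have hΦ0 : ∀ n, 0 ≤ Φ n := fun n => Finset.sum_nonneg fun i _ =>
    mul_nonneg (hq0 i n) (hψ0 i n)
  have hΦ1 : ∀ n, Φ n ≤ 1 := by
    intro n
    calc Φ n = ∑ i, Y n * (f i n * (1 - (1 - q i n) ^ N)) :=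
          Finset.sum_congr rfl fun i _ => hqψ i n
      _ ≤ ∑ i, f i n := Finset.sum_le_sum fun i _ => by
          calc Y n * (f i n * (1 - (1 - q i n) ^ N)) ≤ 1 * (f i n * 1) := by
                refine mul_le_mul (hY1 n) (mul_le_mul_of_nonneg_left (by linarith [hp0 i n])
                  (hf0 i n)) (mul_nonneg (hf0 i n) (by linarith [hp1 i n])) zero_le_one
            _ = f i n := by ring
      _ = 1 := hfsum n
  have bΦ : Bdd Φ := bdd_of_unit hΦ0 hΦ1
  have bp : ∀ i, Bdd (fun n => (1 - q i n) ^ N) := fun i => bdd_of_unit (hp0 i) (hp1 i)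
  have h13 : ∑ i, MM (fun b b' => (q i b' * ψ i b') * (ker G b b' * H' b b'))
      ≤ MM (fun b b' => ker G b b' * H b b') - M Φ := by
    have b2 : ∀ i, Bdd2 (fun b b' => (q i b' * ψ i b') * (ker G b b' * H' b b')) := fun i =>
      ((bq i).snd.mul (bψ i).snd).mul ((bdd2_ker G).mul bH')
    rw [← MM_sum fun i _ => b2 i]
    have b3 : Bdd2 (fun b b' => ker G b b' * H b b') := (bdd2_ker G).mul bH
    have b4 : Bdd2 (fun b b' => ker G b b' * Φ b') := (bdd2_ker G).mul bΦ.snd
    rw [← MM_ker_snd hG bΦ, ← MM_sub b3 b4]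
    refine MM_mono (Bdd2.sum fun i _ => b2 i) (b3.sub b4) fun b b' => ?_
    rw [← Finset.sum_mul]
    change Φ b' * (ker G b b' * (H b b' + (-1))) ≤ ker G b b' * H b b' - ker G b b' * Φ b'
    have hk0 := ker_nonneg G b b'
    have h1 : Φ b' * (ker G b b' * H b b') ≤ ker G b b' * H b b' :=
      mul_le_of_le_one_left (mul_nonneg hk0 (hH0 b b')) (hΦ1 b')
    linarith [h1]
  -- lower bound for the mean of `Φ`
  have h14 : y ≤ M Φ + r * (1 / (N + 1) + (ρ + ρ)) := by
    have bfp : ∀ i, Bdd (fun n => f i n * (1 - q i n) ^ N) := fun i => (bf i).mul (bp i)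
    have bqp : ∀ i, Bdd (fun n => q i n * (1 - q i n) ^ N) := fun i => (bq i).mul (bp i)
    have h1 : M Y ≤ M (fun n => Φ n + ∑ i, f i n * (1 - q i n) ^ N) := by
      refine M_mono bY (bΦ.add (Bdd.sum fun i _ => bfp i)) fun n => ?_
      have h2 : Φ n = Y n * (1 - ∑ i, f i n * (1 - q i n) ^ N) := by
        calc Φ n = ∑ i, Y n * (f i n * (1 - (1 - q i n) ^ N)) :=
              Finset.sum_congr rfl fun i _ => hqψ i n
          _ = Y n * (∑ i, f i n - ∑ i, f i n * (1 - q i n) ^ N) := by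
              rw [← Finset.sum_sub_distrib, Finset.mul_sum]
              refine Finset.sum_congr rfl fun i _ => ?_
              ring
          _ = _ := by rw [hfsum]
      have h3 : 0 ≤ ∑ i, f i n * (1 - q i n) ^ N :=
        Finset.sum_nonneg fun i _ => mul_nonneg (hf0 i n) (hp0 i n)
      rw [h2]
      nlinarith [hY1 n, hY0 n]
    have h2 : M (fun n => Φ n + ∑ i, f i n * (1 - q i n) ^ N)
        = M Φ + ∑ i, M (fun n => f i n * (1 - q i n) ^ N) := by
      rw [M_add bΦ (Bdd.sum fun i _ => bfp i), M_sum fun i _ => bfp i]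
    have h3 : ∀ i, M (fun n => f i n * (1 - q i n) ^ N) ≤ 1 / (N + 1) + (ρ + ρ) := by
      intro i
      have h4 : BAP (fun n => (((1 - q i n) ^ N : ℝ) : ℂ)) := by
        refine BAP.of_TP ?_
        have h5 : (fun n => (((1 - q i n) ^ N : ℝ) : ℂ))
            = ((fun _ => (1 : ℂ)) - cv G₀ (fun n => (f i n : ℂ))) ^ N := by
          funext n
          simp only [Pi.pow_apply, Pi.sub_apply]
          rw [← cvR_ofReal G₀ (bf i)]
          push_cast
          rfl
        rw [h5]
        exact TP_pow (TP.sub_mem (const_mem_TP 1) (cv_mem_TP G₀ (bf i).ofReal)) N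
      have h5 := hcorr i (fun n => (1 - q i n) ^ N) 1 h4 fun n => by
        rw [abs_of_nonneg (hp0 i n)]; exact hp1 i n
      have h6 : M (fun n => (f i n - q i n) * (1 - q i n) ^ N)
          = M (fun n => f i n * (1 - q i n) ^ N) - M (fun n => q i n * (1 - q i n) ^ N) := by
        rw [← M_sub (bfp i) (bqp i)]
        congr 1
        funext n
        ring
      rw [h6] at h5
      have h7 : M (fun n => q i n * (1 - q i n) ^ N) ≤ 1 / (N + 1) :=
        M_le_const (bqp i) fun n => mul_one_sub_pow_le (hq0 i n) (hq1 i n) N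
      linarith [(abs_le.mp h5).2]
    have h4 : ∑ i, M (fun n => f i n * (1 - q i n) ^ N) ≤ r * (1 / (N + 1) + (ρ + ρ)) := by
      calc ∑ i, M (fun n => f i n * (1 - q i n) ^ N) ≤ ∑ _i : ι, (1 / ((N : ℝ) + 1) + (ρ + ρ)) :=
            Finset.sum_le_sum fun i _ => h3 i
        _ = _ := by rw [Finset.sum_const, card_univ, nsmul_eq_mul]
    have h5 := hy K₀
    calc y ≤ M Y := h5
      _ ≤ M Φ + ∑ i, M (fun n => f i n * (1 - q i n) ^ N) := by rw [← h2]; exact h1
      _ ≤ _ := by linarith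
  -- combine
  have h15 : ∑ i, M (fun b => f i b * T i b)
      ≤ ∑ i, MM (fun b b' => (q i b' * ψ i b') * (ker G b b' * H' b b'))
        + r * (N * (G₀.card * θ)) + r * ((ρ + ρ) * N) := by
    calc ∑ i, M (fun b => f i b * T i b)
        ≤ ∑ i, (MM (fun b b' => (q i b' * ψ i b') * (ker G b b' * H' b b'))
          + (N * (G₀.card * θ) + (ρ + ρ) * N)) :=
          Finset.sum_le_sum fun i _ => by linarith [h11 i, h12 i]
      _ = _ := by
          rw [Finset.sum_add_distrib, Finset.sum_const, card_univ, nsmul_eq_mul]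
          ring
  have h16 : r * (1 / ((N : ℝ) + 1)) ≤ ε / 4 := by rw [mul_one_div]; exact hN
  nlinarith [h10, h13, h14, h15, h16, hθb, hρb, hε₁b]

end

end OffDiag
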