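import Pool.Agent.OffDiag.Trig

/-!
# Correlations with almost periodic sequences
-/

set_option linter.unusedSectionVars false

namespace OffDiag

open Filter Topology Finset ComplexConjugate
open scoped Classical

noncomputable section

theorem TP_repr {P : ℕ → ℂ} (hP : P ∈ TP) :
    ∃ (s : Finset Circle) (c : Circle → ℂ), P = fun n => ∑ w ∈ s, c w * chr w n := by
  unfold TP at hP
  rw [Finsupp.mem_span_range_iff_exists_finsupp] at hP
  obtain ⟨c, hc⟩ := hP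
  refine ⟨c.support, c, ?_⟩
  rw [← hc]
  funext n
  simp [Finsupp.sum, Finset.sum_apply]

theorem fc_sum_chr (s : Finset Circle) (c : Circle → ℂ) {z : Circle} (hz : z ∈ s) :
    fc (fun n => ∑ w ∈ s, c w * chr w n) z = c z := by
  unfold fc
  have h1 : (fun n => (∑ w ∈ s, c w * chr w n) * chr z⁻¹ n)
      = fun n => ∑ w ∈ s, c w * chr (w * z⁻¹) n := by
    funext n
    rw [Finset.sum_mul]
    refine Finset.sum_congr rfl fun w _ => ?_
    rw [chr_mul, mul_assoc]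
  rw [h1, M_sum fun w _ => (Bdd.const _).mul (bdd_chr _)]
  rw [Finset.sum_congr rfl fun w _ => M_const_mul (bdd_chr _) _]
  simp only [M_chr, mul_inv_eq_one]
  simp [hz]

theorem sum_coeff_le (s : Finset Circle) (c : Circle → ℂ) :
    ∑ z ∈ s, ‖c z‖ ^ 2 ≤ N2 (fun n => ∑ w ∈ s, c w * chr w n) ^ 2 := by
  have hb : Bdd (fun n => ∑ w ∈ s, c w * chr w n) :=
    Bdd.sum fun w _ => (Bdd.const _).mul (bdd_chr _)
  rw [N2_sq hb]
  refine le_trans (le_of_eq ?_) (bessel hb s)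
  refine Finset.sum_congr rfl fun z hz => ?_
  rw [fc_sum_chr s c hz]

theorem exists_support {f : ℕ → ℂ} (hf : Bdd f) {ε : ℝ} (hε : 0 < ε) :
    ∃ S : Finset Circle, ∀ Z : Finset Circle, Disjoint Z S → ∑ z ∈ Z, ‖fc f z‖ ^ 2 ≤ ε := by
  have hs : Summable (fun z => ‖fc f z‖ ^ 2) :=
    summable_of_sum_le (fun z => by positivity) (bessel hf)
  obtain ⟨S, hS⟩ := summable_iff_vanishing_norm.mp hs ε hε
  refine ⟨S, fun Z hZ => ?_⟩
  have := (hS Z hZ).le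
  rwa [Real.norm_eq_abs, abs_of_nonneg (Finset.sum_nonneg fun z _ => by positivity)] at this

theorem corr_TP {f q : ℕ → ℂ} (hf : Bdd f) (hq : Bdd q) {ω : Circle → ℝ}
    (hω0 : ∀ z, 0 ≤ ω z) (hω1 : ∀ z, ω z ≤ 1) (hfq : ∀ z, fc q z = ω z * fc f z)
    {S : Finset Circle} {τ ε : ℝ} (hτ : 0 ≤ τ) (hε : 0 ≤ ε) (hωS : ∀ z ∈ S, 1 - τ ≤ ω z)
    (hS : ∀ Z : Finset Circle, Disjoint Z S → ∑ z ∈ Z, ‖fc f z‖ ^ 2 ≤ ε ^ 2)
    (hf1 : ∀ n, ‖f n‖ ≤ 1) {P : ℕ → ℂ} (hP : P ∈ TP) :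
    ‖M (fun n => (f n - q n) * P n)‖ ≤ (τ + ε) * N2 P := by
  obtain ⟨s, c, rfl⟩ := TP_repr hP
  have h1 : M (fun n => (f n - q n) * ∑ w ∈ s, c w * chr w n)
      = ∑ w ∈ s, c w * ((1 - ω w⁻¹ : ℝ) * fc f w⁻¹) := by
    have h2 : (fun n => (f n - q n) * ∑ w ∈ s, c w * chr w n)
        = fun n => ∑ w ∈ s, c w * (f n * chr w⁻¹⁻¹ n - q n * chr w⁻¹⁻¹ n) := by
      funext n
      rw [Finset.mul_sum]
      refine Finset.sum_congr rfl fun w _ => ?_
      rw [inv_inv]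
      ring
    have b1 : ∀ w : Circle, Bdd (fun n => f n * chr w⁻¹⁻¹ n) := fun w => hf.mul (bdd_chr _)
    have b2 : ∀ w : Circle, Bdd (fun n => q n * chr w⁻¹⁻¹ n) := fun w => hq.mul (bdd_chr _)
    rw [h2, M_sum fun w _ => (Bdd.const _).mul ((b1 w).sub (b2 w))]
    refine Finset.sum_congr rfl fun w _ => ?_
    rw [M_const_mul ((b1 w).sub (b2 w)), M_sub (b1 w) (b2 w)]
    change c w * (fc f w⁻¹ - fc q w⁻¹) = _
    rw [hfq]
    push_cast
    ring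
  rw [h1]
  have h3 : ∑ w ∈ s, ((1 - ω w⁻¹) * ‖fc f w⁻¹‖) ^ 2 ≤ (τ + ε) ^ 2 := by
    have h4 : ∑ w ∈ s, ((1 - ω w⁻¹) * ‖fc f w⁻¹‖) ^ 2
        = ∑ z ∈ s.image (fun w => w⁻¹), ((1 - ω z) * ‖fc f z‖) ^ 2 := by
      rw [Finset.sum_image]
      intro a _ b _ hab
      exact inv_injective hab
    rw [h4]
    set Z := s.image (fun w => w⁻¹) with hZ
    rw [← Finset.sum_filter_add_sum_filter_not Z (fun z => z ∈ S)]
    have h5 : ∑ z ∈ Z.filter (fun z => z ∈ S), ((1 - ω z) * ‖fc f z‖) ^ 2 ≤ τ ^ 2 := by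
      calc ∑ z ∈ Z.filter (fun z => z ∈ S), ((1 - ω z) * ‖fc f z‖) ^ 2
          ≤ ∑ z ∈ Z.filter (fun z => z ∈ S), τ ^ 2 * ‖fc f z‖ ^ 2 := by
            refine Finset.sum_le_sum fun z hz => ?_
            rw [mem_filter] at hz
            rw [mul_pow]
            refine mul_le_mul_of_nonneg_right ?_ (by positivity)
            refine pow_le_pow_left₀ (by linarith [hω1 z]) (by linarith [hωS z hz.2]) 2
        _ = τ ^ 2 * ∑ z ∈ Z.filter (fun z => z ∈ S), ‖fc f z‖ ^ 2 := by rw [Finset.mul_sum]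
        _ ≤ τ ^ 2 * 1 := by
            refine mul_le_mul_of_nonneg_left ?_ (by positivity)
            refine (bessel hf _).trans ?_
            refine M_le_const (hf.norm.pow 2) fun n => ?_
            have := pow_le_pow_left₀ (norm_nonneg _) (hf1 n) 2
            simpa using this
        _ = τ ^ 2 := mul_one _
    have h6 : ∑ z ∈ Z.filter (fun z => ¬ z ∈ S), ((1 - ω z) * ‖fc f z‖) ^ 2 ≤ ε ^ 2 := by
      refine le_trans (Finset.sum_le_sum fun z _ => ?_) (hS (Z.filter (fun z => ¬ z ∈ S)) ?_)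
      · rw [mul_pow]
        have h7 : (1 - ω z) ^ 2 ≤ 1 := by
          have := hω0 z
          have := hω1 z
          nlinarith
        calc (1 - ω z) ^ 2 * ‖fc f z‖ ^ 2 ≤ 1 * ‖fc f z‖ ^ 2 :=
              mul_le_mul_of_nonneg_right h7 (by positivity)
          _ = _ := one_mul _
      · rw [Finset.disjoint_left]
        intro z hz
        exact (mem_filter.mp hz).2
    nlinarith
  have h8 : ‖∑ w ∈ s, c w * ((1 - ω w⁻¹ : ℝ) * fc f w⁻¹)‖
      ≤ ∑ w ∈ s, ‖c w‖ * ((1 - ω w⁻¹) * ‖fc f w⁻¹‖) := by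
    refine (norm_sum_le _ _).trans (Finset.sum_le_sum fun w _ => ?_)
    rw [norm_mul, norm_mul, Complex.norm_real, Real.norm_eq_abs,
      abs_of_nonneg (by linarith [hω1 w⁻¹])]
  refine h8.trans ?_
  have h9 := Finset.sum_mul_sq_le_sq_mul_sq s (fun w => ‖c w‖)
    (fun w => (1 - ω w⁻¹) * ‖fc f w⁻¹‖)
  have h10 : (∑ w ∈ s, ‖c w‖ * ((1 - ω w⁻¹) * ‖fc f w⁻¹‖)) ^ 2
      ≤ ((τ + ε) * N2 (fun n => ∑ w ∈ s, c w * chr w n)) ^ 2 := by
    refine h9.trans ?_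
    rw [mul_pow, mul_comm]
    exact mul_le_mul h3 (sum_coeff_le s c) (Finset.sum_nonneg fun _ _ => by positivity)
      (by positivity)
  exact le_of_sq_le_sq h10 (mul_nonneg (by positivity) (N2_nonneg _))

theorem BAP.exists_N2 {T : ℕ → ℂ} (hT : BAP T) {η : ℝ} (hη : 0 < η) :
    ∃ P ∈ TP, N2 (fun n => T n - P n) ≤ η := by
  obtain ⟨P, hP, hP'⟩ := hT.2 (η ^ 2) (by positivity)
  refine ⟨P, hP, ?_⟩
  exact Real.sqrt_le_iff.mpr ⟨hη.le, hP'⟩

theorem corr {f q T : ℕ → ℂ} (hf : Bdd f) (hq : Bdd q) {ω : Circle → ℝ}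
    (hω0 : ∀ z, 0 ≤ ω z) (hω1 : ∀ z, ω z ≤ 1) (hfq : ∀ z, fc q z = ω z * fc f z)
    {S : Finset Circle} {τ ε N : ℝ} (hτ : 0 ≤ τ) (hε : 0 ≤ ε) (hωS : ∀ z ∈ S, 1 - τ ≤ ω z)
    (hS : ∀ Z : Finset Circle, Disjoint Z S → ∑ z ∈ Z, ‖fc f z‖ ^ 2 ≤ ε ^ 2)
    (hf1 : ∀ n, ‖f n‖ ≤ 1) (hT : BAP T) (hTN : ∀ n, ‖T n‖ ≤ N) :
    ‖M (fun n => (f n - q n) * T n)‖ ≤ (τ + ε) * N := by
  set C := N2 (fun n => f n - q n) with hC
  have hC0 : 0 ≤ C := N2_nonneg _
  refine le_of_forall_pos_le_add fun δ hδ => ?_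
  set η := δ / (τ + ε + C + 1) with hη
  have hden : 0 < τ + ε + C + 1 := by positivity
  have hη0 : 0 < η := by positivity
  obtain ⟨P, hP, hPT⟩ := hT.exists_N2 hη0
  have h1 : (fun n => (f n - q n) * T n)
      = fun n => (f n - q n) * P n + (f n - q n) * (T n - P n) := by
    funext n
    ring
  have hfqb : Bdd (fun n => f n - q n) := hf.sub hq
  have hTP : Bdd (fun n => T n - P n) := hT.1.sub (bdd_TP hP)
  rw [h1, M_add (hfqb.mul (bdd_TP hP)) (hfqb.mul hTP)]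
  have h2 := corr_TP hf hq hω0 hω1 hfq hτ hε hωS hS hf1 hP
  have h3 := norm_M_mul_le hfqb hTP
  have h4 : N2 P ≤ N + η := by
    have h5 : P = fun n => T n + (P n - T n) := by funext n; ring
    have h6 : Bdd (fun n => P n - T n) := (bdd_TP hP).sub hT.1
    calc N2 P = N2 (fun n => T n + (P n - T n)) := by rw [← h5]
      _ ≤ N2 T + N2 (fun n => P n - T n) := N2_add_le hT.1 h6
      _ ≤ N + η := add_le_add (N2_le_of_bound hT.1 hTN) (by rw [N2_sub_comm]; exact hPT)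
  calc ‖M (fun n => (f n - q n) * P n) + M (fun n => (f n - q n) * (T n - P n))‖
      ≤ (τ + ε) * N2 P + C * N2 (fun n => T n - P n) :=
        (norm_add_le _ _).trans (add_le_add h2 h3)
    _ ≤ (τ + ε) * (N + η) + C * η :=
        add_le_add (mul_le_mul_of_nonneg_left h4 (by positivity))
          (mul_le_mul_of_nonneg_left hPT hC0)
    _ = (τ + ε) * N + (τ + ε + C) * η := by ring
    _ ≤ (τ + ε) * N + (τ + ε + C + 1) * η := by nlinarith
    _ = (τ + ε) * N + δ := by rw [hη]; field_simp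

end

end OffDiag
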