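import Mathlib

/-!
# Almost periodic part of the orbit of a vector under an isometry
-/

set_option linter.unusedSectionVars false

namespace OffDiag

open Filter Topology Finset ComplexConjugate

noncomputable section

/-- Orthogonality of characters of `ℤ/N`. -/
theorem sum_root_orth {N : ℕ} (hN : 0 < N) {ζ : ℂ} (hζ : IsPrimitiveRoot ζ N) {a b : ℕ}
    (ha : a < N) (hb : b < N) :
    ∑ k ∈ range N, (ζ ^ k) ^ a * conj ((ζ ^ k) ^ b) = if a = b then (N : ℂ) else 0 := by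
  have hnorm : ‖ζ‖ = 1 := hζ.norm'_eq_one hN.ne'
  have hzz : ζ * conj ζ = 1 := by
    rw [Complex.mul_conj, Complex.normSq_eq_norm_sq, hnorm]; simp
  have hterm : ∀ k, (ζ ^ k) ^ a * conj ((ζ ^ k) ^ b) = (ζ ^ a * conj ζ ^ b) ^ k := by
    intro k
    simp only [map_pow]
    ring
  simp only [hterm]
  split_ifs with hab
  · subst hab
    have : ζ ^ a * conj ζ ^ a = 1 := by rw [← mul_pow, hzz, one_pow]
    simp [this]
  · have hw : ζ ^ a * conj ζ ^ b ≠ 1 := by
      intro h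
      apply hab
      apply hζ.pow_inj ha hb
      calc ζ ^ a = ζ ^ a * (ζ * conj ζ) ^ b := by rw [hzz, one_pow, mul_one]
        _ = (ζ ^ a * conj ζ ^ b) * ζ ^ b := by ring
        _ = ζ ^ b := by rw [h, one_mul]
    rw [geom_sum_eq hw]
    have : (ζ ^ a * conj ζ ^ b) ^ N = 1 := by
      have h1 : ζ ^ N = 1 := hζ.pow_eq_one
      have h2 : conj ζ ^ N = 1 := by rw [← map_pow, h1, map_one]
      calc (ζ ^ a * conj ζ ^ b) ^ N = (ζ ^ N) ^ a * (conj ζ ^ N) ^ b := by ring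
        _ = 1 := by rw [h1, h2]; simp
    rw [this, sub_self, zero_div]

variable {H : Type*} [NormedAddCommGroup H] [InnerProductSpace ℂ H]

/-- Twisted Birkhoff sum. -/
def Ysum (V : H →L[ℂ] H) (f : H) (J : ℕ) (z : ℂ) : H :=
  ∑ n ∈ range J, (conj z) ^ n • (V ^ n) f

variable (V : H →L[ℂ] H)

theorem norm_Vpow (hV : ∀ x, ‖V x‖ = ‖x‖) (n : ℕ) (x : H) : ‖(V ^ n) x‖ = ‖x‖ := by
  induction n generalizing x with
  | zero => simp
  | succ n ih =>
    rw [pow_succ]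
    change ‖(V ^ n) (V x)‖ = ‖x‖
    rw [ih, hV]

theorem inner_V (hV : ∀ x, ‖V x‖ = ‖x‖) (x y : H) : (inner ℂ (V x) (V y)) = (inner ℂ x y) := by
  let W : H →ₗᵢ[ℂ] H := ⟨V.toLinearMap, hV⟩
  exact W.inner_map_map x y

theorem inner_Vpow (hV : ∀ x, ‖V x‖ = ‖x‖) (n : ℕ) (x y : H) :
    (inner ℂ ((V ^ n) x) ((V ^ n) y)) = (inner ℂ x y) := by
  induction n generalizing x y with
  | zero => simp
  | succ n ih =>
    rw [pow_succ]
    change (inner ℂ ((V ^ n) (V x)) ((V ^ n) (V y))) = (inner ℂ x y)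
    rw [ih, inner_V V hV]

theorem Vpow_add (m n : ℕ) (x : H) : (V ^ (m + n)) x = (V ^ m) ((V ^ n) x) := by
  rw [pow_add]; rfl

theorem Ysum_add (f : H) (a b : ℕ) (z : ℂ) :
    Ysum V f (a + b) z = Ysum V f a z + (conj z) ^ a • (V ^ a) (Ysum V f b z) := by
  unfold Ysum
  rw [Finset.sum_range_add, map_sum, Finset.smul_sum]
  congr 1
  refine Finset.sum_congr rfl fun n _ => ?_
  rw [map_smul, smul_smul, ← pow_add, Vpow_add]

theorem norm_Ysum_le (hV : ∀ x, ‖V x‖ = ‖x‖) (f : H) (J : ℕ) {z : ℂ} (hz : ‖z‖ = 1) :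
    ‖Ysum V f J z‖ ≤ J * ‖f‖ := by
  unfold Ysum
  refine (norm_sum_le _ _).trans ?_
  calc ∑ n ∈ range J, ‖(conj z) ^ n • (V ^ n) f‖ = ∑ _n ∈ range J, ‖f‖ := by
        refine Finset.sum_congr rfl fun n _ => ?_
        rw [norm_smul, norm_Vpow V hV, norm_pow, RCLike.norm_conj, hz, one_pow, one_mul]
    _ ≤ J * ‖f‖ := by simp

theorem norm_Ysum_add_le (hV : ∀ x, ‖V x‖ = ‖x‖) (f : H) (a b : ℕ) {z : ℂ} (hz : ‖z‖ = 1) :
    ‖Ysum V f (a + b) z‖ ≤ ‖Ysum V f a z‖ + ‖Ysum V f b z‖ := by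
  rw [Ysum_add]
  refine (norm_add_le _ _).trans ?_
  rw [norm_smul, norm_Vpow V hV, norm_pow, RCLike.norm_conj, hz, one_pow, one_mul]

theorem norm_Ysum_mul_le (hV : ∀ x, ‖V x‖ = ‖x‖) (f : H) (q N : ℕ) {z : ℂ} (hz : ‖z‖ = 1) :
    ‖Ysum V f (q * N) z‖ ≤ q * ‖Ysum V f N z‖ := by
  induction q with
  | zero => simp [Ysum]
  | succ q ih =>
    rw [Nat.succ_mul]
    refine (norm_Ysum_add_le V hV f _ _ hz).trans ?_
    push_cast
    linarith

theorem continuous_Ysum (f : H) (J : ℕ) : Continuous (fun z => Ysum V f J z) := by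
  unfold Ysum
  fun_prop

/-- Uniform smallness of twisted averages, by compactness of the circle. -/
theorem exists_uniform (hV : ∀ x, ‖V x‖ = ‖x‖) (f : H) {κ : ℝ} (hκ : 0 < κ)
    (h : ∀ z : ℂ, ‖z‖ = 1 → ∃ N : ℕ, 0 < N ∧ ‖Ysum V f N z‖ < κ * N) :
    ∃ J₁ : ℕ, ∀ J, J₁ ≤ J → ∀ z : ℂ, ‖z‖ = 1 → ‖Ysum V f J z‖ ≤ 2 * κ * J := by
  classical
  choose! N hN0 hN using h
  have hcomp : IsCompact (Metric.sphere (0 : ℂ) 1) := isCompact_sphere 0 1
  let U : ℂ → Set ℂ := fun z => {w | ‖Ysum V f (N z) w‖ < κ * N z}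
  have hU : ∀ z ∈ Metric.sphere (0 : ℂ) 1, U z ∈ 𝓝 z := by
    intro z hz
    have hz' : ‖z‖ = 1 := by simpa using hz
    have hopen : IsOpen (U z) := isOpen_lt (continuous_Ysum V f (N z)).norm continuous_const
    exact hopen.mem_nhds (hN z hz')
  obtain ⟨t, ht, hcov⟩ := hcomp.elim_nhds_subcover U hU
  obtain ⟨Nmax, hNmax⟩ : ∃ K : ℕ, ∀ z ∈ t, N z ≤ K := ⟨t.sup N, fun z hz => Finset.le_sup hz⟩
  obtain ⟨J₁, hJ₁⟩ := exists_nat_ge (Nmax * ‖f‖ / κ)
  refine ⟨J₁, fun J hJ w hw => ?_⟩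
  have hw' : w ∈ ⋃ x ∈ t, U x := hcov (by simpa using hw)
  simp only [Set.mem_iUnion, exists_prop] at hw'
  obtain ⟨z, hzt, hwz⟩ := hw'
  have hwz' : ‖Ysum V f (N z) w‖ < κ * N z := hwz
  have hz1 : ‖z‖ = 1 := by simpa using ht z hzt
  have hNz : 0 < N z := hN0 z hz1
  have hdecomp : J = (J / N z) * N z + J % N z := by
    rw [mul_comm]; exact (Nat.div_add_mod J (N z)).symm
  have h1 : ‖Ysum V f J w‖ ≤ (J / N z : ℕ) * ‖Ysum V f (N z) w‖ + (J % N z : ℕ) * ‖f‖ := by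
    conv_lhs => rw [hdecomp]
    refine (norm_Ysum_add_le V hV f _ _ hw).trans ?_
    exact add_le_add (norm_Ysum_mul_le V hV f _ _ hw) (norm_Ysum_le V hV f _ hw)
  have h2 : ((J / N z : ℕ) : ℝ) * ‖Ysum V f (N z) w‖ ≤ κ * J := by
    calc ((J / N z : ℕ) : ℝ) * ‖Ysum V f (N z) w‖ ≤ ((J / N z : ℕ) : ℝ) * (κ * N z) :=
          mul_le_mul_of_nonneg_left hwz'.le (by positivity)
      _ = κ * (((J / N z : ℕ) : ℝ) * N z) := by ring
      _ ≤ κ * J := by
          refine mul_le_mul_of_nonneg_left ?_ hκ.le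
          exact_mod_cast Nat.div_mul_le_self J (N z)
  have h3 : ((J % N z : ℕ) : ℝ) * ‖f‖ ≤ κ * J := by
    have : ((J % N z : ℕ) : ℝ) ≤ Nmax := by
      exact_mod_cast (Nat.mod_lt J hNz).le.trans (hNmax z hzt)
    calc ((J % N z : ℕ) : ℝ) * ‖f‖ ≤ Nmax * ‖f‖ := mul_le_mul_of_nonneg_right this (norm_nonneg _)
      _ ≤ κ * J₁ := by rwa [div_le_iff₀' hκ] at hJ₁
      _ ≤ κ * J := mul_le_mul_of_nonneg_left (by exact_mod_cast hJ) hκ.le
  linarith

/-- The key square function estimate. -/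
theorem sum_inner_sq_le (hV : ∀ x, ‖V x‖ = ‖x‖) (f v : H) {J : ℕ} {s : ℝ} (hs : 0 ≤ s)
    (h : ∀ z : ℂ, ‖z‖ = 1 → ‖Ysum V f (2 * J) z‖ ≤ s * (2 * J : ℕ)) :
    ∑ j ∈ range J, ‖(inner ℂ v ((V ^ j) f))‖ ^ 2 ≤ 4 * s ^ 2 * J * ‖v‖ ^ 2 := by
  rcases Nat.eq_zero_or_pos J with rfl | hJ
  · simp
  set N : ℕ := 2 * J with hNdef
  have hN : 0 < N := by omega
  set ζ : ℂ := Complex.exp (2 * Real.pi * Complex.I / N) with hζdef
  have hζ : IsPrimitiveRoot ζ N := Complex.isPrimitiveRoot_exp N hN.ne'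
  have hnorm : ∀ k : ℕ, ‖ζ ^ k‖ = 1 := fun k => by
    rw [norm_pow, hζ.norm'_eq_one hN.ne', one_pow]
  set c : ℕ → ℂ := fun j => (inner ℂ v ((V ^ j) f)) with hc
  set A : ℂ → ℂ := fun z => ∑ j ∈ range J, conj (c j) * z ^ j with hA
  set S : ℝ := ∑ j ∈ range J, ‖c j‖ ^ 2 with hS
  have hS0 : 0 ≤ S := Finset.sum_nonneg fun _ _ => by positivity
  -- the main identity
  have hmain : ∑ k ∈ range N, A (ζ ^ k) * (inner ℂ (Ysum V v J (ζ ^ k)) (Ysum V f N (ζ ^ k)))
      = (N * J * S : ℝ) := by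
    have h1 : ∀ k, A (ζ ^ k) * (inner ℂ (Ysum V v J (ζ ^ k)) (Ysum V f N (ζ ^ k)))
        = ∑ j ∈ range J, ∑ n ∈ range J, ∑ m ∈ range N,
          conj (c j) * (inner ℂ ((V ^ n) v) ((V ^ m) f)) *
            ((ζ ^ k) ^ (j + n) * conj ((ζ ^ k) ^ m)) := by
      intro k
      simp only [hA, Ysum]
      rw [Finset.sum_mul]
      refine Finset.sum_congr rfl fun j _ => ?_
      rw [sum_inner, Finset.mul_sum]
      refine Finset.sum_congr rfl fun n _ => ?_
      rw [inner_sum, Finset.mul_sum]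
      refine Finset.sum_congr rfl fun m _ => ?_
      simp only [inner_smul_left, inner_smul_right, map_pow, Complex.conj_conj]
      rw [pow_add]
      ring
    simp only [h1]
    rw [Finset.sum_comm]
    have h2 : ∀ j ∈ range J, ∑ k ∈ range N, ∑ n ∈ range J, ∑ m ∈ range N,
          conj (c j) * (inner ℂ ((V ^ n) v) ((V ^ m) f)) *
            ((ζ ^ k) ^ (j + n) * conj ((ζ ^ k) ^ m)) = (N * J * ‖c j‖ ^ 2 : ℝ) := by
      intro j hj
      rw [mem_range] at hj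
      rw [Finset.sum_comm]
      have h3 : ∀ n ∈ range J, ∑ k ∈ range N, ∑ m ∈ range N,
          conj (c j) * (inner ℂ ((V ^ n) v) ((V ^ m) f)) *
            ((ζ ^ k) ^ (j + n) * conj ((ζ ^ k) ^ m)) = (N * ‖c j‖ ^ 2 : ℝ) := by
        intro n hn
        rw [mem_range] at hn
        rw [Finset.sum_comm]
        simp only [← Finset.mul_sum]
        have hjn : j + n < N := by omega
        calc ∑ m ∈ range N, conj (c j) * (inner ℂ ((V ^ n) v) ((V ^ m) f)) *
              ∑ k ∈ range N, (ζ ^ k) ^ (j + n) * conj ((ζ ^ k) ^ m)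
            = ∑ m ∈ range N, conj (c j) * (inner ℂ ((V ^ n) v) ((V ^ m) f)) *
              (if j + n = m then (N : ℂ) else 0) := by
              refine Finset.sum_congr rfl fun m hm => ?_
              rw [sum_root_orth hN hζ hjn (mem_range.mp hm)]
          _ = conj (c j) * (inner ℂ ((V ^ n) v) ((V ^ (j + n)) f)) * N := by
              simp [Finset.sum_ite_eq, hjn]
          _ = (N * ‖c j‖ ^ 2 : ℝ) := by
              rw [add_comm j n, Vpow_add, inner_Vpow V hV]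
              have : conj (c j) * c j = (‖c j‖ ^ 2 : ℝ) := by
                rw [mul_comm, Complex.mul_conj, Complex.normSq_eq_norm_sq]
              rw [show (inner ℂ v ((V ^ j) f)) = c j from rfl, this]
              push_cast
              ring
      rw [Finset.sum_congr rfl h3, Finset.sum_const, card_range, nsmul_eq_mul]
      push_cast
      ring
    rw [Finset.sum_congr rfl h2, hS]
    push_cast
    rw [Finset.mul_sum]
  -- Parseval for A
  have hAP : ∑ k ∈ range N, ‖A (ζ ^ k)‖ ^ 2 = N * S := by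
    have h1 : ∀ k, ((‖A (ζ ^ k)‖ ^ 2 : ℝ) : ℂ) = ∑ j ∈ range J, ∑ j' ∈ range J,
        conj (c j) * c j' * ((ζ ^ k) ^ j * conj ((ζ ^ k) ^ j')) := by
      intro k
      rw [← Complex.normSq_eq_norm_sq, ← Complex.mul_conj]
      simp only [hA, map_sum, map_mul, Complex.conj_conj, Finset.sum_mul_sum]
      refine Finset.sum_congr rfl fun j _ => ?_
      refine Finset.sum_congr rfl fun j' _ => ?_
      ring
    have h2 : ((∑ k ∈ range N, ‖A (ζ ^ k)‖ ^ 2 : ℝ) : ℂ) = ((N * S : ℝ) : ℂ) := by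
      push_cast
      have h1' : ∀ k, (‖A (ζ ^ k)‖ : ℂ) ^ 2 = ∑ j ∈ range J, ∑ j' ∈ range J,
        conj (c j) * c j' * ((ζ ^ k) ^ j * conj ((ζ ^ k) ^ j')) := by
        intro k; rw [← h1]; push_cast; rfl
      simp only [h1']
      rw [Finset.sum_comm]
      have h3 : ∀ j ∈ range J, ∑ k ∈ range N, ∑ j' ∈ range J,
          conj (c j) * c j' * ((ζ ^ k) ^ j * conj ((ζ ^ k) ^ j')) = N * (‖c j‖ : ℂ) ^ 2 := by
        intro j hj
        rw [mem_range] at hj
        rw [Finset.sum_comm]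
        simp only [← Finset.mul_sum]
        calc ∑ j' ∈ range J, conj (c j) * c j' *
              ∑ k ∈ range N, (ζ ^ k) ^ j * conj ((ζ ^ k) ^ j')
            = ∑ j' ∈ range J, conj (c j) * c j' * (if j = j' then (N : ℂ) else 0) := by
              refine Finset.sum_congr rfl fun m hm => ?_
              rw [mem_range] at hm
              rw [sum_root_orth hN hζ (by omega) (by omega)]
          _ = conj (c j) * c j * N := by simp [Finset.sum_ite_eq, hj]
          _ = N * (‖c j‖ : ℂ) ^ 2 := by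
              rw [mul_comm (conj (c j)), Complex.mul_conj, Complex.normSq_eq_norm_sq]
              push_cast
              ring
      rw [Finset.sum_congr rfl h3, hS]
      push_cast
      rw [Finset.mul_sum]
    exact_mod_cast h2
  -- Parseval for X
  have hXP : ∑ k ∈ range N, ‖Ysum V v J (ζ ^ k)‖ ^ 2 = N * (J * ‖v‖ ^ 2) := by
    have h1 : ∀ k, ((‖Ysum V v J (ζ ^ k)‖ ^ 2 : ℝ) : ℂ) = ∑ n ∈ range J, ∑ n' ∈ range J,
        (inner ℂ ((V ^ n) v) ((V ^ n') v)) * ((ζ ^ k) ^ n * conj ((ζ ^ k) ^ n')) := by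
      intro k
      have := inner_self_eq_norm_sq_to_K (𝕜 := ℂ) (Ysum V v J (ζ ^ k))
      have h0 : ((‖Ysum V v J (ζ ^ k)‖ ^ 2 : ℝ) : ℂ)
          = (inner ℂ (Ysum V v J (ζ ^ k)) (Ysum V v J (ζ ^ k))) := by
        rw [this]; push_cast; rfl
      rw [h0]
      simp only [Ysum, sum_inner]
      refine Finset.sum_congr rfl fun n _ => ?_
      rw [inner_sum]
      refine Finset.sum_congr rfl fun n' _ => ?_
      simp only [inner_smul_left, inner_smul_right, map_pow, Complex.conj_conj]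
      ring
    have h2 : ((∑ k ∈ range N, ‖Ysum V v J (ζ ^ k)‖ ^ 2 : ℝ) : ℂ)
        = ((N * (J * ‖v‖ ^ 2) : ℝ) : ℂ) := by
      push_cast
      have h1' : ∀ k, (‖Ysum V v J (ζ ^ k)‖ : ℂ) ^ 2 = ∑ n ∈ range J, ∑ n' ∈ range J,
        (inner ℂ ((V ^ n) v) ((V ^ n') v)) * ((ζ ^ k) ^ n * conj ((ζ ^ k) ^ n')) := by
        intro k; rw [← h1]; push_cast; rfl
      simp only [h1']
      rw [Finset.sum_comm]
      have h3 : ∀ n ∈ range J, ∑ k ∈ range N, ∑ n' ∈ range J,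
          (inner ℂ ((V ^ n) v) ((V ^ n') v)) * ((ζ ^ k) ^ n * conj ((ζ ^ k) ^ n')) = N * (‖v‖ : ℂ) ^ 2 := by
        intro n hn
        rw [mem_range] at hn
        rw [Finset.sum_comm]
        simp only [← Finset.mul_sum]
        calc ∑ n' ∈ range J, (inner ℂ ((V ^ n) v) ((V ^ n') v)) *
              ∑ k ∈ range N, (ζ ^ k) ^ n * conj ((ζ ^ k) ^ n')
            = ∑ n' ∈ range J, (inner ℂ ((V ^ n) v) ((V ^ n') v)) * (if n = n' then (N : ℂ) else 0) := by
              refine Finset.sum_congr rfl fun m hm => ?_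
              rw [mem_range] at hm
              rw [sum_root_orth hN hζ (by omega) (by omega)]
          _ = (inner ℂ ((V ^ n) v) ((V ^ n) v)) * N := by simp [Finset.sum_ite_eq, hn]
          _ = N * (‖v‖ : ℂ) ^ 2 := by
              rw [inner_Vpow V hV, inner_self_eq_norm_sq_to_K]
              simp [mul_comm]
      rw [Finset.sum_congr rfl h3, Finset.sum_const, card_range, nsmul_eq_mul]
      ring
    exact_mod_cast h2
  -- Cauchy-Schwarz
  have hbound : (N * J * S : ℝ) ≤ s * N * (Real.sqrt (N * S) * Real.sqrt (N * (J * ‖v‖ ^ 2))) := by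
    have h1 : (N * J * S : ℝ) ≤ ∑ k ∈ range N, ‖A (ζ ^ k)‖ * (‖Ysum V v J (ζ ^ k)‖ * (s * N)) := by
      have h2 : ‖((N * J * S : ℝ) : ℂ)‖ = (N * J * S : ℝ) := by
        rw [Complex.norm_real, Real.norm_eq_abs, abs_of_nonneg (by positivity)]
      rw [← h2, ← hmain]
      refine (norm_sum_le _ _).trans (Finset.sum_le_sum fun k _ => ?_)
      rw [norm_mul]
      refine mul_le_mul_of_nonneg_left ?_ (norm_nonneg _)
      refine (norm_inner_le_norm _ _).trans ?_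
      exact mul_le_mul_of_nonneg_left (h _ (hnorm k)) (norm_nonneg _)
    have h3 : ∑ k ∈ range N, ‖A (ζ ^ k)‖ * (‖Ysum V v J (ζ ^ k)‖ * (s * N))
        = s * N * ∑ k ∈ range N, ‖A (ζ ^ k)‖ * ‖Ysum V v J (ζ ^ k)‖ := by
      rw [Finset.mul_sum]
      refine Finset.sum_congr rfl fun k _ => ?_
      ring
    rw [h3] at h1
    refine h1.trans (mul_le_mul_of_nonneg_left ?_ (by positivity))
    have h4 := Finset.sum_mul_sq_le_sq_mul_sq (range N) (fun k => ‖A (ζ ^ k)‖)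
      (fun k => ‖Ysum V v J (ζ ^ k)‖)
    rw [hAP, hXP] at h4
    rw [← Real.sqrt_mul (by positivity)]
    exact Real.le_sqrt_of_sq_le h4
  -- conclude
  have hNpos : (0 : ℝ) < N := by exact_mod_cast hN
  have hJpos : (0 : ℝ) < J := by exact_mod_cast hJ
  have hsq : (N * J * S : ℝ) ^ 2 ≤ (s * N) ^ 2 * ((N * S) * (N * (J * ‖v‖ ^ 2))) := by
    have h5 : (N * J * S : ℝ) ^ 2 ≤
        (s * N * (Real.sqrt (N * S) * Real.sqrt (N * (J * ‖v‖ ^ 2)))) ^ 2 :=
      pow_le_pow_left₀ (by positivity) hbound 2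
    refine h5.trans (le_of_eq ?_)
    rw [mul_pow, mul_pow (Real.sqrt _), Real.sq_sqrt (by positivity), Real.sq_sqrt (by positivity)]
  have hN2 : (N : ℝ) = 2 * J := by rw [hNdef]; push_cast; ring
  rcases hS0.eq_or_lt with hS1 | hS1
  · rw [← hS1]; positivity
  have : (J : ℝ) ^ 2 * S ^ 2 * N ^ 2 ≤ s ^ 2 * N ^ 4 * S * J * ‖v‖ ^ 2 := by nlinarith [hsq]
  have h6 : S * ((J : ℝ) ^ 2 * S * N ^ 2) ≤ S * (s ^ 2 * N ^ 4 * J * ‖v‖ ^ 2) := by nlinarith [this]
  have h7 := le_of_mul_le_mul_left h6 hS1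
  rw [hN2] at h7
  have h8 : (4 * (J : ℝ) ^ 4) * S ≤ (4 * (J : ℝ) ^ 4) * (4 * s ^ 2 * J * ‖v‖ ^ 2) := by
    nlinarith [h7]
  exact le_of_mul_le_mul_left h8 (by positivity)

/-- Projection on an eigenspace, through the mean ergodic theorem. -/
theorem exists_eigen [CompleteSpace H] (hV : ∀ x, ‖V x‖ = ‖x‖) {z : ℂ} (hz : ‖z‖ = 1) (f : H) :
    ∃ p : H, V p = z • p ∧ (∀ y, V y = z • y → (inner ℂ y (f - p)) = 0) ∧
      Tendsto (fun N : ℕ => (N : ℂ)⁻¹ • Ysum V f N z) atTop (𝓝 p) := by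
  have hzz : z * conj z = 1 := by
    rw [Complex.mul_conj, Complex.normSq_eq_norm_sq, hz]; simp
  have hzz' : conj z * z = 1 := by rw [mul_comm]; exact hzz
  set T : H →L[ℂ] H := conj z • V with hT
  have hTn : ‖T‖ ≤ 1 := by
    refine ContinuousLinearMap.opNorm_le_bound _ zero_le_one fun x => ?_
    rw [hT, ContinuousLinearMap.smul_apply, norm_smul, RCLike.norm_conj, hz, hV]
  have hmem : ∀ y, y ∈ T.eqLocus (1 : H →L[ℂ] H) ↔ V y = z • y := by
    intro y
    have h0 : y ∈ T.eqLocus (1 : H →L[ℂ] H) ↔ T y = (1 : H →L[ℂ] H) y := Iff.rfl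
    rw [h0, hT, ContinuousLinearMap.smul_apply, ContinuousLinearMap.one_apply]
    constructor
    · intro h
      calc V y = z • (conj z • V y) := by rw [smul_smul, hzz, one_smul]
        _ = z • y := by rw [h]
    · intro h
      rw [h, smul_smul, hzz', one_smul]
  have hlim := T.tendsto_birkhoffAverage_orthogonalProjection hTn f
  refine ⟨((T.eqLocus (1 : H →L[ℂ] H)).orthogonalProjectionOnto f : H), ?_, ?_, ?_⟩
  · rw [← hmem]
    exact Submodule.coe_mem _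
  · intro y hy
    rw [← hmem] at hy
    exact Submodule.sub_starProjection_mem_orthogonal (K := T.eqLocus (1 : H →L[ℂ] H)) f y hy
  · refine hlim.congr fun N => ?_
    unfold birkhoffAverage birkhoffSum Ysum
    congr 1
    refine Finset.sum_congr rfl fun n _ => ?_
    have h1 : ∀ n : ℕ, ∀ x : H, (⇑T)^[n] x = (conj z) ^ n • (V ^ n) x := by
      intro n
      induction n with
      | zero => intro x; simp
      | succ n ih =>
        intro x
        rw [Function.iterate_succ_apply, ih, hT, ContinuousLinearMap.smul_apply, map_smul,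
          smul_smul, ← pow_succ]
        congr 1
    exact h1 n f

theorem eigen_orth (hV : ∀ x, ‖V x‖ = ‖x‖) {z w : ℂ} (hz : ‖z‖ = 1) (hzw : z ≠ w) {x y : H}
    (hx : V x = z • x) (hy : V y = w • y) : (inner ℂ x y) = 0 := by
  have h := inner_V V hV x y
  rw [hx, hy, inner_smul_left, inner_smul_right, ← mul_assoc] at h
  have h1 : (conj z * w - 1) * (inner ℂ x y) = 0 := by rw [sub_mul, h, one_mul, sub_self]
  rcases mul_eq_zero.mp h1 with h2 | h2
  · exfalso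
    apply hzw
    have hzz : z * conj z = 1 := by
      rw [Complex.mul_conj, Complex.normSq_eq_norm_sq, hz]; simp
    calc z = z * (conj z * w) := by rw [sub_eq_zero.mp h2, mul_one]
      _ = w := by rw [← mul_assoc, hzz, one_mul]
  · exact h2

/-- **Fact B**: the orbit of a vector under an isometry is almost periodic in mean square. -/
theorem factB [CompleteSpace H] (hV : ∀ x, ‖V x‖ = ‖x‖) (f : H) {ε : ℝ} (hε : 0 < ε) :
    ∃ (Z : Finset ℂ) (g : ℂ → H), (∀ z ∈ Z, ‖z‖ = 1) ∧ ∃ J₁ : ℕ, ∀ J, J₁ ≤ J → ∀ v : H,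
      ∑ j ∈ range J, ‖(inner ℂ v ((V ^ j) f)) - ∑ z ∈ Z, z ^ j * (inner ℂ v (g z))‖ ^ 2
        ≤ ε * J * ‖v‖ ^ 2 := by
  classical
  have hex : ∀ z : ℂ, ∃ p : H, ‖z‖ = 1 → V p = z • p ∧ (∀ y, V y = z • y → (inner ℂ y (f - p)) = 0) := by
    intro z
    by_cases hz : ‖z‖ = 1
    · obtain ⟨p, h1, h2, -⟩ := exists_eigen V hV hz f
      exact ⟨p, fun _ => ⟨h1, h2⟩⟩
    · exact ⟨0, fun h => absurd h hz⟩
  choose p hp using hex
  -- Bessel
  have hbessel : ∀ Z : Finset ℂ, (∀ z ∈ Z, ‖z‖ = 1) → ∑ z ∈ Z, ‖p z‖ ^ 2 ≤ ‖f‖ ^ 2 := by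
    intro Z hZ
    set q : H := ∑ z ∈ Z, p z with hq
    have hpq : ∀ z ∈ Z, (inner ℂ (p z) q) = ((‖p z‖ ^ 2 : ℝ) : ℂ) := by
      intro z hz
      rw [hq, inner_sum, Finset.sum_eq_single z]
      · rw [inner_self_eq_norm_sq_to_K]; push_cast; rfl
      · intro w hw hwz
        exact eigen_orth V hV (hZ z hz) (Ne.symm hwz) (hp z (hZ z hz)).1 (hp w (hZ w hw)).1
      · intro h; exact absurd hz h
    have hpf : ∀ z ∈ Z, (inner ℂ (p z) f) = ((‖p z‖ ^ 2 : ℝ) : ℂ) := by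
      intro z hz
      have := (hp z (hZ z hz)).2 (p z) (hp z (hZ z hz)).1
      rw [inner_sub_right, sub_eq_zero] at this
      rw [this, inner_self_eq_norm_sq_to_K]; push_cast; rfl
    have hqq : (inner ℂ q q) = ((∑ z ∈ Z, ‖p z‖ ^ 2 : ℝ) : ℂ) := by
      conv_lhs => rw [hq, sum_inner]
      push_cast
      refine Finset.sum_congr rfl fun z hz => ?_
      rw [hpq z hz]; push_cast; rfl
    have hqf : (inner ℂ q f) = ((∑ z ∈ Z, ‖p z‖ ^ 2 : ℝ) : ℂ) := by
      conv_lhs => rw [hq, sum_inner]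
      push_cast
      refine Finset.sum_congr rfl fun z hz => ?_
      rw [hpf z hz]; push_cast; rfl
    have hqn : ‖q‖ ^ 2 = ∑ z ∈ Z, ‖p z‖ ^ 2 := by
      have : ((‖q‖ ^ 2 : ℝ) : ℂ) = ((∑ z ∈ Z, ‖p z‖ ^ 2 : ℝ) : ℂ) := by
        rw [← hqq, inner_self_eq_norm_sq_to_K]; push_cast; rfl
      exact_mod_cast this
    have h1 : ‖q‖ ^ 2 ≤ ‖q‖ * ‖f‖ := by
      have h2 := norm_inner_le_norm (𝕜 := ℂ) q f
      rw [hqf, ← hqn, Complex.norm_real, Real.norm_eq_abs, abs_of_nonneg (by positivity)] at h2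
      exact h2
    rw [← hqn]
    have h2 : ‖q‖ ≤ ‖f‖ := by
      rcases (norm_nonneg q).eq_or_lt with h0 | h0
      · rw [← h0]; exact norm_nonneg _
      · rw [sq] at h1
        exact le_of_mul_le_mul_left h1 h0
    exact pow_le_pow_left₀ (norm_nonneg _) h2 2
  set κ : ℝ := Real.sqrt ε / 4 with hκdef
  have hκ : 0 < κ := by positivity
  have hκsq : 16 * κ ^ 2 = ε := by
    rw [hκdef, div_pow, Real.sq_sqrt hε.le]; ring
  have hfin : {z : ℂ | ‖z‖ = 1 ∧ κ ≤ ‖p z‖}.Finite := by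
    by_contra hinf
    obtain ⟨K, hK⟩ := exists_nat_gt (‖f‖ ^ 2 / κ ^ 2)
    obtain ⟨t, ht, htc⟩ := Set.Infinite.exists_subset_card_eq hinf K
    have h1 := hbessel t fun z hz => (ht hz).1
    have h2 : (K : ℝ) * κ ^ 2 ≤ ∑ z ∈ t, ‖p z‖ ^ 2 := by
      rw [← htc, ← nsmul_eq_mul]
      refine Finset.card_nsmul_le_sum _ _ _ fun z hz => ?_
      exact pow_le_pow_left₀ hκ.le (ht hz).2 2
    rw [div_lt_iff₀ (by positivity)] at hK
    linarith
  set Z : Finset ℂ := hfin.toFinset with hZdef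
  have hZmem : ∀ z, z ∈ Z ↔ (‖z‖ = 1 ∧ κ ≤ ‖p z‖) := by
    intro z; rw [hZdef, Set.Finite.mem_toFinset]; rfl
  have hZ : ∀ z ∈ Z, ‖z‖ = 1 := fun z hz => ((hZmem z).mp hz).1
  set ff : H := f - ∑ z ∈ Z, p z with hff
  have hsmall : ∀ z : ℂ, ‖z‖ = 1 → ∃ N : ℕ, 0 < N ∧ ‖Ysum V ff N z‖ < κ * N := by
    intro w hw
    obtain ⟨q, hq1, hq2, hq3⟩ := exists_eigen V hV hw ff
    have hqn : ‖q‖ < κ := by
      have h1 : (inner ℂ q ff) = ((‖q‖ ^ 2 : ℝ) : ℂ) := by
        have := hq2 q hq1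
        rw [inner_sub_right, sub_eq_zero] at this
        rw [this, inner_self_eq_norm_sq_to_K]; push_cast; rfl
      have h2 : (inner ℂ q f) = (inner ℂ q (p w)) := by
        have := (hp w hw).2 q hq1
        rwa [inner_sub_right, sub_eq_zero] at this
      by_cases hwZ : w ∈ Z
      · have h3 : (inner ℂ q ff) = 0 := by
          rw [hff, inner_sub_right, inner_sum, h2, Finset.sum_eq_single w, sub_self]
          · intro z hz hzw
            exact eigen_orth V hV hw (Ne.symm hzw) hq1 (hp z (hZ z hz)).1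
          · intro h; exact absurd hwZ h
        rw [h1] at h3
        have h4 : ‖q‖ ^ 2 = 0 := by exact_mod_cast h3
        have h5 : ‖q‖ = 0 := by
          rcases pow_eq_zero_iff (two_ne_zero) |>.mp h4 with h; exact h
        rw [h5]; exact hκ
      · have h3 : (inner ℂ q ff) = (inner ℂ q (p w)) := by
          rw [hff, inner_sub_right, inner_sum, h2, Finset.sum_eq_zero, sub_zero]
          intro z hz
          have hzw : w ≠ z := fun h => hwZ (h ▸ hz)
          exact eigen_orth V hV hw hzw hq1 (hp z (hZ z hz)).1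
        have h4 : ‖q‖ ^ 2 ≤ ‖q‖ * ‖p w‖ := by
          have h5 := norm_inner_le_norm (𝕜 := ℂ) q (p w)
          rw [← h3, h1, Complex.norm_real, Real.norm_eq_abs, abs_of_nonneg (by positivity)] at h5
          exact h5
        have h6 : ‖p w‖ < κ := by
          by_contra hcon
          exact hwZ ((hZmem w).mpr ⟨hw, not_lt.mp hcon⟩)
        rcases (norm_nonneg q).eq_or_lt with h0 | h0
        · rw [← h0]; exact hκ
        · rw [sq] at h4
          exact (le_of_mul_le_mul_left h4 h0).trans_lt h6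
    have h1 : ∀ᶠ N : ℕ in atTop, ‖(N : ℂ)⁻¹ • Ysum V ff N w‖ < κ :=
      (hq3.norm).eventually (gt_mem_nhds hqn)
    obtain ⟨N, hN, hN0⟩ := (h1.and (eventually_gt_atTop 0)).exists
    refine ⟨N, hN0, ?_⟩
    have hN0' : (0 : ℝ) < N := by exact_mod_cast hN0
    rw [norm_smul, norm_inv, Complex.norm_natCast, inv_mul_lt_iff₀ hN0'] at hN
    linarith
  obtain ⟨J₁, hJ₁⟩ := exists_uniform V hV ff hκ hsmall
  refine ⟨Z, p, hZ, J₁, fun J hJ v => ?_⟩
  have h1 := sum_inner_sq_le V hV ff v (J := J) (s := 2 * κ) (by positivity) (fun z hz =>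
    hJ₁ (2 * J) (by omega) z hz)
  have h2 : ∀ j, (inner ℂ v ((V ^ j) ff)) = (inner ℂ v ((V ^ j) f)) - ∑ z ∈ Z, z ^ j * (inner ℂ v (p z)) := by
    intro j
    rw [hff, map_sub, map_sum, inner_sub_right, inner_sum]
    congr 1
    refine Finset.sum_congr rfl fun z hz => ?_
    have h3 : ∀ j : ℕ, (V ^ j) (p z) = z ^ j • p z := by
      intro j
      induction j with
      | zero => simp
      | succ j ih =>
        rw [pow_succ]
        change (V ^ j) (V (p z)) = _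
        rw [(hp z (hZ z hz)).1, map_smul, ih, smul_smul, pow_succ, mul_comm]
    rw [h3, inner_smul_right]
  simp only [h2] at h1
  calc _ ≤ 4 * (2 * κ) ^ 2 * J * ‖v‖ ^ 2 := h1
    _ = (16 * κ ^ 2) * J * ‖v‖ ^ 2 := by ring
    _ = _ := by rw [hκsq]

end

end OffDiag
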