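import Pool.Agent.OffDiag.Mean
import Pool.Agent.OffDiag.HilbertAP

/-!
# The pre-Hilbert space of bounded sequences with the mean inner product
-/

set_option linter.unusedSectionVars false

namespace OffDiag

open Filter Topology Finset ComplexConjugate

noncomputable section

/-- The bounded sequences as a submodule. -/
def bddSub : Submodule ℂ (ℕ → ℂ) where
  carrier := {f | Bdd f}
  add_mem' := fun {f g} hf hg => (Bdd.add hf hg : Bdd (fun n => f n + g n))
  zero_mem' := Bdd.const (0 : ℂ)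
  smul_mem' := fun c f hf => ((Bdd.const c).mul hf : Bdd (fun n => c * f n))

/-- The bounded sequences, as a type that carries the mean seminorm. -/
def BS : Type := bddSub

instance : AddCommGroup BS := inferInstanceAs (AddCommGroup bddSub)
instance : Module ℂ BS := inferInstanceAs (Module ℂ bddSub)

/-- The underlying sequence. -/
def BS.fn (x : BS) : ℕ → ℂ := (x : bddSub).1

/-- Constructor. -/
def BS.mk (f : ℕ → ℂ) (hf : Bdd f) : BS := (⟨f, hf⟩ : bddSub)

theorem BS.bdd (x : BS) : Bdd x.fn := (x : bddSub).2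

@[simp] theorem BS.fn_mk (f : ℕ → ℂ) (hf : Bdd f) : (BS.mk f hf).fn = f := rfl
@[simp] theorem BS.fn_add (x y : BS) (n : ℕ) : (x + y).fn n = x.fn n + y.fn n := rfl
@[simp] theorem BS.fn_smul (c : ℂ) (x : BS) (n : ℕ) : (c • x).fn n = c * x.fn n := rfl

theorem BS.ext' {x y : BS} (h : ∀ n, x.fn n = y.fn n) : x = y := Subtype.ext (funext h)

@[simp] theorem BS.fn_sub (x y : BS) (n : ℕ) : (x - y).fn n = x.fn n - y.fn n := rfl
@[simp] theorem BS.fn_neg (x : BS) (n : ℕ) : (-x).fn n = - x.fn n := rfl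
@[simp] theorem BS.fn_zero (n : ℕ) : (0 : BS).fn n = 0 := rfl

/-- The mean inner product. -/
abbrev bsCore : PreInnerProductSpace.Core ℂ BS where
  inner x y := M (fun n => conj (x.fn n) * y.fn n)
  conj_inner_symm x y := by
    rw [← M_conj (y.bdd.conj.mul x.bdd)]
    congr 1
    ext n
    simp [mul_comm]
  re_inner_nonneg x := by
    change 0 ≤ (M (fun n => conj (x.fn n) * x.fn n)).re
    rw [M_re (x.bdd.conj.mul x.bdd)]
    refine M_nonneg ?_ fun n => ?_
    · obtain ⟨C, hC⟩ := x.bdd.conj.mul x.bdd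
      exact ⟨C, fun n => (Complex.abs_re_le_norm _).trans (hC n)⟩
    · rw [mul_comm, Complex.mul_conj]
      simpa using Complex.normSq_nonneg _
  add_left x y z := by
    change M (fun n => conj ((x + y).fn n) * z.fn n) = M (fun n => conj (x.fn n) * z.fn n)
      + M (fun n => conj (y.fn n) * z.fn n)
    rw [← M_add (x.bdd.conj.mul z.bdd) (y.bdd.conj.mul z.bdd)]
    congr 1
    ext n
    simp [add_mul]
  smul_left x y r := by
    change M (fun n => conj ((r • x).fn n) * y.fn n) = conj r * M (fun n => conj (x.fn n) * y.fn n)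
    rw [← M_const_mul (x.bdd.conj.mul y.bdd)]
    congr 1
    ext n
    simp [mul_assoc]

instance : SeminormedAddCommGroup BS :=
  InnerProductSpace.Core.toSeminormedAddCommGroup (c := bsCore)
instance : InnerProductSpace ℂ BS :=
  InnerProductSpace.ofCore bsCore

theorem bs_inner (x y : BS) : inner ℂ x y = M (fun n => conj (x.fn n) * y.fn n) := rfl

theorem bs_norm_sq (x : BS) : ‖x‖ ^ 2 = M (fun n => ‖x.fn n‖ ^ 2) := by
  have h1 : ((‖x‖ ^ 2 : ℝ) : ℂ) = inner ℂ x x := by
    rw [inner_self_eq_norm_sq_to_K]; push_cast; rfl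
  rw [bs_inner] at h1
  have h2 : M (fun n => conj (x.fn n) * x.fn n) = ((M (fun n => ‖x.fn n‖ ^ 2) : ℝ) : ℂ) := by
    rw [← M_ofReal (x.bdd.norm.pow 2)]
    congr 1
    ext n
    rw [mul_comm, Complex.mul_conj, Complex.normSq_eq_norm_sq]
  rw [h2] at h1
  exact_mod_cast h1

/-- The shift. -/
def bsShiftLin : BS →ₗ[ℂ] BS where
  toFun x := BS.mk (fun n => x.fn (n + 1)) (x.bdd.shift 1)
  map_add' _ _ := BS.ext' fun _ => rfl
  map_smul' _ _ := BS.ext' fun _ => rfl

theorem norm_bsShiftLin (x : BS) : ‖bsShiftLin x‖ = ‖x‖ := by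
  have h : ‖bsShiftLin x‖ ^ 2 = ‖x‖ ^ 2 := by
    rw [bs_norm_sq, bs_norm_sq]
    have h1 : Bdd (fun n => ‖x.fn n‖ ^ 2) := x.bdd.norm.pow 2
    have h2 : (fun n => ‖(bsShiftLin x).fn n‖ ^ 2) = fun n => ‖x.fn (n + 1)‖ ^ 2 := by
      funext n
      rfl
    rw [h2]
    exact M_shift_one (f := fun n => ‖x.fn n‖ ^ 2) h1
  exact (pow_left_inj₀ (norm_nonneg _) (norm_nonneg _) two_ne_zero).mp h

/-- The shift as a continuous linear map. -/
def bsShift : BS →L[ℂ] BS := bsShiftLin.mkContinuous 1 fun x => by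
  rw [norm_bsShiftLin, one_mul]

theorem bsShift_fn (x : BS) (n : ℕ) : (bsShift x).fn n = x.fn (n + 1) := rfl

theorem norm_bsShift (x : BS) : ‖bsShift x‖ = ‖x‖ := norm_bsShiftLin x

/-- The Hilbert space. -/
abbrev HS := UniformSpace.Completion BS

/-- The shift on the Hilbert space. -/
def hsShift : HS →L[ℂ] HS := bsShift.completion

theorem hsShift_coe (x : BS) : hsShift (x : HS) = (bsShift x : BS) :=
  ContinuousLinearMap.completion_apply_coe _ _

theorem norm_hsShift (x : HS) : ‖hsShift x‖ = ‖x‖ := by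
  induction x using UniformSpace.Completion.induction_on with
  | hp =>
    exact isClosed_eq hsShift.continuous.norm continuous_norm
  | ih x =>
    rw [hsShift_coe, UniformSpace.Completion.norm_coe, UniformSpace.Completion.norm_coe,
      norm_bsShift]

theorem hsShift_pow_coe (n : ℕ) (x : BS) :
    (hsShift ^ n) (x : HS) = ((BS.mk (fun b => x.fn (b + n)) (x.bdd.shift n) : BS) : HS) := by
  induction n generalizing x with
  | zero => rfl
  | succ n ih =>
    rw [pow_succ]
    change (hsShift ^ n) (hsShift (x : HS)) = _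
    rw [hsShift_coe, ih]
    refine congrArg (fun x : BS => (x : HS)) (BS.ext' fun b => ?_)
    rfl

/-- Fact A, basic form. -/
theorem factA_step {f : ℕ → ℂ} (hf : Bdd f) (m : ℕ) {ε : ℝ} (hε : 0 < ε) :
    ∃ Z : Finset ℂ, (∀ z ∈ Z, ‖z‖ = 1) ∧ ∃ J₁ : ℕ, ∀ ψ : ℕ → ℂ, Bdd ψ →
      ∃ G : ℂ → ℂ, ∀ J, J₁ ≤ J →
        ∑ j ∈ range J, ‖M (fun b => ψ b * f (b + m * j)) - ∑ z ∈ Z, z ^ j * G z‖ ^ 2
          ≤ ε * J * M (fun b => ‖ψ b‖ ^ 2) := by
  have hiso : ∀ x, ‖(hsShift ^ m) x‖ = ‖x‖ := norm_Vpow hsShift norm_hsShift m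
  obtain ⟨Z, g, hZ, J₁, h⟩ := factB (hsShift ^ m) hiso ((BS.mk f hf : BS) : HS) hε
  refine ⟨Z, hZ, J₁, fun ψ hψ => ?_⟩
  set v : HS := ((BS.mk (fun b => conj (ψ b)) hψ.conj : BS) : HS) with hv
  refine ⟨fun z => inner ℂ v (g z), fun J hJ => ?_⟩
  have h1 := h J hJ v
  have h2 : ‖v‖ ^ 2 = M (fun b => ‖ψ b‖ ^ 2) := by
    rw [hv, UniformSpace.Completion.norm_coe, bs_norm_sq]
    congr 1
    ext b
    simp
  have h3 : ∀ j, inner ℂ v (((hsShift ^ m) ^ j) ((BS.mk f hf : BS) : HS))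
      = M (fun b => ψ b * f (b + m * j)) := by
    intro j
    rw [← pow_mul, hsShift_pow_coe, hv, UniformSpace.Completion.inner_coe, bs_inner]
    congr 1
    ext b
    simp
  rw [h2] at h1
  simp only [h3] at h1
  exact h1

end

end OffDiag
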