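import Pool.Agent.OffDiag.Corr

/-!
# Almost periodicity of `b ↦ M_{b'} ψ(b') F(m b + l b')`
-/

set_option linter.unusedSectionVars false

namespace OffDiag

open Filter Topology Finset ComplexConjugate
open scoped Classical

noncomputable section

theorem sum_pow_indicator {l : ℕ} (hl : 0 < l) {ζ : ℂ} (hζ : IsPrimitiveRoot ζ l) {r b : ℕ}
    (hr : r < l) :
    ∑ k ∈ range l, (ζ ^ k) ^ b * conj ((ζ ^ k) ^ r) = if b % l = r then (l : ℂ) else 0 := by
  have h1 : ∀ k, (ζ ^ k) ^ b = (ζ ^ k) ^ (b % l) := by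
    intro k
    conv_lhs => rw [← Nat.mod_add_div b l, pow_add, pow_mul]
    have : (ζ ^ k) ^ l = 1 := by rw [← pow_mul, mul_comm, pow_mul, hζ.pow_eq_one, one_pow]
    rw [this, one_pow, mul_one]
  simp only [h1]
  exact sum_root_orth hl hζ (Nat.mod_lt b hl) hr

/-- Class supported characters are trigonometric polynomials. -/
theorem class_mem_TP {l : ℕ} (hl : 0 < l) {r : ℕ} (hr : r < l) {z : ℂ} (hz : ‖z‖ = 1) :
    (fun b : ℕ => if b % l = r then z ^ (b / l) else 0) ∈ TP := by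
  have hl' : (l : ℂ) ≠ 0 := by exact_mod_cast hl.ne'
  obtain ⟨w, hw⟩ : ∃ w : ℂ, w ^ l = z := IsAlgClosed.exists_pow_nat_eq z hl
  have hwn : ‖w‖ = 1 := by
    have : ‖w‖ ^ l = 1 := by rw [← norm_pow, hw, hz]
    exact (pow_eq_one_iff_of_nonneg (norm_nonneg _) hl.ne').mp this
  have hww : w * conj w = 1 := by
    rw [Complex.mul_conj, Complex.normSq_eq_norm_sq, hwn]; simp
  set ζ : ℂ := Complex.exp (2 * Real.pi * Complex.I / l) with hζdef
  have hζ : IsPrimitiveRoot ζ l := Complex.isPrimitiveRoot_exp l hl.ne'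
  have hζn : ‖ζ‖ = 1 := hζ.norm'_eq_one hl.ne'
  have key : (fun b : ℕ => if b % l = r then z ^ (b / l) else 0)
      = ∑ k ∈ range l, ((l : ℂ)⁻¹ * (conj ((ζ ^ k) ^ r) * conj (w ^ r))) •
        (fun b : ℕ => (ζ ^ k * w) ^ b) := by
    funext b
    have h1 := sum_pow_indicator hl hζ (b := b) hr
    have h2 : (∑ k ∈ range l, ((l : ℂ)⁻¹ * (conj ((ζ ^ k) ^ r) * conj (w ^ r))) •
        (fun b : ℕ => (ζ ^ k * w) ^ b)) b
        = (l : ℂ)⁻¹ * (w ^ b * conj (w ^ r)) *
          ∑ k ∈ range l, (ζ ^ k) ^ b * conj ((ζ ^ k) ^ r) := by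
      rw [Finset.sum_apply, Finset.mul_sum]
      refine Finset.sum_congr rfl fun k _ => ?_
      simp only [Pi.smul_apply, smul_eq_mul, mul_pow]
      ring
    rw [h2, h1]
    split_ifs with hb
    · have h3 : w ^ b * conj (w ^ r) = z ^ (b / l) := by
        have h4 : b = l * (b / l) + r := by rw [← hb]; exact (Nat.div_add_mod b l).symm
        conv_lhs => rw [h4, pow_add, pow_mul, hw, map_pow]
        rw [mul_assoc, ← mul_pow, hww, one_pow, mul_one]
      rw [h3]
      field_simp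
    · simp
  rw [key]
  refine TP.sum_mem fun k _ => TP.smul_mem _ (pow_mem_TP ?_)
  rw [norm_mul, norm_pow, hζn, one_pow, hwn, one_mul]

theorem sum_range_mul_eq (g : ℕ → ℝ) (l J : ℕ) :
    ∑ b ∈ range (l * J), g b = ∑ r ∈ range l, ∑ j ∈ range J, g (r + l * j) := by
  induction J with
  | zero => simp
  | succ J ih =>
    rw [Nat.mul_succ, Finset.sum_range_add, ih]
    rw [← Finset.sum_add_distrib]
    refine Finset.sum_congr rfl fun r _ => ?_
    rw [Finset.sum_range_succ, add_comm (l * J) r]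

/-- Averages through residue classes. -/
theorem M_le_of_classes {g : ℕ → ℝ} (hg : Bdd g) (hg0 : ∀ n, 0 ≤ g n) {l : ℕ} (hl : 0 < l)
    {δ : ℝ} (hδ : 0 ≤ δ) {J₁ : ℕ}
    (h : ∀ r < l, ∀ J, J₁ ≤ J → ∑ j ∈ range J, g (r + l * j) ≤ δ * J) :
    M g ≤ 2 * δ := by
  refine M_le_of_eventually hg ?_
  filter_upwards [eventually_ge_atTop (l * (J₁ + 1))] with X hX
  have hX0 : 0 < X := lt_of_lt_of_le (by positivity) hX
  have hX0' : (0 : ℝ) < X := by exact_mod_cast hX0
  set J := X / l + 1 with hJ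
  have h1 : X ≤ l * J := by
    have := Nat.div_add_mod X l
    have := Nat.mod_lt X hl
    rw [hJ]; nlinarith
  have h2 : J₁ ≤ J := by
    have : J₁ + 1 ≤ X / l := by
      rw [Nat.le_div_iff_mul_le hl]; rw [mul_comm]; exact hX
    omega
  have h3 : l * J ≤ 2 * X := by
    have h4 : l * (X / l) ≤ X := Nat.mul_div_le X l
    have h5 : l ≤ X := le_trans (by nlinarith) hX
    rw [hJ]; nlinarith
  unfold avg
  rw [smul_eq_mul, inv_mul_le_iff₀ hX0']
  calc ∑ b ∈ range X, g b ≤ ∑ b ∈ range (l * J), g b :=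
        Finset.sum_le_sum_of_subset_of_nonneg (range_subset_range.mpr h1) fun _ _ _ => hg0 _
    _ = ∑ r ∈ range l, ∑ j ∈ range J, g (r + l * j) := sum_range_mul_eq g l J
    _ ≤ ∑ _r ∈ range l, δ * J :=
        Finset.sum_le_sum fun r hr => h r (mem_range.mp hr) J h2
    _ = δ * (l * J : ℕ) := by rw [Finset.sum_const, card_range, nsmul_eq_mul]; push_cast; ring
    _ ≤ δ * (2 * X : ℕ) := mul_le_mul_of_nonneg_left (by exact_mod_cast h3) hδ
    _ = X * (2 * δ) := by push_cast; ring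

/-- **Fact A'**. -/
theorem factA {F ψ : ℕ → ℂ} (hF : Bdd F) (hψ : Bdd ψ) {l : ℕ} (hl : 0 < l) (m : ℕ) :
    BAP (fun b => M (fun b' => ψ b' * F (m * b + l * b'))) := by
  have hbd : Bdd (fun b => M (fun b' => ψ b' * F (m * b + l * b'))) := by
    obtain ⟨C, hC0, hC⟩ := hψ.exists_nonneg
    obtain ⟨D, hD⟩ := hF
    refine ⟨C * D, fun b => norm_M_le fun b' => ?_⟩
    rw [norm_mul]
    exact mul_le_mul (hC _) (hD _) (norm_nonneg _) hC0
  refine ⟨hbd, fun ε hε => ?_⟩
  set K := M (fun b => ‖ψ b‖ ^ 2) with hK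
  have hK0 : 0 ≤ K := M_nonneg (hψ.norm.pow 2) fun _ => by positivity
  set ε' := ε / (2 * (K + 1)) with hε'
  have hε'0 : 0 < ε' := by positivity
  have hfr : ∀ r : ℕ, Bdd (fun b' => F (m * r + l * b')) := fun r => hF.comp _
  choose Z hZ J₁ hZJ using fun r : ℕ => factA_step (hfr r) m hε'0
  choose G hG using fun r : ℕ => hZJ r ψ hψ
  set P : ℕ → ℂ := fun b => ∑ r ∈ range l, ∑ z ∈ Z r,
    G r z * (if b % l = r then z ^ (b / l) else 0) with hPdef
  have hP : P ∈ TP := by
    have : P = ∑ r ∈ range l, ∑ z ∈ Z r,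
        G r z • (fun b : ℕ => if b % l = r then z ^ (b / l) else 0) := by
      funext b
      simp [hPdef, Finset.sum_apply]
    rw [this]
    refine TP.sum_mem fun r hr => TP.sum_mem fun z hz => TP.smul_mem _ ?_
    exact class_mem_TP hl (mem_range.mp hr) (hZ r z hz)
  refine ⟨P, hP, ?_⟩
  have hval : ∀ r < l, ∀ j, P (r + l * j) = ∑ z ∈ Z r, z ^ j * G r z := by
    intro r hr j
    have h1 : (r + l * j) % l = r := by
      rw [Nat.add_mul_mod_self_left, Nat.mod_eq_of_lt hr]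
    have h2 : (r + l * j) / l = j := by
      rw [Nat.add_mul_div_left _ _ hl, Nat.div_eq_of_lt hr, zero_add]
    simp only [hPdef, h1, h2]
    rw [Finset.sum_eq_single r]
    · refine Finset.sum_congr rfl fun z _ => ?_
      simp [mul_comm]
    · intro s hs hsr
      refine Finset.sum_eq_zero fun z _ => ?_
      rw [if_neg (Ne.symm hsr), mul_zero]
    · intro h
      exact absurd (mem_range.mpr hr) h
  have hfin : M (fun n => ‖M (fun b' => ψ b' * F (m * n + l * b')) - P n‖ ^ 2)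
      ≤ 2 * (ε' * K) := by
    refine M_le_of_classes ((hbd.sub (bdd_TP hP)).norm.pow 2) (fun _ => by positivity) hl
      (by positivity) (J₁ := (range l).sup J₁) fun r hr J hJ => ?_
    have hJr : J₁ r ≤ J := (Finset.le_sup (mem_range.mpr hr)).trans hJ
    have h1 := hG r J hJr
    refine le_trans (le_of_eq ?_) (h1.trans (le_of_eq (by ring)))
    refine Finset.sum_congr rfl fun j _ => ?_
    rw [hval r hr j]
    congr 4
    funext b'
    congr 2
    ring
  refine hfin.trans ?_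
  rw [hε']
  have : 2 * (ε / (2 * (K + 1)) * K) = ε * (K / (K + 1)) := by field_simp
  rw [this]
  have h2 : K / (K + 1) ≤ 1 := by rw [div_le_one (by positivity)]; linarith
  nlinarith

end

end OffDiag
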