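import Pool.Agent.OffDiag.Kernel

/-!
# Almost invariant finite subsets of the circle
-/

set_option linter.unusedSectionVars false

namespace OffDiag

open Filter Topology Finset ComplexConjugate
open scoped Classical

noncomputable section

/-- Products of powers of elements of `S` with exponents at most `n`. -/
def box (S : Finset Circle) (n : ℕ) : Finset Circle :=
  (Fintype.piFinset (fun _ : S => range (n + 1))).image (fun e => ∏ s : S, (s : Circle) ^ e s)

theorem box_mono (S : Finset Circle) (n : ℕ) : box S n ⊆ box S (n + 1) := by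
  unfold box
  refine Finset.image_subset_image ?_
  intro e he
  simp only [Fintype.mem_piFinset, mem_range] at he ⊢
  intro s
  have := he s
  omega

theorem mul_mem_box {S : Finset Circle} {s g : Circle} {n : ℕ} (hs : s ∈ S) (hg : g ∈ box S n) :
    s * g ∈ box S (n + 1) := by
  unfold box at hg ⊢
  rw [mem_image] at hg ⊢
  obtain ⟨e, he, rfl⟩ := hg
  refine ⟨fun t => if t = ⟨s, hs⟩ then e t + 1 else e t, ?_, ?_⟩
  · simp only [Fintype.mem_piFinset, mem_range] at he ⊢
    intro t
    have := he t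
    split_ifs <;> omega
  · have h1 : ∀ t : S, (t : Circle) ^ (if t = ⟨s, hs⟩ then e t + 1 else e t)
        = (if t = ⟨s, hs⟩ then s else 1) * (t : Circle) ^ e t := by
      intro t
      split_ifs with h
      · subst h
        rw [pow_succ, mul_comm]
      · rw [one_mul]
    rw [Finset.prod_congr rfl fun t _ => h1 t, Finset.prod_mul_distrib,
      Finset.prod_ite_eq' univ (⟨s, hs⟩ : S) (fun _ => s)]
    simp

theorem one_mem_box (S : Finset Circle) (n : ℕ) : 1 ∈ box S n := by
  unfold box
  rw [mem_image]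
  exact ⟨fun _ => 0, by simp, by simp⟩

theorem card_box_le (S : Finset Circle) (n : ℕ) : (box S n).card ≤ (n + 1) ^ S.card := by
  unfold box
  refine Finset.card_image_le.trans ?_
  rw [Fintype.card_piFinset]
  simp

theorem exists_box (S : Finset Circle) {τ : ℝ} (hτ : 0 < τ) :
    ∃ n : ℕ, ((box S (n + 1)).card : ℝ) ≤ (1 + τ) * (box S n).card := by
  by_contra hcon
  push Not at hcon
  have h1 : ∀ n : ℕ, (1 + τ) ^ n ≤ ((box S n).card : ℝ) := by
    intro n
    induction n with
    | zero =>
      have : 0 < (box S 0).card := Finset.card_pos.mpr ⟨1, one_mem_box S 0⟩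
      rw [pow_zero]
      exact_mod_cast this
    | succ n ih =>
      rw [pow_succ, mul_comm]
      exact (mul_le_mul_of_nonneg_left ih (by positivity)).trans (hcon n).le
  set r : ℝ := (1 + τ)⁻¹ with hr
  have hr0 : 0 < r := by positivity
  have hr1 : |r| < 1 := by
    rw [abs_of_pos hr0, hr]
    exact inv_lt_one_of_one_lt₀ (by linarith)
  have h2 := tendsto_pow_const_mul_const_pow_of_abs_lt_one S.card hr1
  have h3 := (tendsto_add_atTop_iff_nat 1).mpr h2
  have h4 : ∀ᶠ n : ℕ in atTop, (((n + 1 : ℕ) : ℝ) ^ S.card * r ^ (n + 1)) < r :=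
    h3.eventually (gt_mem_nhds hr0)
  obtain ⟨n, hn⟩ := h4.exists
  have h5 : (1 + τ) ^ n ≤ ((n + 1 : ℕ) : ℝ) ^ S.card := by
    refine (h1 n).trans ?_
    exact_mod_cast card_box_le S n
  have h6 : r ^ (n + 1) = r * ((1 + τ) ^ n)⁻¹ := by
    rw [pow_succ, mul_comm, hr, inv_pow]
  have h7 : r ≤ ((n + 1 : ℕ) : ℝ) ^ S.card * r ^ (n + 1) := by
    rw [h6]
    have h8 : 0 < (1 + τ) ^ n := by positivity
    calc r = ((1 + τ) ^ n) * (r * ((1 + τ) ^ n)⁻¹) := by field_simp
      _ ≤ _ := mul_le_mul_of_nonneg_right h5 (by positivity)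
  linarith

theorem exists_folner (S : Finset Circle) {τ : ℝ} (hτ : 0 < τ) :
    ∃ G : Finset Circle, G.Nonempty ∧ ∀ z ∈ S, 1 - τ ≤ om G z := by
  obtain ⟨n, hn⟩ := exists_box S hτ
  set G := box S n with hG
  set G' := box S (n + 1) with hG'
  have hne : G.Nonempty := ⟨1, one_mem_box S n⟩
  refine ⟨G, hne, fun z hz => ?_⟩
  have hc : (0 : ℝ) < G.card := by exact_mod_cast hne.card_pos
  unfold om
  rw [le_inv_mul_iff₀ hc]
  have h1 : (G.filter fun h => z * h ∈ G).card
      ≤ ((G ×ˢ G).filter fun p => p.1 * p.2⁻¹ = z).card := by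
    refine Finset.card_le_card_of_injOn (fun h => (z * h, h)) ?_ ?_
    · intro h hh
      simp only [coe_filter, Set.mem_setOf_eq, mem_product] at hh ⊢
      refine ⟨⟨hh.2, hh.1⟩, by group⟩
    · intro a _ b _ hab
      exact (Prod.ext_iff.mp hab).2
  have h2 : (G.filter fun h => z * h ∈ G).card + (G.filter fun h => ¬ z * h ∈ G).card = G.card :=
    Finset.card_filter_add_card_filter_not _
  have h3 : (G.filter fun h => ¬ z * h ∈ G).card ≤ (G' \ G).card := by
    refine Finset.card_le_card_of_injOn (fun h => z * h) ?_ ?_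
    · intro h hh
      simp only [coe_filter, Set.mem_setOf_eq] at hh
      exact mem_sdiff.mpr ⟨mul_mem_box hz hh.1, hh.2⟩
    · intro a _ b _ hab
      exact mul_left_cancel hab
  have h4 : (G' \ G).card = G'.card - G.card := Finset.card_sdiff_of_subset (box_mono S n)
  have h5 : G.card ≤ G'.card := Finset.card_le_card (box_mono S n)
  have h3' : ((G.filter fun h => ¬ z * h ∈ G).card : ℝ) ≤ (G'.card : ℝ) - G.card := by
    rw [← Nat.cast_sub h5]
    exact_mod_cast h3.trans h4.le
  have h2' : ((G.filter fun h => z * h ∈ G).card : ℝ)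
      + ((G.filter fun h => ¬ z * h ∈ G).card : ℝ) = G.card := by exact_mod_cast h2
  have h1' : ((G.filter fun h => z * h ∈ G).card : ℝ)
      ≤ (((G ×ˢ G).filter fun p => p.1 * p.2⁻¹ = z).card : ℝ) := by exact_mod_cast h1
  nlinarith

end

end OffDiag
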