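import Pool.Agent.OffDiag.Mean

/-!
# The selection lemma
-/

set_option linter.unusedSectionVars false

namespace OffDiag

open Filter Topology Finset
open scoped Classical

noncomputable section

variable (good : ℕ → ℕ → Prop)

/-- `b'` has a good partner of the same `k`-type in the window `[k, K]`. -/
def ZP (k K b' : ℕ) : Prop :=
  ∃ b, k ≤ b ∧ b ≤ K ∧ (∀ a, a ≤ k → (good a b ↔ good a b')) ∧ good b b'

/-- Indicator of `ZP`. -/
def zK (k K b' : ℕ) : ℝ := if ZP good k K b' then 1 else 0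

theorem zK_nonneg (k K b' : ℕ) : 0 ≤ zK good k K b' := by
  unfold zK; split_ifs <;> norm_num

theorem zK_le_one (k K b' : ℕ) : zK good k K b' ≤ 1 := by
  unfold zK; split_ifs <;> norm_num

theorem bdd_zK (k K : ℕ) : Bdd (zK good k K) :=
  ⟨1, fun n => by
    rw [Real.norm_eq_abs, abs_of_nonneg (zK_nonneg good k K n)]; exact zK_le_one good k K n⟩

theorem ZP_mono {k k' K K' b' : ℕ} (hk : k' ≤ k) (hK : K ≤ K') (h : ZP good k K b') :
    ZP good k' K' b' := by
  obtain ⟨b, h1, h2, h3, h4⟩ := h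
  exact ⟨b, hk.trans h1, h2.trans hK, fun a ha => h3 a (ha.trans hk), h4⟩

/-- The selection lemma. -/
theorem select {c : ℝ} (hc : 0 < c) (h : ∀ k, ∃ K, c ≤ M (zK good k K)) :
    ∃ u : ℕ → ℕ, StrictMono u ∧ ∀ i j, i < j → good (u i) (u j) := by
  have hab : ∀ k, BddAbove (Set.range fun K => M (zK good k K)) := fun k =>
    ⟨1, by rintro _ ⟨K, rfl⟩; exact M_le_const (bdd_zK good k K) (zK_le_one good k K)⟩
  set m : ℕ → ℝ := fun k => ⨆ K, M (zK good k K) with hm
  have hmc : ∀ k, c ≤ m k := fun k => by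
    obtain ⟨K, hK⟩ := h k
    exact hK.trans (le_ciSup (hab k) K)
  have hch : ∀ k, ∃ K, m k - c / 2 ^ (k + 2) ≤ M (zK good k K) := by
    intro k
    have h1 : m k - c / 2 ^ (k + 2) < ⨆ K, M (zK good k K) := by
      have : 0 < c / 2 ^ (k + 2) := by positivity
      change m k - c / 2 ^ (k + 2) < m k
      linarith
    obtain ⟨K, hK⟩ := exists_lt_of_lt_ciSup h1
    exact ⟨K, hK.le⟩
  choose Kf hKf using hch
  -- exceptional sets are small
  have hexc : ∀ j n, j ≤ n →
      M (fun b' => if ZP good n (Kf n) b' ∧ ¬ ZP good j (Kf j) b' then (1 : ℝ) else 0)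
        ≤ c / 2 ^ (j + 2) := by
    intro j n hjn
    have be : Bdd (fun b' => if ZP good n (Kf n) b' ∧ ¬ ZP good j (Kf j) b'
        then (1 : ℝ) else 0) := ⟨1, fun b' => by dsimp only; split_ifs <;> simp⟩
    have h1 : M (fun b' => (if ZP good n (Kf n) b' ∧ ¬ ZP good j (Kf j) b' then (1 : ℝ) else 0)
        + zK good j (Kf j) b') ≤ M (zK good j (max (Kf j) (Kf n))) := by
      refine M_mono (be.add (bdd_zK good j _)) (bdd_zK good j _) fun b' => ?_
      unfold zK
      by_cases h2 : ZP good j (Kf j) b'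
      · have h3 : ZP good j (max (Kf j) (Kf n)) b' := ZP_mono good le_rfl (le_max_left _ _) h2
        simp [h2, h3]
      · by_cases h4 : ZP good n (Kf n) b'
        · have h3 : ZP good j (max (Kf j) (Kf n)) b' := ZP_mono good hjn (le_max_right _ _) h4
          simp [h2, h3, h4]
        · simp only [h4, h2, false_and, if_false, add_zero]
          split_ifs <;> norm_num
    rw [M_add be (bdd_zK good j _)] at h1
    have h2 : M (zK good j (max (Kf j) (Kf n))) ≤ m j := le_ciSup (hab j) _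
    have h3 := hKf j
    linarith
  have hgeo : ∀ n, ∑ j ∈ range n, c / 2 ^ (j + 2) = c / 2 - c / 2 ^ (n + 1) := by
    intro n
    induction n with
    | zero => simp
    | succ n ih =>
      rw [Finset.sum_range_succ, ih]
      field_simp
      ring
  -- finite intersections are nonempty
  have hne : ∀ n, ∃ x, ∀ j ≤ n, ZP good j (Kf j) x := by
    intro n
    by_contra hcon
    push Not at hcon
    have be : ∀ j, Bdd (fun b' => if ZP good n (Kf n) b' ∧ ¬ ZP good j (Kf j) b'
        then (1 : ℝ) else 0) := fun j => ⟨1, fun b' => by dsimp only; split_ifs <;> simp⟩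
    have h1 : M (zK good n (Kf n)) ≤ ∑ j ∈ range n,
        M (fun b' => if ZP good n (Kf n) b' ∧ ¬ ZP good j (Kf j) b' then (1 : ℝ) else 0) := by
      rw [← M_sum fun j _ => be j]
      refine M_mono (bdd_zK good n _) (Bdd.sum fun j _ => be j) fun b' => ?_
      unfold zK
      split_ifs with h2
      · obtain ⟨j, hj, hjx⟩ := hcon b'
        have hjn : j < n := by
          rcases hj.lt_or_eq with h3 | h3
          · exact h3
          · subst h3; exact absurd h2 hjx
        have h3 : (if ZP good n (Kf n) b' ∧ ¬ ZP good j (Kf j) b' then (1 : ℝ) else 0) = 1 :=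
          if_pos ⟨h2, hjx⟩
        refine h3.symm.le.trans ?_
        exact Finset.single_le_sum (f := fun j =>
          if ZP good n (Kf n) b' ∧ ¬ ZP good j (Kf j) b' then (1 : ℝ) else 0)
          (fun i _ => by split_ifs <;> norm_num) (mem_range.mpr hjn)
      · exact Finset.sum_nonneg fun i _ => by split_ifs <;> norm_num
    have h2 : ∑ j ∈ range n,
        M (fun b' => if ZP good n (Kf n) b' ∧ ¬ ZP good j (Kf j) b' then (1 : ℝ) else 0)
        ≤ ∑ j ∈ range n, c / 2 ^ (j + 2) :=
      Finset.sum_le_sum fun j hj => hexc j n (mem_range.mp hj).le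
    rw [hgeo] at h2
    have h3 := hKf n
    have h4 := hmc n
    have h5 : c / 2 ^ (n + 2) ≤ c / 2 := by
      refine div_le_div_of_nonneg_left hc.le (by norm_num) ?_
      calc (2 : ℝ) = 2 ^ 1 := (pow_one _).symm
        _ ≤ 2 ^ (n + 2) := pow_le_pow_right₀ (by norm_num) (by omega)
    have h6 : 0 < c / 2 ^ (n + 1) := by positivity
    linarith
  choose x hx using hne
  -- the type of the limit point
  set p : Ultrafilter ℕ := hyperfilter ℕ with hp
  set P : ℕ → Prop := fun a => ∀ᶠ n in (p : Filter ℕ), good a (x n) with hP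
  have htype : ∀ a, ∀ᶠ n in (p : Filter ℕ), (good a (x n) ↔ P a) := by
    intro a
    by_cases ha : P a
    · filter_upwards [ha] with n hn
      exact ⟨fun _ => ha, fun _ => hn⟩
    · have : ∀ᶠ n in (p : Filter ℕ), ¬ good a (x n) := Ultrafilter.eventually_not.mpr ha
      filter_upwards [this] with n hn
      exact ⟨fun h => absurd h hn, fun h => absurd h ha⟩
  have hsel : ∀ k, ∃ b, k ≤ b ∧ (∀ a ≤ k, (good a b ↔ P a)) ∧ P b := by
    intro k
    have h1 : ∀ᶠ n in (p : Filter ℕ), ZP good k (Kf k) (x n) := by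
      refine hyper_le ?_
      filter_upwards [eventually_ge_atTop k] with n hn
      exact hx n k hn
    have h2 : ∀ᶠ n in (p : Filter ℕ), ∀ a ∈ Set.Iic k, (good a (x n) ↔ P a) := by
      rw [Filter.eventually_all_finite (Set.finite_Iic k)]
      exact fun a _ => htype a
    have h3 : ∀ᶠ n in (p : Filter ℕ), ∃ b ∈ Set.Iic (Kf k), k ≤ b ∧
        (∀ a ≤ k, (good a b ↔ P a)) ∧ good b (x n) := by
      filter_upwards [h1, h2] with n hn1 hn2
      obtain ⟨b, hb1, hb2, hb3, hb4⟩ := hn1
      exact ⟨b, hb2, hb1, fun a ha => (hb3 a ha).trans (hn2 a ha), hb4⟩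
    obtain ⟨b, -, hb⟩ : ∃ b ∈ Set.Iic (Kf k), ∀ᶠ n in (p : Filter ℕ), k ≤ b ∧
        (∀ a ≤ k, (good a b ↔ P a)) ∧ good b (x n) := by
      by_contra hcon
      have h4 : ∀ᶠ n in (p : Filter ℕ), ∀ b ∈ Set.Iic (Kf k), ¬ (k ≤ b ∧
          (∀ a ≤ k, (good a b ↔ P a)) ∧ good b (x n)) := by
        rw [Filter.eventually_all_finite (Set.finite_Iic (Kf k))]
        intro b hb
        exact Ultrafilter.eventually_not.mpr fun h5 => hcon ⟨b, hb, h5⟩
      obtain ⟨n, hn3, hn4⟩ := (h3.and h4).exists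
      obtain ⟨b, hb, hb'⟩ := hn3
      exact hn4 b hb hb'
    obtain ⟨n, hn⟩ := hb.exists
    exact ⟨b, hn.1, hn.2.1, hb.mono fun n hn => hn.2.2⟩
  choose β hβ1 hβ2 hβ3 using hsel
  set u : ℕ → ℕ := fun i => Nat.rec (β 0) (fun _ v => β (v + 1)) i with hu
  have hu0 : u 0 = β 0 := rfl
  have hus : ∀ i, u (i + 1) = β (u i + 1) := fun i => rfl
  have hmono : StrictMono u := by
    refine strictMono_nat_of_lt_succ fun i => ?_
    rw [hus]
    have := hβ1 (u i + 1)
    omega
  refine ⟨u, hmono, fun i j hij => ?_⟩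
  have hPi : P (u i) := by
    rcases i with _ | i
    · rw [hu0]; exact hβ3 0
    · rw [hus]; exact hβ3 _
  obtain ⟨j', rfl⟩ : ∃ j', j = j' + 1 := ⟨j - 1, by omega⟩
  rw [hus]
  refine (hβ2 (u j' + 1) (u i) ?_).mpr hPi
  have : u i ≤ u j' := hmono.monotone (by omega)
  omega

end

end OffDiag
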