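import Pool.Agent.OffDiag.Core2
import Pool.Agent.OffDiag.Select

/-!
# The correlations of characters with `F (m b + l b' + t)`
-/

set_option linter.unusedSectionVars false

namespace OffDiag

open Filter Topology Finset ComplexConjugate
open scoped Classical

noncomputable section

/-- The twisted double mean. -/
def jz (F : ℕ → ℝ) (m l : ℕ) (z : Circle) (t : ℕ) : ℂ :=
  MM (fun b b' => chr z b * (chr z⁻¹ b' * (F (m * b + l * b' + t) : ℂ)))

theorem MM_shift_fst {K : ℕ → ℕ → ℂ} (hK : Bdd2 K) : MM (fun b b' => K (b + 1) b') = MM K := by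
  unfold MM
  have h := M_shift_one (f := fun b => M (fun b' => K b b')) hK.outer
  exact h

theorem MM_shift_snd {K : ℕ → ℕ → ℂ} (hK : Bdd2 K) : MM (fun b b' => K b (b' + 1)) = MM K := by
  unfold MM
  congr 1
  funext b
  exact M_shift_one (hK.inner b)

variable {F : ℕ → ℝ} (hF : Bdd F) (m l : ℕ) (z : Circle) (t : ℕ)

include hF

theorem bdd2_F : Bdd2 (fun b b' => F (m * b + l * b' + t)) :=
  Bdd2.comp hF (fun b b' => m * b + l * b' + t)

theorem bdd2_jz :
    Bdd2 (fun b b' => chr z b * (chr z⁻¹ b' * (F (m * b + l * b' + t) : ℂ))) :=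
  (bdd_chr z).fst.mul ((bdd_chr z⁻¹).snd.mul (bdd2_F hF m l t).ofReal)

theorem jz_eq_mul_add_m : jz F m l z t = z * jz F m l z (t + m) := by
  unfold jz
  rw [← MM_shift_fst (bdd2_jz hF m l z t), ← MM_const_mul (bdd2_jz hF m l z (t + m))]
  congr 1
  funext b b'
  have h1 : m * (b + 1) + l * b' + t = m * b + l * b' + (t + m) := by ring
  rw [h1, chr_add]
  have h2 : chr z 1 = (z : ℂ) := by simp [chr]
  rw [h2]
  ring

theorem mul_jz_eq_add_l : z * jz F m l z t = jz F m l z (t + l) := by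
  unfold jz
  rw [← MM_shift_snd (bdd2_jz hF m l z t), ← MM_const_mul]
  · congr 1
    funext b b'
    have h1 : m * b + l * (b' + 1) + t = m * b + l * b' + (t + l) := by ring
    rw [h1, chr_add]
    have h2 : (z : ℂ) * chr z⁻¹ 1 = 1 := by
      have := chr_mul_inv z 1
      simpa [chr] using this
    calc (z : ℂ) * (chr z b * (chr z⁻¹ b' * chr z⁻¹ 1 * (F (m * b + l * b' + (t + l)) : ℂ)))
        = ((z : ℂ) * chr z⁻¹ 1) *
          (chr z b * (chr z⁻¹ b' * (F (m * b + l * b' + (t + l)) : ℂ))) := by ring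
      _ = _ := by rw [h2, one_mul]
  · obtain ⟨C, hC⟩ := bdd2_jz hF m l z t
    exact ⟨C, fun b b' => hC b (b' + 1)⟩

theorem jz_mul_m (k : ℕ) : jz F m l z t = (z : ℂ) ^ k * jz F m l z (t + k * m) := by
  induction k with
  | zero => simp
  | succ k ih =>
    rw [ih, jz_eq_mul_add_m hF m l z (t + k * m), pow_succ]
    have : t + (k + 1) * m = t + k * m + m := by ring
    rw [this]
    ring

theorem jz_mul_l (k : ℕ) : (z : ℂ) ^ k * jz F m l z t = jz F m l z (t + k * l) := by
  induction k with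
  | zero => simp
  | succ k ih =>
    have : t + (k + 1) * l = t + k * l + l := by ring
    rw [this, ← mul_jz_eq_add_l hF m l z (t + k * l), ← ih, pow_succ]
    ring

theorem jz_eq_zero (hz : (z : ℂ) ^ (l + m) ≠ 1) : jz F m l z t = 0 := by
  have h1 := jz_mul_m hF m l z t l
  have h2 := jz_mul_l hF m l z t m
  rw [mul_comm m l] at h2
  rw [← h2, ← mul_assoc, ← pow_add] at h1
  have h3 : ((z : ℂ) ^ (l + m) - 1) * jz F m l z t = 0 := by
    rw [sub_mul, one_mul, ← h1, sub_self]
  rcases mul_eq_zero.mp h3 with h4 | h4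
  · exact absurd (sub_eq_zero.mp h4) hz
  · exact h4

theorem MM_ker_F (G : Finset Circle) :
    ((MM (fun b b' => ker G b b' * F (m * b + l * b' + t)) : ℝ) : ℂ)
      = av G (fun z => jz F m l z t) := by
  rw [← MM_ofReal ((bdd2_ker G).mul (bdd2_F hF m l t))]
  have h1 : (fun b b' => ((ker G b b' * F (m * b + l * b' + t) : ℝ) : ℂ))
      = fun b b' => av G (fun z => chr z b * (chr z⁻¹ b' * (F (m * b + l * b' + t) : ℂ))) := by
    funext b b'
    push_cast
    rw [ker_eq, av_mul]
    refine av_congr G fun z => ?_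
    ring
  rw [h1, MM_av fun z => bdd2_jz hF m l z t]
  rfl

omit hF in
/-- The untwisted double mean. -/
def j1 (F : ℕ → ℝ) (m l t : ℕ) : ℝ := MM (fun b b' => F (m * b + l * b' + t))

theorem jz_one : jz F m l 1 t = (j1 F m l t : ℂ) := by
  unfold jz j1
  rw [← MM_ofReal (bdd2_F hF m l t)]
  congr 1
  funext b b'
  rw [inv_one, chr_one, chr_one, one_mul, one_mul]

theorem norm_jz_le (hF0 : ∀ n, 0 ≤ F n) : ‖jz F m l z t‖ ≤ j1 F m l t := by
  refine (norm_MM_le_MM_norm (bdd2_jz hF m l z t)).trans (le_of_eq ?_)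
  unfold j1
  congr 1
  funext b b'
  rw [norm_mul, norm_mul, norm_chr, norm_chr, one_mul, one_mul, Complex.norm_real,
    Real.norm_eq_abs, abs_of_nonneg (hF0 _)]

theorem j1_add_m : j1 F m l (t + m) = j1 F m l t := by
  have h := jz_eq_mul_add_m hF m l 1 t
  rw [jz_one hF, jz_one hF] at h
  have h2 : ((j1 F m l t : ℝ) : ℂ) = ((j1 F m l (t + m) : ℝ) : ℂ) := by simpa using h
  exact_mod_cast h2.symm

theorem j1_add_l : j1 F m l (t + l) = j1 F m l t := by
  have h := mul_jz_eq_add_l hF m l 1 t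
  rw [jz_one hF, jz_one hF] at h
  have h2 : ((j1 F m l t : ℝ) : ℂ) = ((j1 F m l (t + l) : ℝ) : ℂ) := by simpa using h
  exact_mod_cast h2.symm

/-- One block of length `l`. -/
theorem M_block_le (hF0 : ∀ n, 0 ≤ F n) {D : ℝ} (hD : 0 ≤ D)
    (hFD : ∀ᶠ X : ℕ in atTop, ∑ n ∈ range X, F n ≤ D * X) (hl : 0 < l) (s : ℕ) :
    M (fun b' => ∑ r ∈ range l, F (l * b' + s + r)) ≤ l * D := by
  refine le_of_forall_pos_le_add fun δ hδ => ?_
  have hbd : Bdd (fun b' => ∑ r ∈ range l, F (l * b' + s + r)) := Bdd.sum fun r _ => hF.comp _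
  refine M_le_of_eventually hbd ?_
  obtain ⟨X₀, hX₀⟩ := eventually_atTop.mp hFD
  obtain ⟨X₁, hX₁⟩ := exists_nat_ge (D * s / δ)
  filter_upwards [eventually_ge_atTop (max X₀ (max X₁ 1))] with X hX
  have hXX₀ : X₀ ≤ X := (le_max_left _ _).trans hX
  have hXX₁ : X₁ ≤ X := ((le_max_left _ _).trans (le_max_right _ _)).trans hX
  have hX1 : 1 ≤ X := ((le_max_right _ _).trans (le_max_right _ _)).trans hX
  have hXpos : (0 : ℝ) < X := by exact_mod_cast hX1
  have hlX : X₀ ≤ s + l * X := by nlinarith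
  have h1 := hX₀ _ hlX
  rw [Finset.sum_range_add] at h1
  have h2 : 0 ≤ ∑ n ∈ range s, F n := Finset.sum_nonneg fun n _ => hF0 n
  have h3 : ∑ b' ∈ range X, ∑ r ∈ range l, F (l * b' + s + r)
      = ∑ n ∈ range (l * X), F (s + n) := by
    rw [sum_range_mul_eq (fun n => F (s + n)) l X, Finset.sum_comm]
    refine Finset.sum_congr rfl fun r _ => Finset.sum_congr rfl fun j _ => ?_
    congr 1
    ring
  unfold avg
  rw [smul_eq_mul, inv_mul_le_iff₀ hXpos, h3]
  have h4 : D * s ≤ δ * X := by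
    rw [div_le_iff₀ hδ] at hX₁
    have : (X₁ : ℝ) ≤ X := by exact_mod_cast hXX₁
    nlinarith
  push_cast at h1
  nlinarith

theorem sum_j1_block_le (hF0 : ∀ n, 0 ≤ F n) {D : ℝ} (hD : 0 ≤ D)
    (hFD : ∀ᶠ X : ℕ in atTop, ∑ n ∈ range X, F n ≤ D * X) (hl : 0 < l) (s : ℕ) :
    ∑ r ∈ range l, j1 F m l (s + r) ≤ l * D := by
  unfold j1
  rw [← MM_sum fun r _ => bdd2_F hF m l (s + r)]
  unfold MM
  have hb2 : Bdd2 (fun b b' => ∑ r ∈ range l, F (m * b + l * b' + (s + r))) :=
    Bdd2.sum fun r _ => bdd2_F hF m l (s + r)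
  refine M_le_const hb2.outer fun b => ?_
  have := M_block_le hF l hF0 hD hFD hl (m * b + s)
  refine le_trans (le_of_eq ?_) this
  congr 1
  funext b'
  refine Finset.sum_congr rfl fun r _ => ?_
  congr 1
  ring

theorem sum_j1_le (hF0 : ∀ n, 0 ≤ F n) {D : ℝ} (hD : 0 ≤ D)
    (hFD : ∀ᶠ X : ℕ in atTop, ∑ n ∈ range X, F n ≤ D * X) (hl : 0 < l) (s q : ℕ) :
    ∑ r ∈ range (l * q), j1 F m l (s + r) ≤ (l * q : ℕ) * D := by
  induction q with
  | zero => simp
  | succ q ih =>
    rw [Nat.mul_succ, Finset.sum_range_add]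
    have h1 := sum_j1_block_le hF m l hF0 hD hFD hl (s + l * q)
    have h2 : ∑ r ∈ range l, j1 F m l (s + (l * q + r))
        = ∑ r ∈ range l, j1 F m l (s + l * q + r) := by
      refine Finset.sum_congr rfl fun r _ => ?_
      rw [add_assoc]
    rw [h2]
    push_cast at ih ⊢
    linarith

/-- In the coprime case the double mean is at most the upper density. -/
theorem j1_zero_le (hF0 : ∀ n, 0 ≤ F n) {D : ℝ} (hD : 0 ≤ D)
    (hFD : ∀ᶠ X : ℕ in atTop, ∑ n ∈ range X, F n ≤ D * X) (hl : 0 < l)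
    (hlm : Nat.Coprime m l) : j1 F m l 0 ≤ D := by
  have hm_per : ∀ k, j1 F m l (0 + k * m) = j1 F m l 0 := by
    intro k
    induction k with
    | zero => simp
    | succ k ih =>
      have : 0 + (k + 1) * m = 0 + k * m + m := by ring
      rw [this, j1_add_m hF, ih]
  have hl_per : ∀ t k, j1 F m l (t + k * l) = j1 F m l t := by
    intro t k
    induction k with
    | zero => simp
    | succ k ih =>
      have : t + (k + 1) * l = t + k * l + l := by ring
      rw [this, j1_add_l hF, ih]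
  have hconst : ∀ r, j1 F m l r = j1 F m l 0 := by
    intro r
    obtain ⟨x, hx1, hx2⟩ := Nat.chineseRemainder hlm 0 r
    obtain ⟨k, hk⟩ : m ∣ x := (Nat.modEq_zero_iff_dvd).mp hx1
    have h1 : j1 F m l x = j1 F m l 0 := by
      rw [hk, mul_comm m k, ← zero_add (k * m)]
      exact hm_per k
    have h2 : ∀ y, j1 F m l y = j1 F m l (y % l) := by
      intro y
      conv_lhs => rw [← Nat.mod_add_div y l, mul_comm l (y / l)]
      exact hl_per _ _
    rw [h2 r, ← hx2, ← h2 x, h1]
  have h := sum_j1_block_le hF m l hF0 hD hFD hl 0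
  rw [Finset.sum_congr rfl fun r _ => hconst (0 + r), Finset.sum_const, card_range,
    nsmul_eq_mul] at h
  have hl' : (0 : ℝ) < l := by exact_mod_cast hl
  exact le_of_mul_le_mul_left h hl'

omit hF in
theorem sum_periodic {g : ℕ → ℂ} {T : ℕ} (hg : ∀ t, g (t + T) = g t) (a : ℕ) :
    ∑ t ∈ range T, g (t + a) = ∑ t ∈ range T, g t := by
  induction a with
  | zero => rfl
  | succ a ih =>
    rw [← ih]
    have h1 := Finset.sum_range_succ (fun t => g (t + a)) T
    have h2 := Finset.sum_range_succ' (fun t => g (t + a)) T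
    rw [h1] at h2
    have h3 : g (T + a) = g (0 + a) := by rw [zero_add, add_comm]; exact hg a
    rw [h3] at h2
    have h4 := add_right_cancel h2
    rw [h4]
    refine Finset.sum_congr rfl fun t _ => ?_
    congr 1
    ring

/-- Cancellation over a full set of shifts. -/
theorem sum_jz_eq_zero {q : ℕ} (hz : z ≠ 1) (a : ℕ) :
    ∑ t ∈ range (m * (l + m) * q), jz F m l z (t + a) = 0 := by
  by_cases h1 : (z : ℂ) ^ (l + m) = 1
  · have hz' : (z : ℂ) ≠ 1 := fun h => hz (Circle.ext (by simpa using h))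
    set T := m * (l + m) * q with hT
    have hper1 : ∀ t, jz F m l z t = jz F m l z (t + T) := by
      intro t
      have h2 := jz_mul_m hF m l z t ((l + m) * q)
      rw [pow_mul, h1, one_pow, one_mul] at h2
      rw [h2, hT]
      congr 1
      ring
    have hper : ∀ t, jz F m l z (t + a + T) = jz F m l z (t + a) := fun t => (hper1 _).symm
    have h3 : ∑ t ∈ range T, jz F m l z (t + m + a) = ∑ t ∈ range T, jz F m l z (t + a) := by
      have := sum_periodic (g := fun t => jz F m l z (t + a)) (T := T) (fun t => by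
        have := hper t
        rw [← this]
        congr 1
        ring) m
      exact this
    have h4 : ∑ t ∈ range T, jz F m l z (t + a) = z * ∑ t ∈ range T, jz F m l z (t + m + a) := by
      rw [Finset.mul_sum]
      refine Finset.sum_congr rfl fun t _ => ?_
      rw [jz_eq_mul_add_m hF m l z (t + a)]
      congr 2
      ring
    rw [h3] at h4
    have h5 : (1 - (z : ℂ)) * ∑ t ∈ range T, jz F m l z (t + a) = 0 := by
      rw [sub_mul, one_mul, ← h4, sub_self]
    rcases mul_eq_zero.mp h5 with h6 | h6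
    · exact absurd (sub_eq_zero.mp h6).symm hz'
    · exact h6
  · exact Finset.sum_eq_zero fun t _ => jz_eq_zero hF m l z _ h1

end

end OffDiag
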