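import Pool.Agent.OffDiag.FactA2

/-!
# Double means and the kernels attached to finite subsets of the circle
-/

set_option linter.unusedSectionVars false

namespace OffDiag

open Filter Topology Finset ComplexConjugate
open scoped Classical

noncomputable section

section MM

variable {E : Type*} [NormedAddCommGroup E]

/-- Boundedness in two variables. -/
def Bdd2 (K : ℕ → ℕ → E) : Prop := ∃ C : ℝ, ∀ b b', ‖K b b'‖ ≤ C

theorem Bdd2.inner {K : ℕ → ℕ → E} (h : Bdd2 K) (b : ℕ) : Bdd (fun b' => K b b') := by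
  obtain ⟨C, hC⟩ := h
  exact ⟨C, hC b⟩

theorem Bdd2.exists_nonneg {K : ℕ → ℕ → E} (h : Bdd2 K) :
    ∃ C : ℝ, 0 ≤ C ∧ ∀ b b', ‖K b b'‖ ≤ C := by
  obtain ⟨C, hC⟩ := h
  exact ⟨C, (norm_nonneg _).trans (hC 0 0), hC⟩

theorem Bdd2.add {K L : ℕ → ℕ → E} (hK : Bdd2 K) (hL : Bdd2 L) :
    Bdd2 (fun b b' => K b b' + L b b') := by
  obtain ⟨C, hC⟩ := hK
  obtain ⟨D, hD⟩ := hL
  exact ⟨C + D, fun b b' => (norm_add_le _ _).trans (add_le_add (hC b b') (hD b b'))⟩

theorem Bdd2.neg {K : ℕ → ℕ → E} (hK : Bdd2 K) : Bdd2 (fun b b' => - K b b') := by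
  obtain ⟨C, hC⟩ := hK
  exact ⟨C, fun b b' => by simpa using hC b b'⟩

theorem Bdd2.sub {K L : ℕ → ℕ → E} (hK : Bdd2 K) (hL : Bdd2 L) :
    Bdd2 (fun b b' => K b b' - L b b') := by
  simpa [sub_eq_add_neg] using hK.add hL.neg

theorem Bdd2.const (c : E) : Bdd2 (fun _ _ : ℕ => c) := ⟨‖c‖, fun _ _ => le_rfl⟩

theorem Bdd2.norm {K : ℕ → ℕ → E} (hK : Bdd2 K) : Bdd2 (fun b b' => ‖K b b'‖) := by
  obtain ⟨C, hC⟩ := hK
  exact ⟨C, fun b b' => by simpa using hC b b'⟩

theorem Bdd2.mul {A : Type*} [NormedRing A] {K L : ℕ → ℕ → A} (hK : Bdd2 K) (hL : Bdd2 L) :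
    Bdd2 (fun b b' => K b b' * L b b') := by
  obtain ⟨C, hC0, hC⟩ := hK.exists_nonneg
  obtain ⟨D, hD⟩ := hL
  exact ⟨C * D, fun b b' => (norm_mul_le _ _).trans
    (mul_le_mul (hC b b') (hD b b') (norm_nonneg _) hC0)⟩

theorem Bdd2.sum {ι : Type*} {s : Finset ι} {K : ι → ℕ → ℕ → E} (h : ∀ i ∈ s, Bdd2 (K i)) :
    Bdd2 (fun b b' => ∑ i ∈ s, K i b b') := by
  induction s using Finset.induction_on with
  | empty => simpa using Bdd2.const (0 : E)
  | insert a s ha ih =>
    simp only [Finset.sum_insert ha]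
    exact (h a (mem_insert_self _ _)).add (ih fun i hi => h i (mem_insert_of_mem hi))

theorem Bdd.fst {f : ℕ → E} (hf : Bdd f) : Bdd2 (fun b _ => f b) := by
  obtain ⟨C, hC⟩ := hf
  exact ⟨C, fun b _ => hC b⟩

theorem Bdd.snd {f : ℕ → E} (hf : Bdd f) : Bdd2 (fun _ b' => f b') := by
  obtain ⟨C, hC⟩ := hf
  exact ⟨C, fun _ b' => hC b'⟩

theorem Bdd2.ofReal {K : ℕ → ℕ → ℝ} (hK : Bdd2 K) : Bdd2 (fun b b' => (K b b' : ℂ)) := by
  obtain ⟨C, hC⟩ := hK
  exact ⟨C, fun b b' => by simpa using hC b b'⟩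

theorem Bdd2.comp {f : ℕ → E} (hf : Bdd f) (φ : ℕ → ℕ → ℕ) : Bdd2 (fun b b' => f (φ b b')) := by
  obtain ⟨C, hC⟩ := hf
  exact ⟨C, fun b b' => hC _⟩

variable [NormedSpace ℝ E] [ProperSpace E]

/-- The iterated mean. -/
def MM (K : ℕ → ℕ → E) : E := M (fun b => M (fun b' => K b b'))

theorem Bdd2.outer {K : ℕ → ℕ → E} (h : Bdd2 K) : Bdd (fun b => M (fun b' => K b b')) := by
  obtain ⟨C, hC⟩ := h
  exact ⟨C, fun b => norm_M_le (hC b)⟩

theorem norm_MM_le {K : ℕ → ℕ → E} {C : ℝ} (hC : ∀ b b', ‖K b b'‖ ≤ C) : ‖MM K‖ ≤ C :=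
  norm_M_le fun b => norm_M_le (hC b)

theorem MM_add {K L : ℕ → ℕ → E} (hK : Bdd2 K) (hL : Bdd2 L) :
    MM (fun b b' => K b b' + L b b') = MM K + MM L := by
  unfold MM
  rw [← M_add hK.outer hL.outer]
  congr 1
  funext b
  exact M_add (hK.inner b) (hL.inner b)

theorem MM_neg {K : ℕ → ℕ → E} (hK : Bdd2 K) : MM (fun b b' => - K b b') = - MM K := by
  unfold MM
  rw [← M_neg hK.outer]
  congr 1
  funext b
  exact M_neg (hK.inner b)

theorem MM_sub {K L : ℕ → ℕ → E} (hK : Bdd2 K) (hL : Bdd2 L) :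
    MM (fun b b' => K b b' - L b b') = MM K - MM L := by
  simp only [sub_eq_add_neg]
  rw [MM_add hK hL.neg, MM_neg hL]

theorem MM_sum {ι : Type*} {s : Finset ι} {K : ι → ℕ → ℕ → E} (h : ∀ i ∈ s, Bdd2 (K i)) :
    MM (fun b b' => ∑ i ∈ s, K i b b') = ∑ i ∈ s, MM (K i) := by
  unfold MM
  rw [← M_sum fun i hi => (h i hi).outer]
  congr 1
  funext b
  exact M_sum fun i hi => (h i hi).inner b

theorem MM_const (c : E) : MM (fun _ _ => c) = c := by
  unfold MM
  rw [M_const, M_const]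

theorem MM_mono {K L : ℕ → ℕ → ℝ} (hK : Bdd2 K) (hL : Bdd2 L) (h : ∀ b b', K b b' ≤ L b b') :
    MM K ≤ MM L :=
  M_mono hK.outer hL.outer fun b => M_mono (hK.inner b) (hL.inner b) (h b)

theorem MM_const_mul {K : ℕ → ℕ → ℂ} (hK : Bdd2 K) (c : ℂ) :
    MM (fun b b' => c * K b b') = c * MM K := by
  unfold MM
  rw [← M_const_mul hK.outer]
  congr 1
  funext b
  exact M_const_mul (hK.inner b) c

theorem MM_const_mul_real {K : ℕ → ℕ → ℝ} (hK : Bdd2 K) (c : ℝ) :
    MM (fun b b' => c * K b b') = c * MM K := by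
  unfold MM
  rw [← M_const_mul_real hK.outer]
  congr 1
  funext b
  exact M_const_mul_real (hK.inner b) c

theorem MM_ofReal {K : ℕ → ℕ → ℝ} (hK : Bdd2 K) :
    MM (fun b b' => (K b b' : ℂ)) = ((MM K : ℝ) : ℂ) := by
  unfold MM
  rw [← M_ofReal hK.outer]
  congr 1
  funext b
  exact M_ofReal (hK.inner b)

theorem norm_MM_le_MM_norm {K : ℕ → ℕ → E} (hK : Bdd2 K) :
    ‖MM K‖ ≤ MM (fun b b' => ‖K b b'‖) := by
  refine (norm_M_le_M_norm hK.outer).trans ?_
  exact M_mono hK.outer.norm hK.norm.outer fun b => norm_M_le_M_norm (hK.inner b)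

theorem MM_mul {f g : ℕ → ℂ} (hf : Bdd f) (hg : Bdd g) :
    MM (fun b b' => f b * g b') = M f * M g := by
  unfold MM
  rw [← M_mul_const hf]
  congr 1
  funext b
  exact M_const_mul hg _

end MM

/-- Average over pairs of elements of `G`. -/
def av (G : Finset Circle) (φ : Circle → ℂ) : ℂ :=
  (G.card : ℂ)⁻¹ * ∑ g ∈ G, ∑ h ∈ G, φ (g * h⁻¹)

/-- The kernel. -/
def ker (G : Finset Circle) (b b' : ℕ) : ℝ :=
  (G.card : ℝ)⁻¹ * ‖∑ g ∈ G, chr g b * chr g⁻¹ b'‖ ^ 2

/-- Normalized pair counting. -/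
def om (G : Finset Circle) (w : Circle) : ℝ :=
  (G.card : ℝ)⁻¹ * (((G ×ˢ G).filter fun p => p.1 * p.2⁻¹ = w).card : ℝ)

theorem ker_nonneg (G : Finset Circle) (b b' : ℕ) : 0 ≤ ker G b b' := by
  unfold ker; positivity

theorem ker_le (G : Finset Circle) (b b' : ℕ) : ker G b b' ≤ G.card := by
  unfold ker
  rcases G.eq_empty_or_nonempty with rfl | hG
  · simp
  have hc : (0 : ℝ) < G.card := by exact_mod_cast hG.card_pos
  rw [inv_mul_le_iff₀ hc]
  have h1 : ‖∑ g ∈ G, chr g b * chr g⁻¹ b'‖ ≤ G.card := by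
    refine (norm_sum_le _ _).trans ?_
    simp [norm_chr]
  calc ‖∑ g ∈ G, chr g b * chr g⁻¹ b'‖ ^ 2 ≤ (G.card : ℝ) ^ 2 :=
        pow_le_pow_left₀ (norm_nonneg _) h1 2
    _ = _ := sq _

theorem bdd2_ker (G : Finset Circle) : Bdd2 (ker G) :=
  ⟨G.card, fun b b' => by
    rw [Real.norm_eq_abs, abs_of_nonneg (ker_nonneg G b b')]; exact ker_le G b b'⟩

theorem ker_eq (G : Finset Circle) (b b' : ℕ) :
    (ker G b b' : ℂ) = av G (fun z => chr z b * chr z⁻¹ b') := by
  unfold ker av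
  push_cast
  congr 1
  have h0 : ((‖∑ g ∈ G, chr g b * chr g⁻¹ b'‖ : ℂ)) ^ 2
      = (∑ g ∈ G, chr g b * chr g⁻¹ b') * conj (∑ g ∈ G, chr g b * chr g⁻¹ b') := by
    rw [Complex.mul_conj, Complex.normSq_eq_norm_sq]; push_cast; rfl
  rw [h0, map_sum, Finset.sum_mul_sum]
  refine Finset.sum_congr rfl fun g _ => Finset.sum_congr rfl fun h _ => ?_
  rw [map_mul, ← chr_inv, ← chr_inv, inv_inv, mul_inv, inv_inv, chr_mul, chr_mul]
  ring

theorem av_congr (G : Finset Circle) {φ ψ : Circle → ℂ} (h : ∀ z, φ z = ψ z) :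
    av G φ = av G ψ := by
  rw [funext h]

theorem av_mul (G : Finset Circle) (φ : Circle → ℂ) (c : ℂ) :
    av G φ * c = av G (fun z => φ z * c) := by
  unfold av
  simp only [mul_assoc, Finset.sum_mul]

theorem mul_av (G : Finset Circle) (φ : Circle → ℂ) (c : ℂ) :
    c * av G φ = av G (fun z => c * φ z) := by
  unfold av
  simp only [Finset.mul_sum]
  refine Finset.sum_congr rfl fun g _ => Finset.sum_congr rfl fun h _ => ?_
  ring

theorem av_add (G : Finset Circle) (φ ψ : Circle → ℂ) :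
    av G (fun z => φ z + ψ z) = av G φ + av G ψ := by
  unfold av
  simp only [Finset.sum_add_distrib, mul_add]

theorem av_sub (G : Finset Circle) (φ ψ : Circle → ℂ) :
    av G (fun z => φ z - ψ z) = av G φ - av G ψ := by
  unfold av
  simp only [Finset.sum_sub_distrib, mul_sub]

theorem norm_av_le (G : Finset Circle) (φ : Circle → ℂ) :
    ‖av G φ‖ ≤ (G.card : ℝ)⁻¹ * ∑ g ∈ G, ∑ h ∈ G, ‖φ (g * h⁻¹)‖ := by
  unfold av
  rw [norm_mul, norm_inv, Complex.norm_natCast]
  refine mul_le_mul_of_nonneg_left ?_ (by positivity)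
  exact (norm_sum_le _ _).trans (Finset.sum_le_sum fun g _ => norm_sum_le _ _)

theorem Bdd.av {G : Finset Circle} {φ : Circle → ℕ → ℂ} (h : ∀ z, Bdd (φ z)) :
    Bdd (fun n => av G (fun z => φ z n)) := by
  unfold OffDiag.av
  exact (Bdd.const _).mul (Bdd.sum fun g _ => Bdd.sum fun k _ => h _)

theorem M_av {G : Finset Circle} {φ : Circle → ℕ → ℂ} (h : ∀ z, Bdd (φ z)) :
    M (fun n => av G (fun z => φ z n)) = av G (fun z => M (φ z)) := by
  unfold av
  rw [M_const_mul (Bdd.sum fun g _ => Bdd.sum fun k _ => h _)]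
  rw [M_sum fun g _ => Bdd.sum fun k _ => h _]
  congr 1
  refine Finset.sum_congr rfl fun g _ => ?_
  rw [M_sum fun k _ => h _]

theorem Bdd2.av {G : Finset Circle} {K : Circle → ℕ → ℕ → ℂ} (h : ∀ z, Bdd2 (K z)) :
    Bdd2 (fun b b' => av G (fun z => K z b b')) := by
  unfold OffDiag.av
  exact (Bdd2.const _).mul (Bdd2.sum fun g _ => Bdd2.sum fun k _ => h _)

theorem MM_av {G : Finset Circle} {K : Circle → ℕ → ℕ → ℂ} (h : ∀ z, Bdd2 (K z)) :
    MM (fun b b' => av G (fun z => K z b b')) = av G (fun z => MM (K z)) := by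
  unfold MM
  rw [← M_av fun z => (h z).outer]
  congr 1
  funext b
  exact M_av fun z => (h z).inner b

theorem av_mem_TP {G : Finset Circle} (c : Circle → ℂ) :
    (fun b => av G (fun z => chr z b * c z)) ∈ TP := by
  have : (fun b => av G (fun z => chr z b * c z))
      = (G.card : ℂ)⁻¹ • ∑ g ∈ G, ∑ h ∈ G, c (g * h⁻¹) • chr (g * h⁻¹) := by
    funext b
    simp [av, Finset.sum_apply, mul_comm]
  rw [this]
  exact TP.smul_mem _ (TP.sum_mem fun g _ => TP.sum_mem fun h _ =>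
    TP.smul_mem _ (chr_mem_TP _))

theorem av_BAP {G : Finset Circle} {T : Circle → ℕ → ℂ} (h : ∀ z, BAP (T z)) :
    BAP (fun b => av G (fun z => chr z b * T z b)) := by
  unfold av
  exact (BAP.sum fun g _ => BAP.sum fun k _ => (h _).mul_TP (chr_mem_TP _)).const_mul _

theorem av_single (G : Finset Circle) (w : Circle) (φ : Circle → ℂ) :
    av G (fun z => if z = w then φ z else 0) = om G w * φ w := by
  unfold av om
  push_cast
  rw [mul_assoc]
  congr 1
  rw [← Finset.sum_product']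
  have h1 : ∀ p ∈ G ×ˢ G, (if p.1 * p.2⁻¹ = w then φ (p.1 * p.2⁻¹) else 0)
      = if p.1 * p.2⁻¹ = w then φ w else 0 := by
    intro p _
    split_ifs with h
    · rw [h]
    · rfl
  rw [Finset.sum_congr rfl h1, ← Finset.sum_filter, Finset.sum_const, nsmul_eq_mul]

theorem om_nonneg (G : Finset Circle) (w : Circle) : 0 ≤ om G w := by
  unfold om; positivity

theorem om_le_one (G : Finset Circle) (w : Circle) : om G w ≤ 1 := by
  unfold om
  rcases G.eq_empty_or_nonempty with rfl | hG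
  · simp
  have hc : (0 : ℝ) < G.card := by exact_mod_cast hG.card_pos
  rw [inv_mul_le_iff₀ hc, mul_one]
  have : ((G ×ˢ G).filter fun p => p.1 * p.2⁻¹ = w).card ≤ G.card := by
    refine Finset.card_le_card_of_injOn (fun p => p.2) ?_ ?_
    · intro p hp
      simp only [coe_filter, mem_product, Set.mem_setOf_eq] at hp
      exact hp.1.2
    · intro p hp p' hp' h
      simp only [coe_filter, mem_product, Set.mem_setOf_eq] at hp hp'
      have h1 : p.1 = w * p.2 := by rw [← hp.2]; group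
      have h2 : p'.1 = w * p'.2 := by rw [← hp'.2]; group
      have h3 : p.2 = p'.2 := h
      exact Prod.ext (by rw [h1, h2, h3]) h3
  exact_mod_cast this

theorem om_one {G : Finset Circle} (hG : G.Nonempty) : om G 1 = 1 := by
  unfold om
  have hc : (G.card : ℝ) ≠ 0 := by exact_mod_cast hG.card_pos.ne'
  have : ((G ×ˢ G).filter fun p => p.1 * p.2⁻¹ = 1).card = G.card := by
    symm
    refine Finset.card_bij (fun g _ => (g, g)) ?_ ?_ ?_
    · intro g hg
      simp [hg]
    · intro a _ b _ h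
      exact (Prod.ext_iff.mp h).1
    · intro p hp
      simp only [mem_filter, mem_product, mul_inv_eq_one] at hp
      exact ⟨p.1, hp.1.1, Prod.ext rfl hp.2⟩
  rw [this]
  field_simp

theorem om_inv (G : Finset Circle) (w : Circle) : om G w⁻¹ = om G w := by
  unfold om
  congr 2
  refine Finset.card_bij (fun p _ => (p.2, p.1)) ?_ ?_ ?_
  · intro p hp
    simp only [mem_filter, mem_product] at hp ⊢
    refine ⟨⟨hp.1.2, hp.1.1⟩, ?_⟩
    rw [← inv_inj, ← hp.2]; group
  · intro a _ b _ h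
    rw [Prod.ext_iff] at h
    exact Prod.ext h.2 h.1
  · intro p hp
    simp only [mem_filter, mem_product] at hp
    refine ⟨(p.2, p.1), ?_, rfl⟩
    simp only [mem_filter, mem_product]
    refine ⟨⟨hp.1.2, hp.1.1⟩, ?_⟩
    rw [← hp.2]; group

/-- Smoothing by the kernel. -/
def cv (G : Finset Circle) (f : ℕ → ℂ) (b : ℕ) : ℂ := M (fun b' => (ker G b b' : ℂ) * f b')

theorem cv_eq (G : Finset Circle) {f : ℕ → ℂ} (hf : Bdd f) (b : ℕ) :
    cv G f b = av G (fun z => chr z b * fc f z) := by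
  unfold cv
  have h1 : (fun b' => (ker G b b' : ℂ) * f b')
      = fun b' => av G (fun z => chr z b * (f b' * chr z⁻¹ b')) := by
    funext b'
    rw [ker_eq, av_mul]
    refine av_congr G fun z => ?_
    ring
  rw [h1, M_av fun z => (Bdd.const _).mul (hf.mul (bdd_chr _))]
  refine av_congr G fun z => ?_
  rw [M_const_mul (hf.mul (bdd_chr _))]
  rfl

theorem cv_mem_TP (G : Finset Circle) {f : ℕ → ℂ} (hf : Bdd f) : cv G f ∈ TP := by
  have : cv G f = fun b => av G (fun z => chr z b * fc f z) := funext (cv_eq G hf)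
  rw [this]
  exact av_mem_TP _

theorem fc_cv (G : Finset Circle) {f : ℕ → ℂ} (hf : Bdd f) (w : Circle) :
    fc (cv G f) w = om G w * fc f w := by
  have h1 : (fun n => cv G f n * chr w⁻¹ n)
      = fun n => av G (fun z => fc f z * chr (z * w⁻¹) n) := by
    funext n
    rw [cv_eq G hf, av_mul]
    refine av_congr G fun z => ?_
    rw [chr_mul]
    ring
  unfold fc at *
  rw [h1, M_av fun z => (Bdd.const _).mul (bdd_chr _)]
  rw [← av_single G w (fun z => M (fun n => f n * chr z⁻¹ n))]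
  refine av_congr G fun z => ?_
  rw [M_const_mul (bdd_chr _), M_chr, mul_inv_eq_one]
  split_ifs <;> simp

theorem M_ker_snd {G : Finset Circle} (hG : G.Nonempty) (b : ℕ) :
    M (fun b' => ker G b b') = 1 := by
  have h1 : ((M (fun b' => ker G b b') : ℝ) : ℂ) = 1 := by
    rw [← M_ofReal ((bdd2_ker G).inner b)]
    have h2 : (fun b' => (ker G b b' : ℂ)) = fun b' => av G (fun z => chr z b * chr z⁻¹ b') := by
      funext b'
      rw [ker_eq]
    rw [h2, M_av fun z => (Bdd.const _).mul (bdd_chr _)]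
    have h3 : av G (fun z => M (fun n => chr z b * chr z⁻¹ n))
        = av G (fun z => if z = 1 then chr z b else 0) := by
      refine av_congr G fun z => ?_
      rw [M_const_mul (bdd_chr _), M_chr]
      simp only [inv_eq_one]
      split_ifs <;> simp
    rw [h3, av_single, om_one hG, chr_one]
    simp
  exact_mod_cast h1

/-- Mean of a function of the second variable against the kernel. -/
theorem MM_ker_snd {G : Finset Circle} (hG : G.Nonempty) {f : ℕ → ℝ} (hf : Bdd f) :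
    MM (fun b b' => ker G b b' * f b') = M f := by
  have hbd : Bdd2 (fun b b' => ker G b b' * f b') := (bdd2_ker G).mul hf.snd
  have h1 : ((MM (fun b b' => ker G b b' * f b') : ℝ) : ℂ) = ((M f : ℝ) : ℂ) := by
    rw [← MM_ofReal hbd, ← M_ofReal hf]
    have h2 : (fun b b' => ((ker G b b' * f b' : ℝ) : ℂ))
        = fun b b' => av G (fun z => chr z b * (chr z⁻¹ b' * f b')) := by
      funext b b'
      push_cast
      rw [ker_eq, av_mul]
      refine av_congr G fun z => ?_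
      ring
    have hz : ∀ z, Bdd (fun b' => chr z⁻¹ b' * (f b' : ℂ)) := fun z => (bdd_chr _).mul hf.ofReal
    rw [h2, MM_av fun z => (bdd_chr z).fst.mul (hz z).snd]
    have h3 : ∀ z, MM (fun b b' => chr z b * (chr z⁻¹ b' * (f b' : ℂ)))
        = if z = 1 then M (fun b' => (f b' : ℂ)) else 0 := by
      intro z
      rw [MM_mul (bdd_chr z) (hz z), M_chr]
      split_ifs with h
      · subst h
        rw [one_mul]
        congr 1
        funext b'
        simp [chr_one]
      · simp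
    rw [av_congr G h3, av_single, om_one hG]
    simp
  exact_mod_cast h1

/-- The kernel is localized. -/
theorem MM_ker_dist {G : Finset Circle} (hG : G.Nonempty) (w : Circle) :
    MM (fun b b' => ker G b b' * ‖chr w b - chr w b'‖ ^ 2) = 2 - 2 * om G w := by
  have hd : Bdd2 (fun b b' => ‖chr w b - chr w b'‖ ^ 2) := by
    refine ⟨4, fun b b' => ?_⟩
    have h1 : ‖chr w b - chr w b'‖ ≤ 2 := by
      refine (norm_sub_le _ _).trans ?_
      rw [norm_chr, norm_chr]; norm_num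
    rw [norm_pow, norm_norm]
    calc ‖chr w b - chr w b'‖ ^ 2 ≤ 2 ^ 2 := pow_le_pow_left₀ (norm_nonneg _) h1 2
      _ = 4 := by norm_num
  have hbd : Bdd2 (fun b b' => ker G b b' * ‖chr w b - chr w b'‖ ^ 2) := (bdd2_ker G).mul hd
  have h1 : ((MM (fun b b' => ker G b b' * ‖chr w b - chr w b'‖ ^ 2) : ℝ) : ℂ)
      = ((2 - 2 * om G w : ℝ) : ℂ) := by
    rw [← MM_ofReal hbd]
    have h2 : (fun b b' => ((ker G b b' * ‖chr w b - chr w b'‖ ^ 2 : ℝ) : ℂ))
        = fun b b' => av G (fun z => 2 * (chr z b * chr z⁻¹ b')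
            - (chr (z * w) b * chr (z * w)⁻¹ b' + chr (z * w⁻¹) b * chr (z * w⁻¹)⁻¹ b')) := by
      funext b b'
      push_cast
      have h3 : (‖chr w b - chr w b'‖ : ℂ) ^ 2
          = 2 - (chr w b * chr w⁻¹ b' + chr w⁻¹ b * chr w b') := by
        have h4 : (‖chr w b - chr w b'‖ : ℂ) ^ 2
            = (chr w b - chr w b') * conj (chr w b - chr w b') := by
          rw [Complex.mul_conj, Complex.normSq_eq_norm_sq]; push_cast; rfl
        rw [h4, map_sub, ← chr_inv, ← chr_inv]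
        have h5 := chr_mul_inv w b
        have h6 := chr_mul_inv w b'
        linear_combination h5 + h6
      rw [h3, ker_eq, av_mul]
      refine av_congr G fun z => ?_
      rw [mul_inv, mul_inv, inv_inv, chr_mul, chr_mul, chr_mul, chr_mul]
      ring
    have hb : ∀ z : Circle, Bdd2 (fun b b' => chr z b * chr z⁻¹ b') :=
      fun z => (bdd_chr z).fst.mul (bdd_chr _).snd
    have hJ : ∀ z : Circle, MM (fun b b' => chr z b * chr z⁻¹ b') = if z = 1 then 1 else 0 := by
      intro z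
      rw [MM_mul (bdd_chr z) (bdd_chr _), M_chr, M_chr]
      simp only [inv_eq_one]
      split_ifs <;> simp
    rw [h2, MM_av fun z => ((Bdd2.const 2).mul (hb z)).sub ((hb (z * w)).add (hb (z * w⁻¹)))]
    have h7 : ∀ z, MM (fun b b' => 2 * (chr z b * chr z⁻¹ b')
            - (chr (z * w) b * chr (z * w)⁻¹ b' + chr (z * w⁻¹) b * chr (z * w⁻¹)⁻¹ b'))
        = (if z = 1 then (2 : ℂ) else 0)
          - ((if z = w⁻¹ then (1 : ℂ) else 0) + (if z = w then (1 : ℂ) else 0)) := by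
      intro z
      rw [MM_sub ((Bdd2.const 2).mul (hb z)) ((hb (z * w)).add (hb (z * w⁻¹))),
        MM_const_mul (hb z), MM_add (hb (z * w)) (hb (z * w⁻¹)), hJ, hJ, hJ]
      congr 1
      · split_ifs <;> simp
      · simp only [mul_eq_one_iff_eq_inv, inv_inv]
    rw [av_congr G h7, av_sub, av_add, av_single G 1 (fun _ => 2), av_single G w⁻¹ (fun _ => 1),
      av_single G w (fun _ => 1), om_inv, om_one hG]
    push_cast
    ring
  exact_mod_cast h1

end

end OffDiag
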