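import Pool.Agent.OffDiag.JZ

/-!
# The two density theorems, in terms of counting functions
-/

set_option linter.unusedSectionVars false

namespace OffDiag

open Filter Topology Finset ComplexConjugate
open scoped Classical

noncomputable section

theorem HBAP.sum {ι : Type*} {s : Finset ι} {H : ι → ℕ → ℕ → ℝ} (b : ∀ i ∈ s, Bdd2 (H i))
    (h : ∀ i ∈ s, HBAP (H i)) : HBAP (fun b b' => ∑ i ∈ s, H i b b') := by
  induction s using Finset.induction_on with
  | empty => simpa using HBAP.const 0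
  | insert a s ha ih =>
    simp only [Finset.sum_insert ha]
    exact (h a (mem_insert_self _ _)).add (b a (mem_insert_self _ _))
      (Bdd2.sum fun i hi => b i (mem_insert_of_mem hi))
      (ih (fun i hi => b i (mem_insert_of_mem hi)) fun i hi => h i (mem_insert_of_mem hi))

theorem HBAP.const_mul {H : ℕ → ℕ → ℝ} (b : Bdd2 H) (h : HBAP H) (c : ℝ) :
    HBAP (fun b b' => c * H b b') := by
  intro ψ hψ
  have h1 := (h ψ hψ).const_mul (c : ℂ)
  refine cast (congrArg BAP ?_) h1
  funext n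
  rw [← M_const_mul (hψ.mul (b.ofReal.inner n))]
  congr 1
  funext b'
  push_cast
  ring

theorem HBAP.linear {F : ℕ → ℝ} (hF : Bdd F) {l : ℕ} (hl : 0 < l) (m t : ℕ) :
    HBAP (fun b b' => F (m * b + l * b' + t)) := by
  intro ψ hψ
  exact factA (F := fun n => (F (n + t) : ℂ)) (hF.comp (fun n => n + t)).ofReal hψ hl m

/-- Indicator of the complement. -/
def coI (A : Set ℕ) (n : ℕ) : ℝ := if n ∈ A then 0 else 1

theorem coI_nonneg (A : Set ℕ) (n : ℕ) : 0 ≤ coI A n := by unfold coI; split_ifs <;> norm_num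
theorem coI_le_one (A : Set ℕ) (n : ℕ) : coI A n ≤ 1 := by unfold coI; split_ifs <;> norm_num
theorem bdd_coI (A : Set ℕ) : Bdd (coI A) := bdd_of_unit (coI_nonneg A) (coI_le_one A)

/-- Average over a set `T` of shifts. -/
def Hbar (A : Set ℕ) (m l : ℕ) (T : Finset ℕ) (b b' : ℕ) : ℝ :=
  (T.card : ℝ)⁻¹ * ∑ t ∈ T, (coI A (m * b + l * b' + t) + coI A (l * b + m * b' + t))

theorem Hbar_nonneg (A : Set ℕ) (m l : ℕ) (T : Finset ℕ) (b b' : ℕ) : 0 ≤ Hbar A m l T b b' := by
  unfold Hbar
  exact mul_nonneg (by positivity) (Finset.sum_nonneg fun t _ =>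
    add_nonneg (coI_nonneg _ _) (coI_nonneg _ _))

theorem Hbar_le (A : Set ℕ) (m l : ℕ) (T : Finset ℕ) (b b' : ℕ) : Hbar A m l T b b' ≤ 2 := by
  unfold Hbar
  rcases T.eq_empty_or_nonempty with rfl | hT
  · simp
  have hc : (0 : ℝ) < T.card := by exact_mod_cast hT.card_pos
  rw [inv_mul_le_iff₀ hc]
  calc ∑ t ∈ T, (coI A (m * b + l * b' + t) + coI A (l * b + m * b' + t))
      ≤ ∑ _t ∈ T, (2 : ℝ) := Finset.sum_le_sum fun t _ => by
        linarith [coI_le_one A (m * b + l * b' + t), coI_le_one A (l * b + m * b' + t)]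
    _ = T.card * 2 := by rw [Finset.sum_const, nsmul_eq_mul]

theorem bdd2_pair (A : Set ℕ) (m l t : ℕ) :
    Bdd2 (fun b b' => coI A (m * b + l * b' + t) + coI A (l * b + m * b' + t)) :=
  (bdd2_F (bdd_coI A) m l t).add (bdd2_F (bdd_coI A) l m t)

theorem HBAP_Hbar (A : Set ℕ) {m l : ℕ} (hm : 0 < m) (hl : 0 < l) (T : Finset ℕ) :
    HBAP (Hbar A m l T) := by
  unfold Hbar
  refine HBAP.const_mul (Bdd2.sum fun t _ => bdd2_pair A m l t) ?_ _
  refine HBAP.sum (fun t _ => bdd2_pair A m l t) fun t _ => ?_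
  exact HBAP.add (bdd2_F (bdd_coI A) m l t) (bdd2_F (bdd_coI A) l m t)
    (HBAP.linear (bdd_coI A) hl m t) (HBAP.linear (bdd_coI A) hm l t)

/-- The abstract existence theorem. -/
theorem exists_seq {A : Set ℕ} {m l : ℕ} (hm : 0 < m) (hl : 0 < l) {T : Finset ℕ}
    (hT : T.Nonempty) {δ : ℝ} (hδ : δ < 1)
    (hbound : ∀ G : Finset Circle, G.Nonempty →
      MM (fun b b' => ker G b b' * Hbar A m l T b b') ≤ δ) :
    ∃ t ∈ T, ∃ u : ℕ → ℕ, StrictMono u ∧ ∀ i j, i < j →
      (m * u i + l * u j + t ∈ A ∧ l * u i + m * u j + t ∈ A) := by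
  by_contra hcon
  push Not at hcon
  have hc0 : (0 : ℝ) < T.card := by exact_mod_cast hT.card_pos
  set good : ℕ → ℕ → ℕ → Prop := fun t b b' =>
    m * b + l * b' + t ∈ A ∧ l * b + m * b' + t ∈ A with hgood
  set c : ℝ := (1 - δ) / (2 * T.card) with hc
  have hcpos : 0 < c := div_pos (by linarith) (by positivity)
  have hex : ∀ t : ℕ, ∃ k, t ∈ T → ∀ K, M (zK (good t) k K) ≤ c := by
    intro t
    by_cases ht : t ∈ T
    · by_contra h1
      push Not at h1
      obtain ⟨u, hu1, hu2⟩ := select (good t) hcpos fun k => by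
        obtain ⟨-, K, hK⟩ := h1 k
        exact ⟨K, hK.le⟩
      obtain ⟨i, j, hij, hij'⟩ := hcon t ht u hu1
      have := hu2 i j hij
      exact hij' this.1 this.2
    · exact ⟨0, fun h => absurd h ht⟩
  choose kt hkt using hex
  set k := T.sup kt with hk
  set cell : ℕ → (T → Fin (k + 1) → Bool) := fun b t a => decide (good t a b) with hcell
  have hy : ∀ K, 1 - T.card * c ≤ M (yK (Hbar A m l T) cell k K) := by
    intro K
    have hsum : ∑ t ∈ T, M (zK (good t) (kt t) K) ≤ T.card * c := by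
      calc ∑ t ∈ T, M (zK (good t) (kt t) K) ≤ ∑ _t ∈ T, c :=
            Finset.sum_le_sum fun t ht => hkt t ht K
        _ = T.card * c := by rw [Finset.sum_const, nsmul_eq_mul]
    have hb : Bdd (fun b' => ∑ t ∈ T, zK (good t) (kt t) K b') := Bdd.sum fun t _ => bdd_zK _ _ _
    have h1 : M (fun b' => 1 - ∑ t ∈ T, zK (good t) (kt t) K b')
        ≤ M (yK (Hbar A m l T) cell k K) := by
      refine M_mono ((Bdd.const (1 : ℝ)).sub hb) (bdd_yK _ _ _ _) fun b' => ?_
      by_cases hyb : (∀ b, k ≤ b → b ≤ K → cell b = cell b' → 1 ≤ Hbar A m l T b b')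
      · have : yK (Hbar A m l T) cell k K b' = 1 := by unfold yK; rw [if_pos hyb]
        rw [this]
        have : 0 ≤ ∑ t ∈ T, zK (good t) (kt t) K b' :=
          Finset.sum_nonneg fun t _ => zK_nonneg _ _ _ _
        linarith
      · have h2 := yK_nonneg (Hbar A m l T) cell k K b'
        push Not at hyb
        obtain ⟨b, hb1, hb2, hb3, hb4⟩ := hyb
        have h3 : ∃ t ∈ T, coI A (m * b + l * b' + t) + coI A (l * b + m * b' + t) < 1 := by
          by_contra h4
          push Not at h4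
          have h5 : (T.card : ℝ) * 1
              ≤ ∑ t ∈ T, (coI A (m * b + l * b' + t) + coI A (l * b + m * b' + t)) := by
            rw [← nsmul_eq_mul]
            exact Finset.card_nsmul_le_sum _ _ _ h4
          unfold Hbar at hb4
          rw [inv_mul_lt_iff₀ hc0] at hb4
          linarith
        obtain ⟨t, ht, ht'⟩ := h3
        have h6 : m * b + l * b' + t ∈ A ∧ l * b + m * b' + t ∈ A := by
          constructor
          · by_contra h7
            have h8 : coI A (m * b + l * b' + t) = 1 := by unfold coI; rw [if_neg h7]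
            linarith [coI_nonneg A (l * b + m * b' + t)]
          · by_contra h7
            have h8 : coI A (l * b + m * b' + t) = 1 := by unfold coI; rw [if_neg h7]
            linarith [coI_nonneg A (m * b + l * b' + t)]
        have h7 : ZP (good t) (kt t) K b' := by
          have hktk : kt t ≤ k := Finset.le_sup ht
          refine ⟨b, hktk.trans hb1, hb2, fun a ha => ?_, h6⟩
          have h8 := congrFun (congrFun hb3 ⟨t, ht⟩) ⟨a, by omega⟩
          simp only [hcell] at h8
          exact decide_eq_decide.mp h8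
        have h8 : zK (good t) (kt t) K b' = 1 := by unfold zK; rw [if_pos h7]
        have h9 : (1 : ℝ) ≤ ∑ t ∈ T, zK (good t) (kt t) K b' := by
          rw [← h8]
          exact Finset.single_le_sum (f := fun t => zK (good t) (kt t) K b')
            (fun i _ => zK_nonneg _ _ _ _) ht
        linarith
    have h2 : M (fun b' => 1 - ∑ t ∈ T, zK (good t) (kt t) K b')
        = 1 - ∑ t ∈ T, M (zK (good t) (kt t) K) := by
      rw [M_sub (Bdd.const (1 : ℝ)) hb, M_const, M_sum fun t _ => bdd_zK _ _ _]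
    linarith
  have hε : 0 < (1 - δ) / 4 := by linarith
  obtain ⟨G, hG, hGy⟩ := core (Hbar_nonneg A m l T) (Hbar_le A m l T) (HBAP_Hbar A hm hl T)
    cell k hy hε
  have h1 := hbound G hG
  have h2 : T.card * c = (1 - δ) / 2 := by rw [hc]; field_simp
  linarith

theorem MM_ker_Hbar (A : Set ℕ) (m l : ℕ) (T : Finset ℕ) (G : Finset Circle) :
    ((MM (fun b b' => ker G b b' * Hbar A m l T b b') : ℝ) : ℂ)
      = av G (fun z => (T.card : ℂ)⁻¹ * ∑ t ∈ T, (jz (coI A) m l z t + jz (coI A) l m z t)) := by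
  have hb := bdd_coI A
  have b1 : ∀ m l t, Bdd2 (fun b b' => ker G b b' * coI A (m * b + l * b' + t)) :=
    fun m l t => (bdd2_ker G).mul (bdd2_F hb m l t)
  have h1 : (fun b b' => ker G b b' * Hbar A m l T b b')
      = fun b b' => (T.card : ℝ)⁻¹ * ∑ t ∈ T, (ker G b b' * coI A (m * b + l * b' + t)
        + ker G b b' * coI A (l * b + m * b' + t)) := by
    funext b b'
    unfold Hbar
    rw [mul_left_comm, Finset.mul_sum]
    simp only [mul_add]
  rw [h1, MM_const_mul_real (Bdd2.sum fun t _ => (b1 m l t).add (b1 l m t)),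
    MM_sum fun t _ => (b1 m l t).add (b1 l m t)]
  rw [Finset.sum_congr rfl fun t _ => MM_add (b1 m l t) (b1 l m t)]
  push_cast
  rw [Finset.sum_congr rfl fun t _ => by rw [MM_ker_F hb m l t G, MM_ker_F hb l m t G]]
  rw [← mul_av]
  congr 1
  simp only [← av_add]
  unfold av
  rw [← Finset.mul_sum, Finset.sum_comm]
  congr 1
  refine Finset.sum_congr rfl fun g _ => ?_
  rw [Finset.sum_comm]

theorem card_roots_le (G : Finset Circle) (g : Circle) {n : ℕ} (hn : 0 < n) :
    (G.filter fun h => ((g * h⁻¹ : Circle) : ℂ) ^ n = 1).card ≤ n := by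
  have h1 : (G.filter fun h => ((g * h⁻¹ : Circle) : ℂ) ^ n = 1).card
      ≤ (Polynomial.nthRootsFinset n (1 : ℂ)).card := by
    refine Finset.card_le_card_of_injOn (fun h => ((g * h⁻¹ : Circle) : ℂ)) ?_ ?_
    · intro h hh
      simp only [coe_filter, Set.mem_ofPred_eq] at hh
      exact (Polynomial.mem_nthRootsFinset hn (1 : ℂ)).mpr hh.2
    · intro a _ b _ hab
      have h2 : g * a⁻¹ = g * b⁻¹ := Circle.ext hab
      exact inv_injective (mul_left_cancel h2)
  refine h1.trans ?_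
  unfold Polynomial.nthRootsFinset
  refine (Multiset.toFinset_card_le _).trans ?_
  exact Polynomial.card_nthRoots n 1

/-- Coprime case of the shift free theorem. -/
theorem seq_coprime {A : Set ℕ} {m l : ℕ} (hm : 0 < m) (hl : 0 < l) (hlm : Nat.Coprime m l)
    {D : ℝ} (hD : 0 ≤ D) (hD1 : 2 * ((l : ℝ) + m) * D < 1)
    (hFD : ∀ᶠ X : ℕ in atTop, ∑ n ∈ range X, coI A n ≤ D * X) :
    ∃ u : ℕ → ℕ, StrictMono u ∧ ∀ i j, i < j →
      (m * u i + l * u j ∈ A ∧ l * u i + m * u j ∈ A) := by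
  have hb := bdd_coI A
  have hkey : ∀ G : Finset Circle, G.Nonempty →
      MM (fun b b' => ker G b b' * Hbar A m l {0} b b') ≤ 2 * ((l : ℝ) + m) * D := by
    intro G hG
    have hc : (0 : ℝ) < G.card := by exact_mod_cast hG.card_pos
    have h1 := MM_ker_Hbar A m l {0} G
    have h2 : MM (fun b b' => ker G b b' * Hbar A m l {0} b b')
        ≤ ‖((MM (fun b b' => ker G b b' * Hbar A m l {0} b b') : ℝ) : ℂ)‖ := by
      rw [Complex.norm_real]; exact le_abs_self _
    refine h2.trans ?_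
    rw [h1]
    refine (norm_av_le _ _).trans ?_
    rw [inv_mul_le_iff₀ hc]
    have h3 : ∀ z : Circle, ‖(({0} : Finset ℕ).card : ℂ)⁻¹ *
        ∑ t ∈ ({0} : Finset ℕ), (jz (coI A) m l z t + jz (coI A) l m z t)‖
        ≤ if (z : ℂ) ^ (l + m) = 1 then 2 * D else 0 := by
      intro z
      simp only [Finset.card_singleton, Nat.cast_one, inv_one, one_mul, Finset.sum_singleton]
      split_ifs with hz
      · have h4 := norm_jz_le hb m l z 0 (coI_nonneg A)
        have h5 := norm_jz_le hb l m z 0 (coI_nonneg A)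
        have h6 := j1_zero_le hb m l (coI_nonneg A) hD hFD hl hlm
        have h7 := j1_zero_le hb l m (coI_nonneg A) hD hFD hm hlm.symm
        exact (norm_add_le _ _).trans (by linarith)
      · rw [jz_eq_zero hb m l z 0 hz, jz_eq_zero hb l m z 0 (by rwa [add_comm]), add_zero,
          norm_zero]
    calc ∑ g ∈ G, ∑ h ∈ G, ‖(({0} : Finset ℕ).card : ℂ)⁻¹ *
          ∑ t ∈ ({0} : Finset ℕ), (jz (coI A) m l (g * h⁻¹) t + jz (coI A) l m (g * h⁻¹) t)‖
        ≤ ∑ g ∈ G, ∑ h ∈ G, (if ((g * h⁻¹ : Circle) : ℂ) ^ (l + m) = 1 then 2 * D else 0) :=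
          Finset.sum_le_sum fun g _ => Finset.sum_le_sum fun h _ => h3 _
      _ ≤ ∑ _g ∈ G, (2 * ((l : ℝ) + m) * D) := by
          refine Finset.sum_le_sum fun g _ => ?_
          rw [← Finset.sum_filter, Finset.sum_const, nsmul_eq_mul]
          have h4 := card_roots_le G g (show 0 < l + m by omega)
          have h5 : ((G.filter fun h => ((g * h⁻¹ : Circle) : ℂ) ^ (l + m) = 1).card : ℝ)
              ≤ (l : ℝ) + m := by exact_mod_cast h4
          nlinarith
      _ = G.card * (2 * ((l : ℝ) + m) * D) := by rw [Finset.sum_const, nsmul_eq_mul]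
  obtain ⟨t, ht, u, hu1, hu2⟩ := exists_seq hm hl (T := {0}) (Finset.singleton_nonempty 0) hD1 hkey
  rw [Finset.mem_singleton] at ht
  subst ht
  exact ⟨u, hu1, hu2⟩

/-- The shift free theorem. -/
theorem seq_noshift {A : Set ℕ} {m l : ℕ} (hm : 0 < m) (hl : 0 < l)
    {D : ℝ} (hD : 0 ≤ D) (hD1 : 2 * ((l : ℝ) + m) * D < 1)
    (hFD : ∀ᶠ X : ℕ in atTop, ∑ n ∈ range X, coI A n ≤ D * X) :
    ∃ u : ℕ → ℕ, StrictMono u ∧ ∀ i j, i < j →
      (m * u i + l * u j ∈ A ∧ l * u i + m * u j ∈ A) := by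
  obtain ⟨g, m', l', hg, hcop, hm', hl'⟩ : ∃ g m' l', 0 < g ∧ Nat.Coprime m' l' ∧
      m = m' * g ∧ l = l' * g := Nat.exists_coprime' (Nat.gcd_pos_of_pos_left l hm)
  have hm'0 : 0 < m' := by
    rcases Nat.eq_zero_or_pos m' with h | h
    · subst h; simp at hm'; omega
    · exact h
  have hl'0 : 0 < l' := by
    rcases Nat.eq_zero_or_pos l' with h | h
    · subst h; simp at hl'; omega
    · exact h
  set A' : Set ℕ := {n | g * n ∈ A} with hA'
  have hFD' : ∀ᶠ X : ℕ in atTop, ∑ n ∈ range X, coI A' n ≤ (g * D) * X := by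
    obtain ⟨X₀, hX₀⟩ := eventually_atTop.mp hFD
    filter_upwards [eventually_ge_atTop X₀] with X hX
    have hgX : X₀ ≤ g * X := hX.trans (Nat.le_mul_of_pos_left X hg)
    have h1 := hX₀ _ hgX
    rw [sum_range_mul_eq] at h1
    have h2 : ∑ n ∈ range X, coI A' n
        ≤ ∑ r ∈ range g, ∑ j ∈ range X, coI A (r + g * j) := by
      have h3 : ∑ n ∈ range X, coI A' n = ∑ j ∈ range X, coI A (0 + g * j) := by
        refine Finset.sum_congr rfl fun j _ => ?_
        rw [zero_add]
        rfl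
      rw [h3]
      exact Finset.single_le_sum (f := fun r => ∑ j ∈ range X, coI A (r + g * j))
        (fun r _ => Finset.sum_nonneg fun j _ => coI_nonneg _ _) (mem_range.mpr hg)
    push_cast at h1
    linarith
  obtain ⟨u, hu1, hu2⟩ := seq_coprime hm'0 hl'0 hcop (A := A') (D := g * D) (by positivity) (by
    have h1 : 2 * ((l : ℝ) + m) * D = 2 * ((l' : ℝ) + m') * (g * D) := by
      rw [hm', hl']; push_cast; ring
    rw [← h1]; exact hD1) hFD'
  refine ⟨u, hu1, fun i j hij => ?_⟩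
  have h1 := hu2 i j hij
  have h2 : g * (m' * u i + l' * u j) ∈ A := h1.1
  have h3 : g * (l' * u i + m' * u j) ∈ A := h1.2
  constructor
  · have : m * u i + l * u j = g * (m' * u i + l' * u j) := by rw [hm', hl']; ring
    rw [this]; exact h2
  · have : l * u i + m * u j = g * (l' * u i + m' * u j) := by rw [hm', hl']; ring
    rw [this]; exact h3

/-- The theorem with a shift. -/
theorem seq_shift {A : Set ℕ} {m l : ℕ} (hm : 0 < m) (hl : 0 < l)
    {D : ℝ} (hD : 0 ≤ D) (hD1 : 2 * D < 1)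
    (hFD : ∀ᶠ X : ℕ in atTop, ∑ n ∈ range X, coI A n ≤ D * X) :
    ∃ t : ℕ, 0 < t ∧ t ≤ m * (l + m) * l ∧ ∃ u : ℕ → ℕ, StrictMono u ∧ ∀ i j, i < j →
      (m * u i + l * u j + t ∈ A ∧ l * u i + m * u j + t ∈ A) := by
  have hb := bdd_coI A
  set T₀ : ℕ := m * (l + m) * l with hT₀
  have hT₀pos : 0 < T₀ := by positivity
  set T : Finset ℕ := (range T₀).image (fun t => t + 1) with hT
  have hinj : Set.InjOn (fun t : ℕ => t + 1) (range T₀ : Finset ℕ) := fun a _ b _ h => by
    simpa using h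
  have hTc : T.card = T₀ := by rw [hT, Finset.card_image_of_injOn hinj, card_range]
  have hTne : T.Nonempty := by rw [← Finset.card_pos, hTc]; exact hT₀pos
  have hkey : ∀ G : Finset Circle, G.Nonempty →
      MM (fun b b' => ker G b b' * Hbar A m l T b b') ≤ 2 * D := by
    intro G hG
    have h1 := MM_ker_Hbar A m l T G
    have h2 : ∀ z : Circle, (T.card : ℂ)⁻¹ * ∑ t ∈ T, (jz (coI A) m l z t + jz (coI A) l m z t)
        = if z = 1 then (T.card : ℂ)⁻¹ *
          ∑ t ∈ T, (jz (coI A) m l z t + jz (coI A) l m z t) else 0 := by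
      intro z
      split_ifs with hz
      · rfl
      · have h3 : ∑ t ∈ T, (jz (coI A) m l z t + jz (coI A) l m z t) = 0 := by
          rw [hT, Finset.sum_image hinj, Finset.sum_add_distrib, hT₀,
            sum_jz_eq_zero hb m l z hz 1, zero_add]
          have h4 : m * (l + m) * l = l * (m + l) * m := by ring
          rw [h4]
          exact sum_jz_eq_zero hb l m z hz 1
        rw [h3, mul_zero]
    rw [av_congr G h2, av_single G 1 (fun z => (T.card : ℂ)⁻¹ *
          ∑ t ∈ T, (jz (coI A) m l z t + jz (coI A) l m z t)), om_one hG] at h1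
    simp only [jz_one hb] at h1
    have h3 : MM (fun b b' => ker G b b' * Hbar A m l T b b')
        = (T.card : ℝ)⁻¹ * ∑ t ∈ T, (j1 (coI A) m l t + j1 (coI A) l m t) := by
      have h4 : ((MM (fun b b' => ker G b b' * Hbar A m l T b b') : ℝ) : ℂ)
          = (((T.card : ℝ)⁻¹ * ∑ t ∈ T, (j1 (coI A) m l t + j1 (coI A) l m t) : ℝ) : ℂ) := by
        rw [h1]
        push_cast
        ring
      exact_mod_cast h4
    rw [h3, hTc]
    have hT₀' : (0 : ℝ) < T₀ := by exact_mod_cast hT₀pos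
    rw [inv_mul_le_iff₀ hT₀', hT, Finset.sum_image hinj, Finset.sum_add_distrib]
    have h5 := sum_j1_le hb m l (coI_nonneg A) hD hFD hl 1 (m * (l + m))
    have h6 := sum_j1_le hb l m (coI_nonneg A) hD hFD hm 1 (l * (m + l))
    have e1 : l * (m * (l + m)) = T₀ := by rw [hT₀]; ring
    have e2 : m * (l * (m + l)) = T₀ := by rw [hT₀]; ring
    rw [e1] at h5
    rw [e2] at h6
    simp only [add_comm 1] at h5 h6
    linarith
  obtain ⟨t, ht, u, hu1, hu2⟩ := exists_seq hm hl hTne hD1 hkey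
  rw [hT, mem_image] at ht
  obtain ⟨s, hs, rfl⟩ := ht
  rw [mem_range] at hs
  exact ⟨s + 1, by omega, by omega, u, hu1, hu2⟩

theorem ncard_eq_sum (A : Set ℕ) (N : ℕ) :
    ((A ∩ Set.Icc 1 N).ncard : ℝ) = ∑ n ∈ range N, (1 - coI A (n + 1)) := by
  have h1 : A ∩ Set.Icc 1 N = (((range N).image (fun n => n + 1)).filter (fun n => n ∈ A) :
      Finset ℕ) := by
    ext n
    simp only [Set.mem_inter_iff, Set.mem_Icc, coe_filter, mem_image, mem_range,
      Set.mem_ofPred_eq]
    constructor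
    · rintro ⟨h1, h2, h3⟩
      exact ⟨⟨n - 1, by omega, by omega⟩, h1⟩
    · rintro ⟨⟨a, h1, rfl⟩, h2⟩
      exact ⟨h2, by omega, by omega⟩
  rw [h1, Set.ncard_coe_finset, Finset.card_filter]
  push_cast
  rw [Finset.sum_image fun a _ b _ h => by simpa using h]
  refine Finset.sum_congr rfl fun n _ => ?_
  unfold coI
  split_ifs <;> norm_num

/-- The counting function of the complement, from the lower density. -/
theorem coI_sum_le {A : Set ℕ} {c : ℝ}
    (hc : c < liminf (fun N : ℕ => ((A ∩ Set.Icc 1 N).ncard : ℝ) / (N : ℝ)) atTop) :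
    ∀ᶠ X : ℕ in atTop, ∑ n ∈ range X, coI A n ≤ (1 - c) * X := by
  obtain ⟨c', hc1, hc2⟩ := exists_between hc
  have hbd : IsBoundedUnder (· ≥ ·) atTop
      (fun N : ℕ => ((A ∩ Set.Icc 1 N).ncard : ℝ) / (N : ℝ)) :=
    isBoundedUnder_of ⟨0, fun N => by positivity⟩
  have h1 := eventually_lt_of_lt_liminf hc2 hbd
  obtain ⟨N₀, hN₀⟩ := eventually_atTop.mp h1
  obtain ⟨N₁, hN₁⟩ := exists_nat_ge (1 / (c' - c))
  have hcc : 0 < c' - c := by linarith
  rw [div_le_iff₀ hcc] at hN₁
  filter_upwards [eventually_ge_atTop (max (N₀ + 1) (max (N₁ + 1) 2))] with X hX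
  have hX0 : N₀ + 1 ≤ X := (le_max_left _ _).trans hX
  have hX1 : N₁ + 1 ≤ X := ((le_max_left _ _).trans (le_max_right _ _)).trans hX
  have hX2 : 2 ≤ X := ((le_max_right _ _).trans (le_max_right _ _)).trans hX
  obtain ⟨N, rfl⟩ : ∃ N, X = N + 1 := ⟨X - 1, by omega⟩
  have h2 := hN₀ N (by omega)
  have hN : (0 : ℝ) < N := by
    have : 0 < N := by omega
    exact_mod_cast this
  rw [lt_div_iff₀ hN, ncard_eq_sum, Finset.sum_sub_distrib, Finset.sum_const, card_range,
    nsmul_eq_mul, mul_one] at h2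
  rw [Finset.sum_range_succ']
  have h3 := coI_le_one A 0
  have h4 : (N₁ : ℝ) ≤ N := by
    have : N₁ ≤ N := by omega
    exact_mod_cast this
  push_cast
  have h5 : c ≤ 1 := by
    have h6 : 0 ≤ ∑ n ∈ range N, coI A (n + 1) := Finset.sum_nonneg fun n _ => coI_nonneg _ _
    have h7 : c' * N < N := by linarith
    have h8 : c' < 1 := by
      by_contra h9
      push Not at h9
      nlinarith
    linarith
  have h6 : 1 ≤ (c' - c) * N := by nlinarith
  nlinarith

end

end OffDiag
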