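import Mathlib

/-!
# A shift invariant mean along the hyperfilter

`M f` is the limit, along a fixed nonprincipal ultrafilter, of the averages of `f` over the
initial segments of `ℕ`.
-/

set_option linter.unusedSectionVars false

namespace OffDiag

open Filter Topology Finset

noncomputable section

/-- Average of `f` over `0, ..., N-1`. -/
def avg {E : Type*} [AddCommGroup E] [Module ℝ E] (f : ℕ → E) (N : ℕ) : E :=
  (N : ℝ)⁻¹ • ∑ b ∈ range N, f b

/-- Boundedness of a sequence. -/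
def Bdd {E : Type*} [NormedAddCommGroup E] (f : ℕ → E) : Prop := ∃ C : ℝ, ∀ n, ‖f n‖ ≤ C

/-- The mean. -/
def M {E : Type*} [NormedAddCommGroup E] [NormedSpace ℝ E] (f : ℕ → E) : E :=
  limUnder (hyperfilter ℕ : Filter ℕ) (avg f)

section bdd

variable {E : Type*} [NormedAddCommGroup E]

theorem Bdd.exists_nonneg {f : ℕ → E} (hf : Bdd f) : ∃ C : ℝ, 0 ≤ C ∧ ∀ n, ‖f n‖ ≤ C := by
  obtain ⟨C, hC⟩ := hf
  exact ⟨C, (norm_nonneg _).trans (hC 0), hC⟩

theorem Bdd.add {f g : ℕ → E} (hf : Bdd f) (hg : Bdd g) : Bdd (fun n => f n + g n) := by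
  obtain ⟨C, hC⟩ := hf
  obtain ⟨D, hD⟩ := hg
  exact ⟨C + D, fun n => (norm_add_le _ _).trans (add_le_add (hC n) (hD n))⟩

theorem Bdd.neg {f : ℕ → E} (hf : Bdd f) : Bdd (fun n => - f n) := by
  obtain ⟨C, hC⟩ := hf
  exact ⟨C, fun n => by simpa using hC n⟩

theorem Bdd.sub {f g : ℕ → E} (hf : Bdd f) (hg : Bdd g) : Bdd (fun n => f n - g n) := by
  simpa [sub_eq_add_neg] using hf.add hg.neg

theorem Bdd.shift {f : ℕ → E} (hf : Bdd f) (k : ℕ) : Bdd (fun n => f (n + k)) := by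
  obtain ⟨C, hC⟩ := hf
  exact ⟨C, fun n => hC _⟩

theorem Bdd.comp {f : ℕ → E} (hf : Bdd f) (k : ℕ → ℕ) : Bdd (fun n => f (k n)) := by
  obtain ⟨C, hC⟩ := hf
  exact ⟨C, fun n => hC _⟩

theorem Bdd.const (c : E) : Bdd (fun _ : ℕ => c) := ⟨‖c‖, fun _ => le_rfl⟩

theorem Bdd.norm {f : ℕ → E} (hf : Bdd f) : Bdd (fun n => ‖f n‖) := by
  obtain ⟨C, hC⟩ := hf
  exact ⟨C, fun n => by simpa using hC n⟩

theorem Bdd.sum {ι : Type*} {s : Finset ι} {f : ι → ℕ → E} (hf : ∀ i ∈ s, Bdd (f i)) :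
    Bdd (fun n => ∑ i ∈ s, f i n) := by
  classical
  induction s using Finset.induction_on with
  | empty => simpa using Bdd.const (0 : E)
  | insert a s ha ih =>
    simp only [Finset.sum_insert ha]
    exact (hf a (mem_insert_self _ _)).add (ih fun i hi => hf i (mem_insert_of_mem hi))

theorem Bdd.mul {A : Type*} [NormedRing A] {f g : ℕ → A} (hf : Bdd f) (hg : Bdd g) :
    Bdd (fun n => f n * g n) := by
  obtain ⟨C, hC0, hC⟩ := hf.exists_nonneg
  obtain ⟨D, hD⟩ := hg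
  exact ⟨C * D, fun n => (norm_mul_le _ _).trans
    (mul_le_mul (hC n) (hD n) (norm_nonneg _) hC0)⟩

theorem Bdd.pow {A : Type*} [NormedCommRing A] {f : ℕ → A} (hf : Bdd f) (k : ℕ) :
    Bdd (fun n => f n ^ k) := by
  induction k with
  | zero => simpa using Bdd.const (1 : A)
  | succ k ih => simpa [pow_succ] using ih.mul hf

end bdd

variable {E : Type*} [NormedAddCommGroup E] [NormedSpace ℝ E]

theorem Bdd.smul {f : ℕ → E} (hf : Bdd f) (c : ℝ) : Bdd (fun n => c • f n) := by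
  obtain ⟨C, hC⟩ := hf
  exact ⟨|c| * C, fun n => by
    rw [norm_smul, Real.norm_eq_abs]
    exact mul_le_mul_of_nonneg_left (hC n) (abs_nonneg _)⟩

theorem norm_avg_le {f : ℕ → E} {C : ℝ} (hC : ∀ n, ‖f n‖ ≤ C) (N : ℕ) : ‖avg f N‖ ≤ C := by
  have hC0 : 0 ≤ C := (norm_nonneg _).trans (hC 0)
  rcases Nat.eq_zero_or_pos N with rfl | hN
  · simpa [avg] using hC0
  have hN' : (0 : ℝ) < N := by exact_mod_cast hN
  unfold avg
  rw [norm_smul, norm_inv, Real.norm_natCast, inv_mul_le_iff₀ hN']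
  calc ‖∑ b ∈ range N, f b‖ ≤ ∑ b ∈ range N, ‖f b‖ := norm_sum_le _ _
    _ ≤ ∑ _b ∈ range N, C := Finset.sum_le_sum fun b _ => hC b
    _ = N * C := by simp

variable [ProperSpace E]

theorem tendsto_M {f : ℕ → E} (hf : Bdd f) :
    Tendsto (avg f) (hyperfilter ℕ : Filter ℕ) (𝓝 (M f)) := by
  obtain ⟨C, hC⟩ := hf
  have hcomp : IsCompact (Metric.closedBall (0 : E) C) := isCompact_closedBall 0 C
  have hmem : Metric.closedBall (0 : E) C ∈ (hyperfilter ℕ).map (avg f) := by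
    rw [Ultrafilter.mem_map]
    have : avg f ⁻¹' Metric.closedBall (0 : E) C = Set.univ := by
      ext N
      simp only [Set.mem_preimage, mem_closedBall_zero_iff, Set.mem_univ, iff_true]
      exact norm_avg_le hC N
    rw [this]
    exact univ_mem
  obtain ⟨x, -, hx⟩ := hcomp.ultrafilter_le_nhds ((hyperfilter ℕ).map (avg f))
    (by rw [le_principal_iff]; exact hmem)
  have hx' : Tendsto (avg f) (hyperfilter ℕ : Filter ℕ) (𝓝 x) := hx
  unfold M
  rwa [hx'.limUnder_eq]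

theorem M_eq_of_tendsto {f : ℕ → E} {x : E}
    (h : Tendsto (avg f) (hyperfilter ℕ : Filter ℕ) (𝓝 x)) : M f = x := h.limUnder_eq

theorem hyper_le : (hyperfilter ℕ : Filter ℕ) ≤ atTop := by
  rw [← Nat.cofinite_eq_atTop]; exact hyperfilter_le_cofinite

theorem M_eq_of_tendsto_atTop {f : ℕ → E} {x : E}
    (h : Tendsto (avg f) atTop (𝓝 x)) : M f = x := M_eq_of_tendsto (h.mono_left hyper_le)

theorem M_add {f g : ℕ → E} (hf : Bdd f) (hg : Bdd g) :
    M (fun n => f n + g n) = M f + M g := by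
  apply M_eq_of_tendsto
  have := (tendsto_M hf).add (tendsto_M hg)
  refine this.congr fun N => ?_
  simp [avg, Finset.sum_add_distrib, smul_add]

theorem M_smul {f : ℕ → E} (hf : Bdd f) (c : ℝ) : M (fun n => c • f n) = c • M f := by
  apply M_eq_of_tendsto
  have := (tendsto_M hf).const_smul c
  refine this.congr fun N => ?_
  simp [avg, ← Finset.smul_sum, smul_comm c]

theorem M_neg {f : ℕ → E} (hf : Bdd f) : M (fun n => - f n) = - M f := by
  apply M_eq_of_tendsto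
  have := (tendsto_M hf).neg
  refine this.congr fun N => ?_
  simp [avg]

theorem M_sub {f g : ℕ → E} (hf : Bdd f) (hg : Bdd g) :
    M (fun n => f n - g n) = M f - M g := by
  simp only [sub_eq_add_neg]
  rw [M_add hf hg.neg, M_neg hg]

theorem M_const (c : E) : M (fun _ => c) = c := by
  apply M_eq_of_tendsto_atTop
  refine tendsto_const_nhds.congr' ?_
  filter_upwards [eventually_gt_atTop 0] with N hN
  have hN' : (N : ℝ) ≠ 0 := by exact_mod_cast hN.ne'
  unfold avg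
  rw [Finset.sum_const, card_range, ← Nat.cast_smul_eq_nsmul ℝ, smul_smul, inv_mul_cancel₀ hN',
    one_smul]

theorem M_zero : M (fun _ => (0 : E)) = 0 := M_const 0

theorem M_sum {ι : Type*} {s : Finset ι} {f : ι → ℕ → E} (hf : ∀ i ∈ s, Bdd (f i)) :
    M (fun n => ∑ i ∈ s, f i n) = ∑ i ∈ s, M (f i) := by
  classical
  induction s using Finset.induction_on with
  | empty => simpa using M_zero
  | insert a s ha ih =>
    simp only [Finset.sum_insert ha]
    rw [M_add (hf a (mem_insert_self _ _)) (Bdd.sum fun i hi => hf i (mem_insert_of_mem hi)),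
      ih fun i hi => hf i (mem_insert_of_mem hi)]

theorem norm_M_le {f : ℕ → E} {C : ℝ} (hC : ∀ n, ‖f n‖ ≤ C) : ‖M f‖ ≤ C := by
  have h := (tendsto_M (⟨C, hC⟩ : Bdd f)).norm
  exact le_of_tendsto h (Eventually.of_forall fun N => norm_avg_le hC N)

theorem avg_shift_sub (f : ℕ → E) {C : ℝ} (hC : ∀ n, ‖f n‖ ≤ C) (N : ℕ) :
    ‖avg (fun n => f (n + 1)) N - avg f N‖ ≤ (N : ℝ)⁻¹ * (2 * C) := by
  unfold avg
  rw [← smul_sub, ← Finset.sum_sub_distrib, norm_smul, norm_inv, Real.norm_natCast]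
  refine mul_le_mul_of_nonneg_left ?_ (by positivity)
  have : ∑ b ∈ range N, (f (b + 1) - f b) = f N - f 0 := Finset.sum_range_sub f N
  rw [this]
  calc ‖f N - f 0‖ ≤ ‖f N‖ + ‖f 0‖ := norm_sub_le _ _
    _ ≤ 2 * C := by linarith [hC N, hC 0]

theorem M_shift_one {f : ℕ → E} (hf : Bdd f) : M (fun n => f (n + 1)) = M f := by
  obtain ⟨C, hC⟩ := hf
  apply M_eq_of_tendsto
  have h1 : Tendsto (fun N : ℕ => (N : ℝ)⁻¹ * (2 * C)) atTop (𝓝 0) := by
    simpa using (tendsto_inv_atTop_nhds_zero_nat (𝕜 := ℝ)).mul_const (2 * C)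
  have h2 : Tendsto (fun N => avg (fun n => f (n + 1)) N - avg f N) atTop (𝓝 0) :=
    squeeze_zero_norm (fun N => avg_shift_sub f hC N) h1
  have h3 := (h2.mono_left hyper_le).add (tendsto_M ⟨C, hC⟩)
  simpa using h3

theorem M_shift {f : ℕ → E} (hf : Bdd f) (k : ℕ) : M (fun n => f (n + k)) = M f := by
  induction k with
  | zero => simp
  | succ k ih =>
    have := M_shift_one (hf.shift k)
    rw [← ih, ← this]
    congr 1
    ext n
    congr 1
    ring

/-- Monotonicity, ignoring finitely many terms. -/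
theorem M_mono_of_ge {f g : ℕ → ℝ} (hf : Bdd f) (hg : Bdd g) (k : ℕ)
    (h : ∀ n, k ≤ n → f n ≤ g n) : M f ≤ M g := by
  rw [← M_shift hf k, ← M_shift hg k]
  refine le_of_tendsto_of_tendsto' (tendsto_M (hf.shift k)) (tendsto_M (hg.shift k)) fun N => ?_
  unfold avg
  exact smul_le_smul_of_nonneg_left (Finset.sum_le_sum fun b _ => h _ (by omega)) (by positivity)

theorem M_mono {f g : ℕ → ℝ} (hf : Bdd f) (hg : Bdd g) (h : ∀ n, f n ≤ g n) : M f ≤ M g :=
  M_mono_of_ge hf hg 0 fun n _ => h n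

theorem M_nonneg {f : ℕ → ℝ} (hf : Bdd f) (h : ∀ n, 0 ≤ f n) : 0 ≤ M f := by
  have := M_mono (Bdd.const (0 : ℝ)) hf h
  rwa [M_zero] at this

theorem M_le_const {f : ℕ → ℝ} (hf : Bdd f) {c : ℝ} (h : ∀ n, f n ≤ c) : M f ≤ c := by
  have := M_mono hf (Bdd.const c) h
  rwa [M_const] at this

theorem const_le_M {f : ℕ → ℝ} (hf : Bdd f) {c : ℝ} (h : ∀ n, c ≤ f n) : c ≤ M f := by
  have := M_mono (Bdd.const c) hf h
  rwa [M_const] at this

theorem M_le_of_eventually {f : ℕ → ℝ} (hf : Bdd f) {c : ℝ}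
    (h : ∀ᶠ N in atTop, avg f N ≤ c) : M f ≤ c :=
  le_of_tendsto (tendsto_M hf) (hyper_le h)

theorem norm_M_le_M_norm {f : ℕ → E} (hf : Bdd f) : ‖M f‖ ≤ M (fun n => ‖f n‖) := by
  refine le_of_tendsto_of_tendsto' (tendsto_M hf).norm (tendsto_M hf.norm) fun N => ?_
  unfold avg
  rw [norm_smul, norm_inv, Real.norm_natCast]
  exact mul_le_mul_of_nonneg_left (norm_sum_le _ _) (by positivity)

theorem Bdd.ofReal {f : ℕ → ℝ} (hf : Bdd f) : Bdd (fun n => (f n : ℂ)) := by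
  obtain ⟨C, hC⟩ := hf
  exact ⟨C, fun n => by simpa using hC n⟩

theorem Bdd.conj {f : ℕ → ℂ} (hf : Bdd f) : Bdd (fun n => (starRingEnd ℂ) (f n)) := by
  obtain ⟨C, hC⟩ := hf
  exact ⟨C, fun n => by simpa using hC n⟩

theorem M_ofReal {f : ℕ → ℝ} (hf : Bdd f) : M (fun n => (f n : ℂ)) = ((M f : ℝ) : ℂ) := by
  apply M_eq_of_tendsto
  have := (Complex.continuous_ofReal.tendsto _).comp (tendsto_M hf)
  refine this.congr fun N => ?_
  simp [avg]

theorem M_re {f : ℕ → ℂ} (hf : Bdd f) : (M f).re = M (fun n => (f n).re) := by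
  symm
  apply M_eq_of_tendsto
  have := (Complex.continuous_re.tendsto _).comp (tendsto_M hf)
  refine this.congr fun N => ?_
  simp [avg]

theorem M_conj {f : ℕ → ℂ} (hf : Bdd f) :
    M (fun n => (starRingEnd ℂ) (f n)) = (starRingEnd ℂ) (M f) := by
  apply M_eq_of_tendsto
  have := (Complex.continuous_conj.tendsto _).comp (tendsto_M hf)
  refine this.congr fun N => ?_
  simp [avg]

theorem M_const_mul {f : ℕ → ℂ} (hf : Bdd f) (c : ℂ) : M (fun n => c * f n) = c * M f := by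
  apply M_eq_of_tendsto
  have := (tendsto_M hf).const_mul c
  refine this.congr fun N => ?_
  simp only [avg, ← Finset.mul_sum, Complex.real_smul]
  ring

theorem M_mul_const {f : ℕ → ℂ} (hf : Bdd f) (c : ℂ) : M (fun n => f n * c) = M f * c := by
  rw [mul_comm, ← M_const_mul hf c]
  congr 1
  ext n
  ring

theorem M_const_mul_real {f : ℕ → ℝ} (hf : Bdd f) (c : ℝ) : M (fun n => c * f n) = c * M f := by
  simpa using M_smul hf c

/-- Cauchy-Schwarz for the mean. -/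
theorem norm_M_mul_sq_le {f g : ℕ → ℂ} (hf : Bdd f) (hg : Bdd g) :
    ‖M (fun n => f n * g n)‖ ^ 2 ≤ M (fun n => ‖f n‖ ^ 2) * M (fun n => ‖g n‖ ^ 2) := by
  have h1 := (tendsto_M (hf.mul hg)).norm.pow 2
  have h2 := (tendsto_M (hf.norm.pow 2)).mul (tendsto_M (hg.norm.pow 2))
  refine le_of_tendsto_of_tendsto' h1 h2 fun N => ?_
  unfold avg
  rw [norm_smul, norm_inv, Real.norm_natCast, mul_pow, smul_eq_mul, smul_eq_mul]
  have hcs : ‖∑ b ∈ range N, f b * g b‖ ^ 2 ≤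
      (∑ b ∈ range N, ‖f b‖ ^ 2) * ∑ b ∈ range N, ‖g b‖ ^ 2 := by
    calc ‖∑ b ∈ range N, f b * g b‖ ^ 2 ≤ (∑ b ∈ range N, ‖f b‖ * ‖g b‖) ^ 2 := by
          refine pow_le_pow_left₀ (norm_nonneg _) ?_ 2
          refine (norm_sum_le _ _).trans (Finset.sum_le_sum fun b _ => ?_)
          rw [norm_mul]
      _ ≤ _ := Finset.sum_mul_sq_le_sq_mul_sq _ _ _
  calc ((N : ℝ)⁻¹) ^ 2 * ‖∑ b ∈ range N, f b * g b‖ ^ 2
      ≤ ((N : ℝ)⁻¹) ^ 2 * ((∑ b ∈ range N, ‖f b‖ ^ 2) * ∑ b ∈ range N, ‖g b‖ ^ 2) :=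
        mul_le_mul_of_nonneg_left hcs (by positivity)
    _ = _ := by ring

/-- The mean of a nontrivial character vanishes. -/
theorem M_geom {z : ℂ} (hz : ‖z‖ = 1) (h1 : z ≠ 1) : M (fun n => z ^ n) = 0 := by
  apply M_eq_of_tendsto_atTop
  have hz1 : z - 1 ≠ 0 := sub_ne_zero.mpr h1
  have hb : ∀ N : ℕ, ‖avg (fun n => z ^ n) N‖ ≤ (N : ℝ)⁻¹ * (2 / ‖z - 1‖) := by
    intro N
    unfold avg
    rw [norm_smul, norm_inv, Real.norm_natCast]
    refine mul_le_mul_of_nonneg_left ?_ (by positivity)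
    rw [geom_sum_eq h1, norm_div]
    refine div_le_div_of_nonneg_right ?_ (norm_nonneg _)
    calc ‖z ^ N - 1‖ ≤ ‖z ^ N‖ + ‖(1 : ℂ)‖ := norm_sub_le _ _
      _ = 2 := by rw [norm_pow, hz]; norm_num
  refine squeeze_zero_norm hb ?_
  simpa using (tendsto_inv_atTop_nhds_zero_nat (𝕜 := ℝ)).mul_const (2 / ‖z - 1‖)

end

end OffDiag
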