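import Pool.Agent.OffDiag.FactA

/-!
# Trigonometric polynomials, Fourier coefficients and almost periodic sequences
-/

set_option linter.unusedSectionVars false

namespace OffDiag

open Filter Topology Finset ComplexConjugate
open scoped Classical

noncomputable section

/-- The character attached to a point of the circle. -/
def chr (z : Circle) (n : ℕ) : ℂ := (z : ℂ) ^ n

theorem chr_one (n : ℕ) : chr 1 n = 1 := by simp [chr]

theorem chr_mul (z w : Circle) (n : ℕ) : chr (z * w) n = chr z n * chr w n := by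
  simp [chr, mul_pow]

theorem chr_inv (z : Circle) (n : ℕ) : chr z⁻¹ n = conj (chr z n) := by
  unfold chr
  rw [Circle.coe_inv_eq_conj, map_pow]

theorem chr_add (z : Circle) (m n : ℕ) : chr z (m + n) = chr z m * chr z n := by
  simp [chr, pow_add]

theorem norm_chr (z : Circle) (n : ℕ) : ‖chr z n‖ = 1 := by simp [chr]

theorem chr_mul_inv (z : Circle) (n : ℕ) : chr z n * chr z⁻¹ n = 1 := by
  rw [← chr_mul, mul_inv_cancel, chr_one]

theorem chr_inv_mul (z : Circle) (n : ℕ) : chr z⁻¹ n * chr z n = 1 := by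
  rw [← chr_mul, inv_mul_cancel, chr_one]

theorem bdd_chr (z : Circle) : Bdd (chr z) := ⟨1, fun n => (norm_chr z n).le⟩

theorem M_chr (z : Circle) : M (chr z) = if z = 1 then 1 else 0 := by
  split_ifs with h
  · subst h
    have : chr 1 = fun _ => (1 : ℂ) := funext chr_one
    rw [this, M_const]
  · have h1 : (z : ℂ) ≠ 1 := fun h1 => h (Circle.ext (by simpa using h1))
    exact M_geom (by simp) h1

/-- Fourier coefficients. -/
def fc (f : ℕ → ℂ) (z : Circle) : ℂ := M (fun n => f n * chr z⁻¹ n)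

/-- The sequence `f` as a vector; zero when it is not bounded. -/
def bchr (z : Circle) : BS := BS.mk (chr z) (bdd_chr z)

theorem orthonormal_bchr : Orthonormal ℂ bchr := by
  rw [orthonormal_iff_ite]
  intro z w
  rw [bs_inner]
  have : (fun n => conj ((bchr z).fn n) * (bchr w).fn n) = chr (z⁻¹ * w) := by
    funext n
    rw [chr_mul, chr_inv]
    rfl
  rw [this, M_chr]
  simp only [inv_mul_eq_one]

/-- Bessel's inequality. -/
theorem bessel {f : ℕ → ℂ} (hf : Bdd f) (Z : Finset Circle) :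
    ∑ z ∈ Z, ‖fc f z‖ ^ 2 ≤ M (fun n => ‖f n‖ ^ 2) := by
  have h := orthonormal_bchr.sum_inner_products_le (BS.mk f hf) (s := Z)
  rw [bs_norm_sq] at h
  refine le_trans (le_of_eq ?_) h
  refine Finset.sum_congr rfl fun z _ => ?_
  rw [bs_inner]
  congr 2
  unfold fc
  congr 1
  funext n
  rw [chr_inv, mul_comm]
  rfl

/-- Quadratic mean. -/
def N2 (f : ℕ → ℂ) : ℝ := Real.sqrt (M (fun n => ‖f n‖ ^ 2))

theorem N2_nonneg (f : ℕ → ℂ) : 0 ≤ N2 f := Real.sqrt_nonneg _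

theorem N2_sq {f : ℕ → ℂ} (hf : Bdd f) : N2 f ^ 2 = M (fun n => ‖f n‖ ^ 2) :=
  Real.sq_sqrt (M_nonneg (hf.norm.pow 2) fun n => by positivity)

theorem N2_eq_norm {f : ℕ → ℂ} (hf : Bdd f) : N2 f = ‖BS.mk f hf‖ := by
  have h : N2 f ^ 2 = ‖BS.mk f hf‖ ^ 2 := by rw [N2_sq hf, bs_norm_sq]; rfl
  exact (pow_left_inj₀ (N2_nonneg f) (norm_nonneg _) two_ne_zero).mp h

theorem N2_add_le {f g : ℕ → ℂ} (hf : Bdd f) (hg : Bdd g) :
    N2 (fun n => f n + g n) ≤ N2 f + N2 g := by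
  rw [N2_eq_norm hf, N2_eq_norm hg, N2_eq_norm (hf.add hg)]
  exact norm_add_le (BS.mk f hf) (BS.mk g hg)

theorem N2_sub_comm (f g : ℕ → ℂ) : N2 (fun n => f n - g n) = N2 (fun n => g n - f n) := by
  unfold N2
  congr 2
  funext n
  rw [norm_sub_rev]

theorem N2_le_of_bound {f : ℕ → ℂ} (hf : Bdd f) {C : ℝ} (hC : ∀ n, ‖f n‖ ≤ C) : N2 f ≤ C := by
  have hC0 : 0 ≤ C := (norm_nonneg _).trans (hC 0)
  refine Real.sqrt_le_iff.mpr ⟨hC0, ?_⟩
  exact M_le_const (hf.norm.pow 2) fun n => pow_le_pow_left₀ (norm_nonneg _) (hC n) 2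

theorem norm_M_mul_le {f g : ℕ → ℂ} (hf : Bdd f) (hg : Bdd g) :
    ‖M (fun n => f n * g n)‖ ≤ N2 f * N2 g := by
  have h := norm_M_mul_sq_le hf hg
  rw [← N2_sq hf, ← N2_sq hg, ← mul_pow] at h
  exact le_of_sq_le_sq h (mul_nonneg (N2_nonneg _) (N2_nonneg _))

/-- Trigonometric polynomials. -/
def TP : Submodule ℂ (ℕ → ℂ) := Submodule.span ℂ (Set.range chr)

theorem chr_mem_TP (z : Circle) : chr z ∈ TP := Submodule.subset_span ⟨z, rfl⟩

theorem pow_mem_TP {z : ℂ} (hz : ‖z‖ = 1) : (fun n : ℕ => z ^ n) ∈ TP :=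
  chr_mem_TP ⟨z, by simpa [Submonoid.unitSphere] using hz⟩

theorem TP_mul {P Q : ℕ → ℂ} (hP : P ∈ TP) (hQ : Q ∈ TP) : P * Q ∈ TP := by
  induction hP, hQ using Submodule.span_induction₂ with
  | mem_mem x y hx hy =>
    obtain ⟨z, rfl⟩ := hx
    obtain ⟨w, rfl⟩ := hy
    have : chr z * chr w = chr (z * w) := by
      funext n
      simp [chr_mul]
    rw [this]
    exact chr_mem_TP _
  | zero_left y hy => simp
  | zero_right x hx => simp
  | add_left x y z hx hy hz h1 h2 => rw [add_mul]; exact TP.add_mem h1 h2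
  | add_right x y z hx hy hz h1 h2 => rw [mul_add]; exact TP.add_mem h1 h2
  | smul_left r x y hx hy h => rw [smul_mul_assoc]; exact TP.smul_mem _ h
  | smul_right r x y hx hy h => rw [mul_smul_comm]; exact TP.smul_mem _ h

theorem const_mem_TP (c : ℂ) : (fun _ : ℕ => c) ∈ TP := by
  have : (fun _ : ℕ => c) = c • chr 1 := by
    funext n
    simp [chr_one]
  rw [this]
  exact TP.smul_mem _ (chr_mem_TP 1)

theorem TP_pow {P : ℕ → ℂ} (hP : P ∈ TP) (k : ℕ) : P ^ k ∈ TP := by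
  induction k with
  | zero => rw [pow_zero]; exact const_mem_TP 1
  | succ k ih => rw [pow_succ]; exact TP_mul ih hP

theorem bdd_TP {P : ℕ → ℂ} (hP : P ∈ TP) : Bdd P := by
  have : TP ≤ bddSub := by
    unfold TP
    rw [Submodule.span_le]
    rintro _ ⟨z, rfl⟩
    exact bdd_chr z
  exact this hP

/-- Almost periodic sequences, in quadratic mean. -/
def BAP (T : ℕ → ℂ) : Prop :=
  Bdd T ∧ ∀ ε : ℝ, 0 < ε → ∃ P ∈ TP, M (fun n => ‖T n - P n‖ ^ 2) ≤ ε

theorem BAP.of_TP {P : ℕ → ℂ} (hP : P ∈ TP) : BAP P :=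
  ⟨bdd_TP hP, fun ε hε => ⟨P, hP, by simpa using (M_zero (E := ℝ)).le.trans hε.le⟩⟩

theorem BAP.add {S T : ℕ → ℂ} (hS : BAP S) (hT : BAP T) : BAP (fun n => S n + T n) := by
  refine ⟨hS.1.add hT.1, fun ε hε => ?_⟩
  obtain ⟨P, hP, hP'⟩ := hS.2 (ε / 4) (by positivity)
  obtain ⟨Q, hQ, hQ'⟩ := hT.2 (ε / 4) (by positivity)
  refine ⟨P + Q, TP.add_mem hP hQ, ?_⟩
  have b1 : Bdd (fun n => ‖S n - P n‖ ^ 2) := (hS.1.sub (bdd_TP hP)).norm.pow 2
  have b2 : Bdd (fun n => ‖T n - Q n‖ ^ 2) := (hT.1.sub (bdd_TP hQ)).norm.pow 2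
  have b3 : Bdd (fun n => ‖S n + T n - (P + Q) n‖ ^ 2) :=
    ((hS.1.add hT.1).sub (bdd_TP (TP.add_mem hP hQ))).norm.pow 2
  calc M (fun n => ‖S n + T n - (P + Q) n‖ ^ 2)
      ≤ M (fun n => 2 * ‖S n - P n‖ ^ 2 + 2 * ‖T n - Q n‖ ^ 2) := by
        refine M_mono b3 ((Bdd.mul (Bdd.const (2 : ℝ)) b1).add (Bdd.mul (Bdd.const (2 : ℝ)) b2))
          fun n => ?_
        have h1 : S n + T n - (P + Q) n = (S n - P n) + (T n - Q n) := by
          simp only [Pi.add_apply]; ring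
        rw [h1]
        have h2 := norm_add_le (S n - P n) (T n - Q n)
        have h3 : ‖S n - P n + (T n - Q n)‖ ^ 2 ≤ (‖S n - P n‖ + ‖T n - Q n‖) ^ 2 :=
          pow_le_pow_left₀ (norm_nonneg _) h2 2
        nlinarith [sq_nonneg (‖S n - P n‖ - ‖T n - Q n‖)]
    _ = 2 * M (fun n => ‖S n - P n‖ ^ 2) + 2 * M (fun n => ‖T n - Q n‖ ^ 2) := by
        rw [M_add (Bdd.mul (Bdd.const (2 : ℝ)) b1) (Bdd.mul (Bdd.const (2 : ℝ)) b2),
          M_const_mul_real b1, M_const_mul_real b2]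
    _ ≤ ε := by linarith

theorem BAP.mul_TP {T R : ℕ → ℂ} (hT : BAP T) (hR : R ∈ TP) : BAP (fun n => R n * T n) := by
  refine ⟨(bdd_TP hR).mul hT.1, fun ε hε => ?_⟩
  obtain ⟨C, hC0, hC⟩ := (bdd_TP hR).exists_nonneg
  obtain ⟨P, hP, hP'⟩ := hT.2 (ε / (C ^ 2 + 1)) (by positivity)
  refine ⟨R * P, TP_mul hR hP, ?_⟩
  have b1 : Bdd (fun n => ‖T n - P n‖ ^ 2) := (hT.1.sub (bdd_TP hP)).norm.pow 2
  have b3 : Bdd (fun n => ‖R n * T n - (R * P) n‖ ^ 2) :=
    (((bdd_TP hR).mul hT.1).sub (bdd_TP (TP_mul hR hP))).norm.pow 2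
  calc M (fun n => ‖R n * T n - (R * P) n‖ ^ 2)
      ≤ M (fun n => C ^ 2 * ‖T n - P n‖ ^ 2) := by
        refine M_mono b3 (Bdd.mul (Bdd.const (C ^ 2 : ℝ)) b1) fun n => ?_
        have h1 : R n * T n - (R * P) n = R n * (T n - P n) := by
          simp only [Pi.mul_apply]; ring
        rw [h1, norm_mul, mul_pow]
        exact mul_le_mul_of_nonneg_right (pow_le_pow_left₀ (norm_nonneg _) (hC n) 2)
          (by positivity)
    _ = C ^ 2 * M (fun n => ‖T n - P n‖ ^ 2) := M_const_mul_real b1 _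
    _ ≤ C ^ 2 * (ε / (C ^ 2 + 1)) := mul_le_mul_of_nonneg_left hP' (by positivity)
    _ ≤ ε := by
        rw [mul_div_assoc', div_le_iff₀ (by positivity)]
        nlinarith

theorem BAP.const_mul {T : ℕ → ℂ} (hT : BAP T) (c : ℂ) : BAP (fun n => c * T n) :=
  hT.mul_TP (const_mem_TP c)

theorem BAP.sub {S T : ℕ → ℂ} (hS : BAP S) (hT : BAP T) : BAP (fun n => S n - T n) := by
  have := hS.add (hT.const_mul (-1))
  simpa [sub_eq_add_neg] using this

theorem BAP.sum {ι : Type*} {s : Finset ι} {T : ι → ℕ → ℂ} (h : ∀ i ∈ s, BAP (T i)) :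
    BAP (fun n => ∑ i ∈ s, T i n) := by
  classical
  induction s using Finset.induction_on with
  | empty => simpa using BAP.of_TP (const_mem_TP 0)
  | insert a s ha ih =>
    simp only [Finset.sum_insert ha]
    exact (h a (mem_insert_self _ _)).add (ih fun i hi => h i (mem_insert_of_mem hi))

end

end OffDiag
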